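import Pool.Agent.H514.AntB1

/-!
# The abstract summation with an arbitrary base: the levels
-/

set_option autoImplicit false

namespace Pool.Agent.H514.AK

open Finset Pool.Agent.W262.RK Pool.Agent.W307.RT

section rv

open Pool.Agent.W591.RK2 (gen term cast_eq sum_sq_le)

lemma mTup {J : Type} [Fintype J] [DecidableEq J] {a b : ℕ} {d : J → ℕ} (hd : d ∈ Tup J a b)
    (j : J) : d j ∈ (PP a b).divisors := Pool.Agent.W591.RK2.mem_Tup' hd j

/-- the sum over the squares -/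
theorem rvb (J : Type) [Fintype J] [DecidableEq J] (z : ℕ) (lam : ℝ) {b : ℝ} (hb0 : 0 < b)
    (hz : 2 * Fintype.card J + 2 ≤ z) (hlam : 0 ≤ lam) : ∃ C : ℝ, ∀ y, z < y →
    ∑ v ∈ Tup J z y, (∏ j, b ^ (v j).primeFactors.card * (gw 1 (Fintype.card J) (v j) / v j)) *
      (∏ j, (v j : ℝ)) ^ (lam / Real.log y) ≤ C := by
  refine ⟨Real.exp (Fintype.card J * (2 * b * Real.exp lam)), fun y hy => ?_⟩
  set c := Fintype.card J with hc
  have hy3 : 3 ≤ y := by omega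
  have hyr : (3 : ℝ) ≤ y := by exact_mod_cast hy3
  have hl : 0 < Real.log y := Real.log_pos (by linarith)
  set δ := lam / Real.log y with hδ
  have hδ0 : 0 ≤ δ := div_nonneg hlam hl.le
  set h : ℕ → ℝ := fun p => (b * ((1 / ((p : ℝ) - c)) / p)) * (p : ℝ) ^ δ with hh
  have hpc : ∀ p ∈ PS z y, (p : ℝ) / 2 ≤ (p : ℝ) - c ∧ (0 : ℝ) < p := by
    intro p hp
    have h1 := (mem_PS.1 hp).1.1
    have h2 : 2 * (c : ℝ) ≤ p := by exact_mod_cast (by omega : 2 * c ≤ p)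
    have h3 : (0 : ℝ) < p := by exact_mod_cast (mem_PS.1 hp).2.pos
    exact ⟨by linarith, h3⟩
  have hnn : ∀ p ∈ PS z y, 0 ≤ h p := by
    intro p hp
    obtain ⟨h1, h2⟩ := hpc p hp
    have h3 : 0 < (p : ℝ) - c := by linarith
    simp only [hh]
    positivity
  have e : ∀ v ∈ Tup J z y, (∏ j, b ^ (v j).primeFactors.card * (gw 1 c (v j) / v j)) *
      (∏ j, (v j : ℝ)) ^ δ = ∏ j, ∏ p ∈ (v j).primeFactors, h p := by
    intro v hv
    rw [← term hv δ]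
    congr 1
    refine prod_congr rfl fun j _ => ?_
    have h1 : ∏ p ∈ (v j).primeFactors, ((1 / ((p : ℝ) - c)) / p) =
        (∏ p ∈ (v j).primeFactors, 1 / ((p : ℝ) - c)) / ∏ p ∈ (v j).primeFactors, (p : ℝ) :=
      prod_div_distrib _ _
    rw [prod_mul_distrib, prod_const, h1, ← cast_eq (dv_squarefree (mTup hv j))]
    rfl
  rw [sum_congr rfl e]
  refine (gen J z y h hnn).trans (Real.exp_le_exp.2 (mul_le_mul_of_nonneg_left ?_ (Nat.cast_nonneg _)))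
  have hb : ∀ p ∈ PS z y, h p ≤ 2 * b * Real.exp lam * (1 / (p : ℝ) ^ 2) := by
    intro p hp
    obtain ⟨h1, h2⟩ := hpc p hp
    have h3 : 0 < (p : ℝ) - c := by linarith
    have h4 : (p : ℝ) ^ δ ≤ Real.exp lam := by
      have h5 : (p : ℝ) ≤ y := by exact_mod_cast (mem_PS.1 hp).1.2
      calc (p : ℝ) ^ δ ≤ (y : ℝ) ^ δ := Real.rpow_le_rpow h2.le h5 hδ0
        _ = Real.exp lam := by
          rw [Real.rpow_def_of_pos (by linarith), hδ]
          congr 1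
          field_simp
    have h6 : b * ((1 / ((p : ℝ) - c)) / p) ≤ 2 * b * (1 / (p : ℝ) ^ 2) := by
      have h7 : 1 / ((p : ℝ) - c) ≤ 2 / p := by
        rw [div_le_div_iff₀ h3 h2]
        linarith
      have h8 : (1 / ((p : ℝ) - c)) / p ≤ (2 / p) / p := div_le_div_of_nonneg_right h7 h2.le
      have h9 : (2 / (p : ℝ)) / p = 2 * (1 / (p : ℝ) ^ 2) := by
        field_simp
      calc b * ((1 / ((p : ℝ) - c)) / p) ≤ b * ((2 / p) / p) :=
            mul_le_mul_of_nonneg_left h8 hb0.le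
        _ = _ := by
          rw [h9]
          ring
    calc h p ≤ (2 * b * (1 / (p : ℝ) ^ 2)) * Real.exp lam :=
          mul_le_mul h6 h4 (by positivity) (by positivity)
      _ = _ := by ring
  calc ∑ p ∈ PS z y, h p ≤ ∑ p ∈ PS z y, 2 * b * Real.exp lam * (1 / (p : ℝ) ^ 2) := sum_le_sum hb
    _ = 2 * b * Real.exp lam * ∑ p ∈ PS z y, 1 / (p : ℝ) ^ 2 := by rw [mul_sum]
    _ ≤ 2 * b * Real.exp lam * 1 :=
        mul_le_mul_of_nonneg_left (sum_sq_le z y (by omega)) (by positivity)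
    _ = _ := mul_one _


end rv

section levels

open Pool.Agent.W45.RT (S1_mul_S2 S1_dvd_rp S2_dvd_rp rpG_mem S1_mem S2_mem splitSum)

variable {J : Type} [Fintype J] [DecidableEq J] {Ω : Type}

/-- the weight of `v` -/
noncomputable def bVb (b : ℝ) (N : ℕ) (v : J → ℕ) : ℝ :=
  ∏ j, b ^ (v j).primeFactors.card * (gw 1 N (v j) / v j)

lemma bVb_nn {b : ℝ} (hb0 : 0 < b) {c z y : ℕ} (hz : c ≤ z) {d : J → ℕ} (hd : d ∈ Tup J z y) :
    0 ≤ bVb b c d :=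
  prod_nonneg fun j _ => mul_nonneg (by positivity) (div_nonneg (gw_nn hz hd j) (by positivity))

open Classical in
/-- one level -/
lemma lev {f : Ω → J → ℤ} {z : ℕ} {G : (J → ℕ) → ℝ} {R : Ω → ℝ} {X y Y k : ℕ} {TX : Finset Ω}
    {SX : ℝ} (hSX : 0 ≤ SX) (hz : 2 * Fintype.card J + 2 ≤ z)
    {b C D A1 A2 A3 lam : ℝ} (hb0 : 0 < b) (hB : ∀ ω ∈ TX, Gd z (f ω)) (hG : ∀ s, 0 ≤ G s) (hR : ∀ t, 0 ≤ R t)
    (hC : 0 ≤ C) (hD : 1 ≤ D) (hA2 : 0 ≤ A2) (hA3 : 0 ≤ A3) (hgr : GR)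
    (hlam : lam = 16 * (Real.log D + 1))
    (h1 : ∑ s ∈ Tup J z y, G s * (∏ j, gw 1 (Fintype.card J) (s j)) *
      (∏ j, (s j : ℝ)) ^ (lam / Real.log y) ≤ A1 * (Real.log y) ^ (Fintype.card J))
    (h2 : ∀ y, z < y → ∑ v ∈ Tup J z y, bVb b (Fintype.card J) v *
      (∏ j, (v j : ℝ)) ^ (lam / Real.log y) ≤ A2)
    (h3 : ∀ y Y : ℕ, 3 ≤ y → Y ≤ (y + 1) ^ 2 → ∑ u ∈ Tup J y Y, (∏ j, 1 / (u j : ℝ)) *
      (∏ j, (u j : ℝ)) ^ (lam / Real.log y) ≤ A3)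
    (hH : ∀ s ∈ Tup J z y,
      ∀ v ∈ Tup J z y, ∀ u ∈ Tup J y Y, (∏ j, s j * v j * u j) ^ 8 ≤ X →
      ∀ T' : Finset Ω, T' ⊆ TX → (∀ ω ∈ T', S1 z y (f ω) = s ∧ S2 z y (f ω) = v ∧
        ∀ j, (u j : ℤ) ∣ f ω j) → ∑ ω ∈ T', R ω ≤
        C * D ^ k * SX * (G s * ∏ j, gw 1 (Fintype.card J) (s j)) *
          (∏ j, b ^ (v j).primeFactors.card * (gw 1 (Fintype.card J) (v j) / v j)) *
          (∏ j, 1 / (u j : ℝ)) / (Real.log y) ^ (Fintype.card J))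
    (hzy : z < y) (hy3 : 3 ≤ y) (hyk : y ^ k ≤ X)
    (hyY : y ≤ Y) (hY : Y ≤ (y + 1) ^ 2) (hY16 : Y ^ 16 ≤ X) :
    ∑ t ∈ TX.filter (fun t : Ω => (∏ j, rp z y (f t j)) ^ 8 ≤ X ∧
      X < (∏ j, rp z Y (f t j)) ^ 8), R t ≤ C * A1 * A2 * A3 * SX * Real.exp (-k) := by
  classical
  set N := Fintype.card J with hN
  have hX1 : 1 ≤ X := le_trans (Nat.one_le_pow _ _ (by omega)) hyk
  have hXr : (1 : ℝ) ≤ X := by exact_mod_cast hX1
  have hyr : (3 : ℝ) ≤ y := by exact_mod_cast hy3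
  have hlogy : 0 < Real.log y := Real.log_pos (by linarith)
  have hlogD : 0 ≤ Real.log D := Real.log_nonneg hD
  have hlam0 : 0 < lam := by rw [hlam]; linarith
  set δ := lam / Real.log y with hδ
  have hδ0 : 0 < δ := div_pos hlam0 hlogy
  have hcz : N ≤ z := by omega
  set A := ((Tup J z y ×ˢ Tup J z y) ×ˢ Tup J y Y).filter (fun q =>
    (∏ j, q.1.1 j * q.1.2 j * q.2 j) ^ 8 ≤ X ∧ X < (∏ j, q.1.1 j * q.1.2 j * q.2 j) ^ 16) with hA
  set S : ((J → ℕ) × (J → ℕ)) × (J → ℕ) → Finset Ω := fun q => TX.filter (fun t : Ω =>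
    S1 z y (f t) = q.1.1 ∧ S2 z y (f t) = q.1.2 ∧ ∀ j, (q.2 j : ℤ) ∣ f t j) with hS
  have hcov : ∀ t ∈ TX.filter (fun t : Ω => (∏ j, rp z y (f t j)) ^ 8 ≤ X ∧
      X < (∏ j, rp z Y (f t j)) ^ 8),
      ∃ q ∈ A, t ∈ S q := by
    intro t ht
    rw [mem_filter] at ht
    obtain ⟨ht1, ht2, ht3⟩ := ht
    have hBt := hB t ht1
    obtain ⟨u, hu, hug, hu8, hu16⟩ := hgr J z y Y X hzy.le hyY hY16 (S1 z y (f t)) (S2 z y (f t))
      (fun j => rp y Y (f t j)) (rpG_mem hBt hzy.le)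
      (by rw [prod_congr rfl (fun j _ => S1_mul_S2 (f t) z y j)]; exact ht2)
      (by
        rw [prod_congr rfl (fun j _ => by rw [S1_mul_S2 (f t) z y j, ← rp_mul hzy.le hyY])]
        exact ht3)
    refine ⟨((S1 z y (f t), S2 z y (f t)), u), ?_, ?_⟩
    · rw [hA, mem_filter, mem_product, mem_product]
      exact ⟨⟨⟨S1_mem hBt, S2_mem hBt⟩, hu⟩, hu8, hu16⟩
    · rw [hS, mem_filter]
      refine ⟨ht1, rfl, rfl, fun j => ?_⟩
      have h4 : (rp y Y (f t j) : ℤ) ∣ f t j :=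
        prodS_dvd (fun p hp => (mem_PS.1 (mem_filter.1 hp).1).2) (fun p hp => (mem_filter.1 hp).2)
      exact (Int.natCast_dvd_natCast.2 (hug j)).trans h4
  refine (splitSum hR hcov).trans ?_
  -- the bound for each `q`
  set W : ℝ := C * D ^ k * SX / (Real.log y) ^ N * (X : ℝ) ^ (-(δ / 16)) with hW
  have hW0 : 0 ≤ W := by positivity
  have hq : ∀ q ∈ A, ∑ t ∈ S q, R t ≤ W *
      ((G q.1.1 * (∏ j, gw 1 N (q.1.1 j)) * (∏ j, (q.1.1 j : ℝ)) ^ δ) *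
        (bVb b N q.1.2 * (∏ j, (q.1.2 j : ℝ)) ^ δ) *
        ((∏ j, 1 / (q.2 j : ℝ)) * (∏ j, (q.2 j : ℝ)) ^ δ)) := by
    intro q hq
    rw [hA, mem_filter, mem_product, mem_product] at hq
    obtain ⟨⟨⟨hs, hv⟩, hu⟩, hq8, hq16⟩ := hq
    refine (hH q.1.1 hs q.1.2 hv q.2 hu hq8 (S q) (filter_subset _ _)
      (fun ω hω => (mem_filter.1 hω).2)).trans ?_
    have ha : 0 ≤ G q.1.1 * ∏ j, gw 1 N (q.1.1 j) :=
      mul_nonneg (hG _) (prod_nonneg fun j _ => gw_nn hcz hs j)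
    have hb : 0 ≤ bVb b N q.1.2 := bVb_nn hb0 hcz hv
    have hc : 0 ≤ ∏ j, 1 / (q.2 j : ℝ) := prod_nonneg fun j _ => by positivity
    have hp1 := prod_cast_ge_one hs
    have hp2 := prod_cast_ge_one hv
    have hp3 := prod_cast_ge_one hu
    have hfac : 1 ≤ (X : ℝ) ^ (-(δ / 16)) * ((∏ j, (q.1.1 j : ℝ)) ^ δ *
        (∏ j, (q.1.2 j : ℝ)) ^ δ * (∏ j, (q.2 j : ℝ)) ^ δ) := by
      rw [← Real.mul_rpow (by positivity) (by positivity),
        ← Real.mul_rpow (by positivity) (by positivity)]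
      set P : ℝ := (∏ j, (q.1.1 j : ℝ)) * (∏ j, (q.1.2 j : ℝ)) * (∏ j, (q.2 j : ℝ)) with hP
      have hP1 : 1 ≤ P := by
        rw [hP]
        exact one_le_mul_of_one_le_of_one_le (one_le_mul_of_one_le_of_one_le hp1 hp2) hp3
      have hPX : (X : ℝ) ≤ P ^ (16 : ℕ) := by
        have h5 : (X : ℝ) ≤ (((∏ j, q.1.1 j * q.1.2 j * q.2 j) ^ 16 : ℕ) : ℝ) := by
          exact_mod_cast hq16.le
        push_cast at h5
        rw [prod_mul_distrib, prod_mul_distrib] at h5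
        exact h5
      have hPd : (X : ℝ) ^ (δ / 16) ≤ P ^ δ := by
        calc (X : ℝ) ^ (δ / 16) ≤ (P ^ (16 : ℕ)) ^ (δ / 16) :=
              Real.rpow_le_rpow (by positivity) hPX (by positivity)
          _ = P ^ δ := by
              rw [← Real.rpow_natCast, ← Real.rpow_mul (by positivity)]
              congr 1
              push_cast
              ring
      rw [Real.rpow_neg (by positivity)]
      have h6 : 0 < (X : ℝ) ^ (δ / 16) := by positivity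
      rw [inv_mul_eq_div, one_le_div h6]
      exact hPd
    have hbase : 0 ≤ C * D ^ k * SX / (Real.log y) ^ N * ((G q.1.1 * ∏ j, gw 1 N (q.1.1 j)) *
        bVb b N q.1.2 * ∏ j, 1 / (q.2 j : ℝ)) :=
      mul_nonneg (by positivity) (mul_nonneg (mul_nonneg ha hb) hc)
    calc C * D ^ k * SX * (G q.1.1 * ∏ j, gw 1 N (q.1.1 j)) *
          (∏ j, b ^ (q.1.2 j).primeFactors.card * (gw 1 N (q.1.2 j) / q.1.2 j)) *
          (∏ j, 1 / (q.2 j : ℝ)) / (Real.log y) ^ N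
        = C * D ^ k * SX / (Real.log y) ^ N * ((G q.1.1 * ∏ j, gw 1 N (q.1.1 j)) *
        bVb b N q.1.2 * ∏ j, 1 / (q.2 j : ℝ)) := by unfold bVb; ring
      _ ≤ C * D ^ k * SX / (Real.log y) ^ N * ((G q.1.1 * ∏ j, gw 1 N (q.1.1 j)) *
        bVb b N q.1.2 * ∏ j, 1 / (q.2 j : ℝ)) * ((X : ℝ) ^ (-(δ / 16)) *
          ((∏ j, (q.1.1 j : ℝ)) ^ δ * (∏ j, (q.1.2 j : ℝ)) ^ δ * (∏ j, (q.2 j : ℝ)) ^ δ)) :=
          le_mul_of_one_le_right hbase hfac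
      _ = _ := by rw [hW]; ring
  refine (sum_le_sum hq).trans ?_
  rw [← mul_sum]
  have hfull : ∑ q ∈ A, ((G q.1.1 * (∏ j, gw 1 N (q.1.1 j)) * (∏ j, (q.1.1 j : ℝ)) ^ δ) *
        (bVb b N q.1.2 * (∏ j, (q.1.2 j : ℝ)) ^ δ) *
        ((∏ j, 1 / (q.2 j : ℝ)) * (∏ j, (q.2 j : ℝ)) ^ δ)) ≤
      (∑ s ∈ Tup J z y, G s * (∏ j, gw 1 N (s j)) * (∏ j, (s j : ℝ)) ^ δ) *
      (∑ v ∈ Tup J z y, bVb b N v * (∏ j, (v j : ℝ)) ^ δ) *
      (∑ u ∈ Tup J y Y, (∏ j, 1 / (u j : ℝ)) * (∏ j, (u j : ℝ)) ^ δ) := by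
    rw [sum_mul_sum, ← sum_product', sum_mul_sum, ← sum_product']
    refine sum_le_sum_of_subset_of_nonneg (filter_subset _ _) (fun q hq _ => ?_)
    rw [mem_product, mem_product] at hq
    obtain ⟨⟨hs, hv⟩, hu⟩ := hq
    have hp1 := prod_cast_ge_one hs
    have hp2 := prod_cast_ge_one hv
    have hp3 := prod_cast_ge_one hu
    refine mul_nonneg (mul_nonneg ?_ ?_) ?_
    · exact mul_nonneg (mul_nonneg (hG _) (prod_nonneg fun j _ => gw_nn hcz hs j)) (by positivity)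
    · exact mul_nonneg (bVb_nn hb0 hcz hv) (by positivity)
    · exact mul_nonneg (prod_nonneg fun j _ => by positivity) (by positivity)
  have hs0 : 0 ≤ ∑ s ∈ Tup J z y, G s * (∏ j, gw 1 N (s j)) * (∏ j, (s j : ℝ)) ^ δ :=
    sum_nonneg fun s hs => by
      have hp1 := prod_cast_ge_one hs
      exact mul_nonneg (mul_nonneg (hG _) (prod_nonneg fun j _ => gw_nn hcz hs j)) (by positivity)
  have hv0 : 0 ≤ ∑ v ∈ Tup J z y, bVb b N v * (∏ j, (v j : ℝ)) ^ δ :=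
    sum_nonneg fun v hv => by
      have hp1 := prod_cast_ge_one hv
      exact mul_nonneg (bVb_nn hb0 hcz hv) (by positivity)
  have hu0 : 0 ≤ ∑ u ∈ Tup J y Y, (∏ j, 1 / (u j : ℝ)) * (∏ j, (u j : ℝ)) ^ δ :=
    sum_nonneg fun u hu => by
      have hp1 := prod_cast_ge_one hu
      exact mul_nonneg (prod_nonneg fun j _ => by positivity) (by positivity)
  have hbd : (∑ s ∈ Tup J z y, G s * (∏ j, gw 1 N (s j)) * (∏ j, (s j : ℝ)) ^ δ) *
      (∑ v ∈ Tup J z y, bVb b N v * (∏ j, (v j : ℝ)) ^ δ) *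
      (∑ u ∈ Tup J y Y, (∏ j, 1 / (u j : ℝ)) * (∏ j, (u j : ℝ)) ^ δ) ≤
      (A1 * (Real.log y) ^ N) * A2 * A3 := by
    have e1 := h1
    have e2 := h2 y hzy
    have e3 := h3 y Y hy3 hY
    exact mul_le_mul (mul_le_mul e1 e2 hv0 (hs0.trans e1)) e3 hu0
      (mul_nonneg (hs0.trans e1) hA2)
  have hfin := mul_le_mul_of_nonneg_left (hfull.trans hbd) hW0
  refine hfin.trans ?_
  have hA1 : 0 ≤ A1 := by
    have e1 := hs0.trans (h1)
    have e2 : 0 < (Real.log y) ^ N := by positivity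
    exact nonneg_of_mul_nonneg_left e1 e2
  -- the exponential saving
  have hexp : D ^ k * (X : ℝ) ^ (-(δ / 16)) ≤ Real.exp (-k) := by
    have hXpos : (0 : ℝ) < X := by linarith
    have hlX : k * Real.log y ≤ Real.log X := by
      rw [← Real.log_pow]
      exact Real.log_le_log (by positivity) (by exact_mod_cast hyk)
    have e1 : D ^ k = Real.exp (k * Real.log D) := by
      rw [← Real.log_pow, Real.exp_log (by positivity)]
    have e2 : (X : ℝ) ^ (-(δ / 16)) = Real.exp (-(δ / 16) * Real.log X) := by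
      rw [Real.rpow_def_of_pos hXpos, mul_comm]
    rw [e1, e2, ← Real.exp_add]
    apply Real.exp_le_exp.2
    have e3 : δ / 16 * (k * Real.log y) ≤ δ / 16 * Real.log X :=
      mul_le_mul_of_nonneg_left hlX (by positivity)
    have e4 : δ / 16 * (k * Real.log y) = k * (Real.log D + 1) := by
      rw [hδ, hlam]
      field_simp
    rw [e4] at e3
    linarith
  have hL : (Real.log y) ^ N ≠ 0 := by positivity
  calc W * (A1 * (Real.log y) ^ N * A2 * A3)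
      = (C * A1 * A2 * A3 * SX) * (D ^ k * (X : ℝ) ^ (-(δ / 16))) := by
        rw [hW]; field_simp
    _ ≤ (C * A1 * A2 * A3 * SX) * Real.exp (-k) :=
        mul_le_mul_of_nonneg_left hexp (by positivity)


open Classical in
/-- the first level -/
lemma lev0 {f : Ω → J → ℤ} {z : ℕ} {G : (J → ℕ) → ℝ} {R : Ω → ℝ} {X y k : ℕ} {TX : Finset Ω}
    {SX : ℝ} (hSX : 0 ≤ SX) (hz : 2 * Fintype.card J + 2 ≤ z)
    {b C D A1 A2 lam : ℝ} (hb0 : 0 < b) (hB : ∀ ω ∈ TX, Gd z (f ω)) (hG : ∀ s, 0 ≤ G s) (hR : ∀ t, 0 ≤ R t)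
    (hC : 0 ≤ C) (hD : 1 ≤ D) (hA2 : 0 ≤ A2) (hlam : 0 ≤ lam)
    (h1 : ∑ s ∈ Tup J z y, G s * (∏ j, gw 1 (Fintype.card J) (s j)) *
      (∏ j, (s j : ℝ)) ^ (lam / Real.log y) ≤ A1 * (Real.log y) ^ (Fintype.card J))
    (h2 : ∀ y, z < y → ∑ v ∈ Tup J z y, bVb b (Fintype.card J) v *
      (∏ j, (v j : ℝ)) ^ (lam / Real.log y) ≤ A2)
    (hH : ∀ s ∈ Tup J z y,
      ∀ v ∈ Tup J z y, ∀ u ∈ Tup J y y, (∏ j, s j * v j * u j) ^ 8 ≤ X →
      ∀ T' : Finset Ω, T' ⊆ TX → (∀ ω ∈ T', S1 z y (f ω) = s ∧ S2 z y (f ω) = v ∧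
        ∀ j, (u j : ℤ) ∣ f ω j) → ∑ ω ∈ T', R ω ≤
        C * D ^ k * SX * (G s * ∏ j, gw 1 (Fintype.card J) (s j)) *
          (∏ j, b ^ (v j).primeFactors.card * (gw 1 (Fintype.card J) (v j) / v j)) *
          (∏ j, 1 / (u j : ℝ)) / (Real.log y) ^ (Fintype.card J))
    (hzy : z < y) (hy3 : 3 ≤ y) :
    ∑ t ∈ TX.filter (fun t : Ω => (∏ j, rp z y (f t j)) ^ 8 ≤ X), R t ≤
      C * D ^ k * A1 * A2 * SX := by
  classical
  set N := Fintype.card J with hN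
  have hyr : (3 : ℝ) ≤ y := by exact_mod_cast hy3
  have hlogy : 0 < Real.log y := Real.log_pos (by linarith)
  set δ := lam / Real.log y with hδ
  have hδ0 : 0 ≤ δ := div_nonneg hlam hlogy.le
  have hcz : N ≤ z := by omega
  set A := (Tup J z y ×ˢ Tup J z y).filter (fun q => (∏ j, q.1 j * q.2 j) ^ 8 ≤ X) with hA
  set S : (J → ℕ) × (J → ℕ) → Finset Ω := fun q => TX.filter (fun t : Ω =>
    S1 z y (f t) = q.1 ∧ S2 z y (f t) = q.2 ∧
    ∀ j, (((fun _ => 1 : J → ℕ) j : ℕ) : ℤ) ∣ f t j) with hS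
  have hcov : ∀ t ∈ TX.filter (fun t : Ω => (∏ j, rp z y (f t j)) ^ 8 ≤ X),
      ∃ q ∈ A, t ∈ S q := by
    intro t ht
    rw [mem_filter] at ht
    obtain ⟨ht1, ht2⟩ := ht
    have hBt := hB t ht1
    refine ⟨(S1 z y (f t), S2 z y (f t)), ?_, ?_⟩
    · rw [hA, mem_filter, mem_product]
      refine ⟨⟨S1_mem hBt, S2_mem hBt⟩, ?_⟩
      rw [prod_congr rfl (fun j _ => S1_mul_S2 (f t) z y j)]
      exact ht2
    · rw [hS, mem_filter]
      refine ⟨ht1, rfl, rfl, fun j => ?_⟩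
      simp
  refine (splitSum hR hcov).trans ?_
  set W : ℝ := C * D ^ k * SX / (Real.log y) ^ N with hW
  have hW0 : 0 ≤ W := by positivity
  have hq : ∀ q ∈ A, ∑ t ∈ S q, R t ≤ W *
      ((G q.1 * (∏ j, gw 1 N (q.1 j)) * (∏ j, (q.1 j : ℝ)) ^ δ) *
        (bVb b N q.2 * (∏ j, (q.2 j : ℝ)) ^ δ)) := by
    intro q hq
    rw [hA, mem_filter, mem_product] at hq
    obtain ⟨⟨hs, hv⟩, hq8⟩ := hq
    refine (hH q.1 hs q.2 hv (fun _ => 1) (one_mem_Tup _ _)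
      (by simpa using hq8) (S q) (filter_subset _ _)
      (fun ω hω => (mem_filter.1 hω).2)).trans ?_
    have ha : 0 ≤ G q.1 * ∏ j, gw 1 N (q.1 j) :=
      mul_nonneg (hG _) (prod_nonneg fun j _ => gw_nn hcz hs j)
    have hb : 0 ≤ bVb b N q.2 := bVb_nn hb0 hcz hv
    have hp1 := Real.one_le_rpow (prod_cast_ge_one hs) hδ0
    have hp2 := Real.one_le_rpow (prod_cast_ge_one hv) hδ0
    calc C * D ^ k * SX * (G q.1 * ∏ j, gw 1 N (q.1 j)) *
          (∏ j, b ^ (q.2 j).primeFactors.card * (gw 1 N (q.2 j) / q.2 j)) *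
          (∏ j : J, 1 / (((fun _ => 1 : J → ℕ) j : ℕ) : ℝ)) / (Real.log y) ^ N
        = W * ((G q.1 * ∏ j, gw 1 N (q.1 j)) * bVb b N q.2) := by
          rw [hW]; unfold bVb; simp only [Nat.cast_one, div_one, prod_const_one]; ring
      _ ≤ W * (((G q.1 * ∏ j, gw 1 N (q.1 j)) * (∏ j, (q.1 j : ℝ)) ^ δ) *
            (bVb b N q.2 * (∏ j, (q.2 j : ℝ)) ^ δ)) :=
          mul_le_mul_of_nonneg_left (mul_le_mul (le_mul_of_one_le_right ha hp1)
            (le_mul_of_one_le_right hb hp2) hb (mul_nonneg ha (by linarith))) hW0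
      _ = _ := by ring
  refine (sum_le_sum hq).trans ?_
  rw [← mul_sum]
  have hfull : ∑ q ∈ A, ((G q.1 * (∏ j, gw 1 N (q.1 j)) * (∏ j, (q.1 j : ℝ)) ^ δ) *
        (bVb b N q.2 * (∏ j, (q.2 j : ℝ)) ^ δ)) ≤
      (∑ s ∈ Tup J z y, G s * (∏ j, gw 1 N (s j)) * (∏ j, (s j : ℝ)) ^ δ) *
      (∑ v ∈ Tup J z y, bVb b N v * (∏ j, (v j : ℝ)) ^ δ) := by
    rw [sum_mul_sum, ← sum_product']
    refine sum_le_sum_of_subset_of_nonneg (filter_subset _ _) (fun q hq _ => ?_)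
    rw [mem_product] at hq
    obtain ⟨hs, hv⟩ := hq
    have hp1 := prod_cast_ge_one hs
    have hp2 := prod_cast_ge_one hv
    refine mul_nonneg ?_ ?_
    · exact mul_nonneg (mul_nonneg (hG _) (prod_nonneg fun j _ => gw_nn hcz hs j)) (by positivity)
    · exact mul_nonneg (bVb_nn hb0 hcz hv) (by positivity)
  have hs0 : 0 ≤ ∑ s ∈ Tup J z y, G s * (∏ j, gw 1 N (s j)) * (∏ j, (s j : ℝ)) ^ δ :=
    sum_nonneg fun s hs => by
      have hp1 := prod_cast_ge_one hs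
      exact mul_nonneg (mul_nonneg (hG _) (prod_nonneg fun j _ => gw_nn hcz hs j)) (by positivity)
  have hv0 : 0 ≤ ∑ v ∈ Tup J z y, bVb b N v * (∏ j, (v j : ℝ)) ^ δ :=
    sum_nonneg fun v hv => by
      have hp1 := prod_cast_ge_one hv
      exact mul_nonneg (bVb_nn hb0 hcz hv) (by positivity)
  have hbd : (∑ s ∈ Tup J z y, G s * (∏ j, gw 1 N (s j)) * (∏ j, (s j : ℝ)) ^ δ) *
      (∑ v ∈ Tup J z y, bVb b N v * (∏ j, (v j : ℝ)) ^ δ) ≤ (A1 * (Real.log y) ^ N) * A2 :=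
    mul_le_mul (h1) (h2 y hzy) hv0 (hs0.trans (h1))
  refine (mul_le_mul_of_nonneg_left (hfull.trans hbd) hW0).trans (le_of_eq ?_)
  have hL : (Real.log y) ^ N ≠ 0 := by positivity
  rw [hW]; field_simp


end levels

end Pool.Agent.H514.AK
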