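import Mathlib
import Pool.Graph.R_seed8.W45.RT.ANT
import Pool.Graph.R_seed8.W405.RK2.RS
import Pool.Graph.R_seed8.W591.RK2.RVRU
import Pool.Graph.R_seed8.W358.RK2.GR

/-!
# The abstract summation of Nair and Tenenbaum, uniform in the set
-/

set_option autoImplicit false

namespace Pool.Agent.H514

open Finset Pool.Agent.W262.RK Pool.Agent.W307.RT Pool.Agent.W45.RT

theorem antu_of (hrs : RS) (hrv : RV) (hru : RU) (hgr : GR) (J : Type) [Fintype J] [DecidableEq J]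
    (z : ℕ) (G : (J → ℕ) → ℝ) (C C' D : ℝ) (K y0 : ℕ)
    (hz : 2 * Fintype.card J + 2 ≤ z) (hG : ∀ s, 0 ≤ G s) (hC : 0 ≤ C) (hD : 1 ≤ D) (hK : 1 ≤ K)
    (hsub : ∀ y, z < y → ∀ s e : J → ℕ, (fun j => s j * e j) ∈ Tup J z y →
      G (fun j => s j * e j) ≤ 4 ^ (∑ j, (e j).primeFactors.card) * G s)
    (havg : ∀ y, z < y → ∑ s ∈ Tup J z y, G s * ∏ j, gw 1 (Fintype.card J) (s j) ≤
      C' * (Real.log y) ^ (Fintype.card J)) :
    ∃ (X0 : ℕ) (B : ℝ), 0 ≤ B ∧ ∀ (Ω : Type) (T : ℕ → Finset Ω) (f : Ω → J → ℤ) (S : ℕ → ℝ)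
      (R : Ω → ℝ), (∀ X Y, X ≤ Y → T X ⊆ T Y) → (∀ X, 1 ≤ X → 1 ≤ S X) →
      (∀ X, ∀ ω ∈ T X, Gd z (f ω)) → (∀ ω, 0 ≤ R ω) →
      (∀ X y Y k : ℕ, y0 ≤ y → z < y → y ^ K ≤ X → X < (y + 1) ^ k → ∀ s ∈ Tup J z y,
        ∀ v ∈ Tup J z y, ∀ u ∈ Tup J y Y, (∏ j, s j * v j * u j) ^ 8 ≤ X →
        ∀ T' : Finset Ω, T' ⊆ T X → (∀ ω ∈ T', S1 z y (f ω) = s ∧ S2 z y (f ω) = v ∧
          ∀ j, (u j : ℤ) ∣ f ω j) →
        ∑ ω ∈ T', R ω ≤
          C * D ^ k * S X * (G s * ∏ j, gw 1 (Fintype.card J) (s j)) *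
            (∏ j, 4 ^ (v j).primeFactors.card * (gw 1 (Fintype.card J) (v j) / v j)) *
            (∏ j, 1 / (u j : ℝ)) / (Real.log y) ^ (Fintype.card J)) →
      ∀ X : ℕ, 1 ≤ X → ∑ ω ∈ T X, R ω ≤ (∑ ω ∈ T X0, R ω + B) * S X := by
  classical
  have hlogD : 0 ≤ Real.log D := Real.log_nonneg hD
  set lam : ℝ := 16 * (Real.log D + 1) with hlam
  have hlam0 : 0 ≤ lam := by rw [hlam]; linarith
  obtain ⟨A1, hA1⟩ := hrs J z G C' lam hz hlam0 hG hsub havg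
  obtain ⟨A2', hA2'⟩ := hrv J z lam hz hlam0
  obtain ⟨A3', hA3'⟩ := hru J lam hlam0
  set A2 := max A2' 0 with hA2d
  set A3 := max A3' 0 with hA3d
  have hA2 : ∀ y, z < y → ∑ v ∈ Tup J z y, bV (Fintype.card J) v *
      (∏ j, (v j : ℝ)) ^ (lam / Real.log y) ≤ A2 := fun y hy =>
    (hA2' y hy).trans (le_max_left _ _)
  have hA3 : ∀ y Y : ℕ, 3 ≤ y → Y ≤ (y + 1) ^ 2 → ∑ u ∈ Tup J y Y, (∏ j, 1 / (u j : ℝ)) *
      (∏ j, (u j : ℝ)) ^ (lam / Real.log y) ≤ A3 := fun y Y h1 h2 =>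
    (hA3' y Y h1 h2).trans (le_max_left _ _)
  have hA20 : 0 ≤ A2 := le_max_right _ _
  have hA30 : 0 ≤ A3 := le_max_right _ _
  -- the constant `A1` is nonnegative
  have hcz : Fintype.card J ≤ z := by omega
  have hA10 : 0 ≤ A1 := by
    have h1 := hA1 (z + 2) (by omega)
    have h2 : 0 ≤ ∑ s ∈ Tup J z (z + 2), G s * (∏ j, gw 1 (Fintype.card J) (s j)) *
        (∏ j, (s j : ℝ)) ^ (lam / Real.log ((z + 2 : ℕ) : ℝ)) := sum_nonneg fun s hs => by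
      have hp1 := prod_cast_ge_one hs
      exact mul_nonneg (mul_nonneg (hG _) (prod_nonneg fun j _ => gw_nn hcz hs j)) (by positivity)
    have h3 : 0 < (Real.log ((z + 2 : ℕ) : ℝ)) ^ (Fintype.card J) := by
      apply pow_pos
      apply Real.log_pos
      exact_mod_cast (by omega : 1 < z + 2)
    exact nonneg_of_mul_nonneg_left (h2.trans h1) h3
  set K0 : ℕ := K + 16 with hK0
  have hK01 : 1 ≤ K0 := by omega
  set Ys : ℕ := y0 + z + 3 with hYs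
  set M : ℕ := PP z (Ys ^ 2) with hM
  set X0 : ℕ := Ys ^ K0 + M ^ 8 with hX0
  set B0 : ℝ := C * D ^ K0 * A1 * A2 with hB0
  set B1 : ℝ := C * A1 * A2 * A3 with hB1
  have hB00 : 0 ≤ B0 := by positivity
  have hB10 : 0 ≤ B1 := by positivity
  refine ⟨X0, B0 + B1 * 2, by positivity, fun Ω T f S R hTT hS1 hB hR hH => ?_⟩
  set R0 : ℝ := ∑ t ∈ T X0, R t with hR0
  have hR00 : 0 ≤ R0 := sum_nonneg fun t _ => hR t
  intro X hX
  have hXr : (1 : ℝ) ≤ S X := hS1 X hX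
  rcases Nat.lt_or_ge X X0 with hXX | hXX
  · have h1 : ∑ t ∈ T X, R t ≤ R0 :=
      sum_le_sum_of_subset_of_nonneg (hTT X X0 hXX.le) (fun t _ _ => hR t)
    nlinarith
  -- the last level
  have hex : ∃ i, yy K0 X (i + 1) < Ys := by
    refine ⟨X, ?_⟩
    by_contra hcon
    have h1 : 2 ≤ yy K0 X (X + 1) := by omega
    have h2 := (yy_pow hK01 hX (X + 1)).2
    have h3 : 2 ^ X ≤ (yy K0 X (X + 1)) ^ (K0 * 2 ^ (X + 1)) := by
      refine (Nat.pow_le_pow_left h1 X).trans (Nat.pow_le_pow_right (by omega) ?_)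
      have h4 : X < 2 ^ X := Nat.lt_two_pow_self
      have h5 : 2 ^ (X + 1) = 2 * 2 ^ X := by rw [pow_succ, mul_comm]
      nlinarith
    have h4 : X < 2 ^ X := Nat.lt_two_pow_self
    exact absurd (h3.trans h2) (not_le.2 h4)
  set I := Nat.find hex with hI
  have hI1 : yy K0 X (I + 1) < Ys := Nat.find_spec hex
  have hIge : ∀ i, i ≤ I → Ys ≤ yy K0 X i := by
    intro i hi
    rcases Nat.eq_zero_or_pos i with h | h
    · subst h
      apply le_yy hK01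
      rw [pow_zero, mul_one]
      exact le_trans (Nat.le_add_right _ _) hXX
    · have h2 := Nat.find_min hex (m := i - 1) (by omega)
      rw [show i - 1 + 1 = i by omega] at h2
      omega
  -- the level sets
  set T0 := (T X).filter (fun t : Ω => (∏ j, rp z (yy K0 X 0) (f t j)) ^ 8 ≤ X) with hT0
  set Ti : ℕ → Finset Ω := fun i => (T X).filter (fun t : Ω =>
      (∏ j, rp z (yy K0 X (i + 1)) (f t j)) ^ 8 ≤ X ∧
      X < (∏ j, rp z (yy K0 X i) (f t j)) ^ 8) with hTi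
  have hlast : ∀ t ∈ T X, (∏ j, rp z (yy K0 X I) (f t j)) ^ 8 ≤ X := by
    intro t ht
    have h1 : ∏ j, rp z (yy K0 X I) (f t j) ∣ PP z (yy K0 X I) :=
      Tup_prod_dvd (rpG_mem (hB X t ht) le_rfl)
    have h2 : yy K0 X I ≤ Ys ^ 2 :=
      (yy_sq hK01 hX I).le.trans (Nat.pow_le_pow_left (by omega) 2)
    have h3 : PP z (yy K0 X I) ∣ M := by
      apply prod_dvd_prod_of_subset
      intro p hp
      rw [mem_PS] at hp ⊢
      exact ⟨⟨hp.1.1, hp.1.2.trans h2⟩, hp.2⟩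
    have h4 : ∏ j, rp z (yy K0 X I) (f t j) ≤ M :=
      Nat.le_of_dvd (Nat.pos_of_ne_zero (PP_ne_zero _ _)) (h1.trans h3)
    have h5 := Nat.pow_le_pow_left h4 8
    exact h5.trans (le_trans (Nat.le_add_left _ _) hXX)
  have hcov : T X ⊆ T0 ∪ (range I).biUnion Ti := by
    intro t ht
    have hex2 : ∃ i, (∏ j, rp z (yy K0 X i) (f t j)) ^ 8 ≤ X := ⟨I, hlast t ht⟩
    have hle : Nat.find hex2 ≤ I := Nat.find_min' hex2 (hlast t ht)
    rw [mem_union]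
    rcases Nat.eq_zero_or_pos (Nat.find hex2) with h | h
    · left
      rw [hT0, mem_filter]
      refine ⟨ht, ?_⟩
      have := Nat.find_spec hex2
      rwa [h] at this
    · right
      rw [mem_biUnion]
      refine ⟨Nat.find hex2 - 1, mem_range.2 (by omega), ?_⟩
      rw [hTi, mem_filter, show Nat.find hex2 - 1 + 1 = Nat.find hex2 by omega]
      refine ⟨ht, Nat.find_spec hex2, ?_⟩
      have := Nat.find_min hex2 (m := Nat.find hex2 - 1) (by omega)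
      omega
  have hSX0 : 0 ≤ S X := by linarith
  have hT0b : ∑ t ∈ T0, R t ≤ B0 * S X := by
    have hz0 := hIge 0 (Nat.zero_le _)
    have hp := yy_pow hK01 hX 0
    have hl := yy_lt (X := X) hK01 0
    rw [pow_zero, mul_one] at hp hl
    exact lev0 hSX0 hz (hB X) hG hR hC hD hA20 hlam0 hA1 hA2
      (hH X (yy K0 X 0) (yy K0 X 0) K0 (by omega) (by omega)
        (le_trans (Nat.pow_le_pow_right hp.1 (by omega)) hp.2) hl)
      (by omega) (by omega)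
  have hTb : ∀ i ∈ range I, ∑ t ∈ Ti i, R t ≤ B1 * S X * (1 / 2) ^ i := by
    intro i hi
    rw [mem_range] at hi
    have hz0 := hIge (i + 1) (by omega)
    have hp := yy_pow hK01 hX (i + 1)
    have hp' := yy_pow hK01 hX i
    have hl := yy_lt (X := X) hK01 (i + 1)
    have hk1 : K0 ≤ K0 * 2 ^ (i + 1) := Nat.le_mul_of_pos_right _ (by positivity)
    have hk2 : K0 ≤ K0 * 2 ^ i := Nat.le_mul_of_pos_right _ (by positivity)
    have h1 := lev hSX0 hz (hB X) hG hR hC hD hA20 hA30 hgr hlam hA1 hA2 hA3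
      (hH X (yy K0 X (i + 1)) (yy K0 X i) (K0 * 2 ^ (i + 1)) (by omega) (by omega)
        (le_trans (Nat.pow_le_pow_right hp.1 (by omega)) hp.2) hl)
      (by omega) (by omega) hp.2
      (yy_anti hK01 hX i) (yy_sq hK01 hX i).le
      (le_trans (Nat.pow_le_pow_right hp'.1 (by omega)) hp'.2)
    refine h1.trans ?_
    refine mul_le_mul_of_nonneg_left ?_ (by positivity)
    have h2 : (i : ℝ) ≤ ((K0 * 2 ^ (i + 1) : ℕ) : ℝ) := by
      have h3 : i < 2 ^ i := Nat.lt_two_pow_self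
      have h4 : 2 ^ (i + 1) = 2 * 2 ^ i := by rw [pow_succ, mul_comm]
      exact_mod_cast (by nlinarith : i ≤ K0 * 2 ^ (i + 1))
    calc Real.exp (-((K0 * 2 ^ (i + 1) : ℕ) : ℝ)) ≤ Real.exp (-(i : ℝ)) :=
          Real.exp_le_exp.2 (by linarith)
      _ = (Real.exp (-1)) ^ i := by rw [← Real.exp_nat_mul]; congr 1; ring
      _ ≤ (1 / 2) ^ i := by
          apply pow_le_pow_left₀ (Real.exp_pos _).le
          rw [Real.exp_neg, ← one_div]
          apply one_div_le_one_div_of_le (by norm_num)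
          have := Real.exp_one_gt_d9
          linarith
  have hgeo : ∑ i ∈ range I, ((1 : ℝ) / 2) ^ i ≤ 2 := by
    rw [geom_sum_eq (by norm_num)]
    have h1 : (0 : ℝ) ≤ (1 / 2 : ℝ) ^ I := by positivity
    rw [div_le_iff_of_neg (by norm_num)]
    linarith
  calc ∑ t ∈ T X, R t
      ≤ ∑ t ∈ T0 ∪ (range I).biUnion Ti, R t :=
        sum_le_sum_of_subset_of_nonneg hcov (fun t _ _ => hR t)
    _ ≤ ∑ t ∈ T0, R t + ∑ t ∈ (range I).biUnion Ti, R t := by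
        rw [← sum_union_inter]
        exact le_add_of_nonneg_right (sum_nonneg fun t _ => hR t)
    _ ≤ ∑ t ∈ T0, R t + ∑ i ∈ range I, ∑ t ∈ Ti i, R t := by
        gcongr
        apply splitSum hR
        intro t ht
        rw [mem_biUnion] at ht
        exact ht
    _ ≤ B0 * S X + ∑ i ∈ range I, B1 * S X * (1 / 2) ^ i := add_le_add hT0b (sum_le_sum hTb)
    _ ≤ B0 * S X + B1 * S X * 2 := by
        rw [← mul_sum]
        gcongr
    _ ≤ (R0 + (B0 + B1 * 2)) * S X := by nlinarith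



/-- the uniform summation -/
theorem antu (J : Type) [Fintype J] [DecidableEq J]
    (z : ℕ) (G : (J → ℕ) → ℝ) (C C' D : ℝ) (K y0 : ℕ)
    (hz : 2 * Fintype.card J + 2 ≤ z) (hG : ∀ s, 0 ≤ G s) (hC : 0 ≤ C) (hD : 1 ≤ D) (hK : 1 ≤ K)
    (hsub : ∀ y, z < y → ∀ s e : J → ℕ, (fun j => s j * e j) ∈ Tup J z y →
      G (fun j => s j * e j) ≤ 4 ^ (∑ j, (e j).primeFactors.card) * G s)
    (havg : ∀ y, z < y → ∑ s ∈ Tup J z y, G s * ∏ j, gw 1 (Fintype.card J) (s j) ≤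
      C' * (Real.log y) ^ (Fintype.card J)) :
    ∃ (X0 : ℕ) (B : ℝ), 0 ≤ B ∧ ∀ (Ω : Type) (T : ℕ → Finset Ω) (f : Ω → J → ℤ) (S : ℕ → ℝ)
      (R : Ω → ℝ), (∀ X Y, X ≤ Y → T X ⊆ T Y) → (∀ X, 1 ≤ X → 1 ≤ S X) →
      (∀ X, ∀ ω ∈ T X, Gd z (f ω)) → (∀ ω, 0 ≤ R ω) →
      (∀ X y Y k : ℕ, y0 ≤ y → z < y → y ^ K ≤ X → X < (y + 1) ^ k → ∀ s ∈ Tup J z y,
        ∀ v ∈ Tup J z y, ∀ u ∈ Tup J y Y, (∏ j, s j * v j * u j) ^ 8 ≤ X →
        ∀ T' : Finset Ω, T' ⊆ T X → (∀ ω ∈ T', S1 z y (f ω) = s ∧ S2 z y (f ω) = v ∧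
          ∀ j, (u j : ℤ) ∣ f ω j) →
        ∑ ω ∈ T', R ω ≤
          C * D ^ k * S X * (G s * ∏ j, gw 1 (Fintype.card J) (s j)) *
            (∏ j, 4 ^ (v j).primeFactors.card * (gw 1 (Fintype.card J) (v j) / v j)) *
            (∏ j, 1 / (u j : ℝ)) / (Real.log y) ^ (Fintype.card J)) →
      ∀ X : ℕ, 1 ≤ X → ∑ ω ∈ T X, R ω ≤ (∑ ω ∈ T X0, R ω + B) * S X :=
  antu_of Pool.Agent.W405.RK2.rs Pool.Agent.W591.RK2.rv Pool.Agent.W591.RK2.ru
    Pool.Agent.W358.RK2.gr J z G C C' D K y0 hz hG hC hD hK hsub havg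

end Pool.Agent.H514
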