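import Mathlib
import Pool.Graph.R_seed8.W216.RT.AVH

/-!
# The average of a multiplicative function close to one, with prescribed symbols
-/

set_option autoImplicit false

namespace Pool.Agent.H514

open Finset Pool.Agent.W216.RT.AVH

/-- the symbols at the primes of `m` are given -/
def SgC (m : ℕ) (ε : ℕ → ℤ) (w : ℕ) : Prop := ∀ p ∈ m.primeFactors, jacobiSym (w : ℤ) p = ε p

instance (m : ℕ) (ε : ℕ → ℤ) : DecidablePred (SgC m ε) := fun w => by
  unfold SgC
  infer_instance

/-- half of the residues have a given symbol -/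
lemma card_symb {p : ℕ} (hp : p.Prime) (hp2 : p ≠ 2) {e : ℤ} (he : e = 1 ∨ e = -1) :
    2 * ((range p).filter (fun a : ℕ => jacobiSym (a : ℤ) p = e)).card ≤ p := by
  classical
  have : Fact p.Prime := ⟨hp⟩
  have hchar : ringChar (ZMod p) ≠ 2 := by
    rw [ZMod.ringChar_zmod_n]
    exact hp2
  have hsum := quadraticChar_sum_zero (F := ZMod p) hchar
  have h1 : ∑ a : ZMod p, (1 + e * quadraticChar (ZMod p) a) = (p : ℤ) := by
    rw [sum_add_distrib, ← mul_sum, hsum, mul_zero, add_zero]
    simp [ZMod.card]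
  have hnn : ∀ a : ZMod p, 0 ≤ 1 + e * quadraticChar (ZMod p) a := by
    intro a
    by_cases ha : a = 0
    · rw [ha]
      simp
    · rcases quadraticChar_dichotomy ha with h | h <;> rcases he with h' | h' <;> rw [h, h'] <;>
        norm_num
  have h2 : (2 * ((range p).filter (fun a : ℕ => jacobiSym (a : ℤ) p = e)).card : ℤ) ≤
      ∑ a : ZMod p, (1 + e * quadraticChar (ZMod p) a) := by
    have h3 : ∑ a ∈ ((range p).filter (fun a : ℕ => jacobiSym (a : ℤ) p = e)).image
        (fun a : ℕ => (a : ZMod p)), (1 + e * quadraticChar (ZMod p) a) ≤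
        ∑ a : ZMod p, (1 + e * quadraticChar (ZMod p) a) :=
      sum_le_sum_of_subset_of_nonneg (subset_univ _) (fun a _ _ => hnn a)
    refine le_trans (le_of_eq ?_) h3
    rw [sum_image]
    · have h4 : ∀ a ∈ (range p).filter (fun a : ℕ => jacobiSym (a : ℤ) p = e),
          1 + e * quadraticChar (ZMod p) (a : ZMod p) = 2 := by
        intro a ha
        have h5 := (mem_filter.1 ha).2
        rw [← jacobiSym.legendreSym.to_jacobiSym] at h5
        unfold legendreSym at h5
        rw [Int.cast_natCast] at h5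
        rw [h5]
        rcases he with h | h <;> rw [h] <;> norm_num
      rw [sum_congr rfl h4, sum_const, nsmul_eq_mul]
      ring
    · intro a ha b hb hab
      have ha' := mem_range.1 (mem_filter.1 ha).1
      have hb' := mem_range.1 (mem_filter.1 hb).1
      have h5 := (ZMod.natCast_eq_natCast_iff a b p).1 hab
      exact Nat.ModEq.eq_of_lt_of_lt h5 ha' hb'
  rw [h1] at h2
  exact_mod_cast h2

/-- the residues with given symbols -/
lemma card_res {m : ℕ} (hm : Squarefree m) (hodd : Odd m) {ε : ℕ → ℤ}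
    (hε : ∀ p, ε p = 1 ∨ ε p = -1) :
    2 ^ m.primeFactors.card * ((range m).filter (fun r : ℕ => ∀ p ∈ m.primeFactors,
      jacobiSym (r : ℤ) p = ε p)).card ≤ m := by
  classical
  have h1 : ((range m).filter (fun r : ℕ => ∀ p ∈ m.primeFactors,
      jacobiSym (r : ℤ) p = ε p)).card ≤
      ∏ p ∈ m.primeFactors, ((range p).filter (fun a : ℕ => jacobiSym (a : ℤ) p = ε p)).card := by
    rw [← Finset.card_pi]
    apply card_le_card_of_injOn (fun r : ℕ => (fun (p : ℕ) (_ : p ∈ m.primeFactors) => r % p))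
    · intro r hr
      have hr' := mem_filter.1 (mem_coe.1 hr)
      rw [mem_coe, mem_pi]
      intro p hp
      have hpp := Nat.prime_of_mem_primeFactors hp
      rw [mem_filter, mem_range]
      refine ⟨Nat.mod_lt _ hpp.pos, ?_⟩
      rw [← hr'.2 p hp]
      apply jacobiSym.mod_left'
      rw [Int.natCast_mod, Int.emod_emod_of_dvd _ (dvd_refl _)]
    · intro r hr r' hr' h
      have hr1 := mem_filter.1 (mem_coe.1 hr)
      have hr2 := mem_filter.1 (mem_coe.1 hr')
      have h2 : ∀ p ∈ m.primeFactors, r ≡ r' [MOD p] := fun p hp => congrFun (congrFun h p) hp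
      have h3 : (m : ℤ) ∣ (r' : ℤ) - r := by
        rw [← Nat.prod_primeFactors_of_squarefree hm, Nat.cast_prod]
        apply Finset.prod_dvd_of_coprime
        · intro p hp q hq hpq
          rw [Function.onFun, Nat.isCoprime_iff_coprime]
          exact (Nat.coprime_primes (Nat.prime_of_mem_primeFactors hp)
            (Nat.prime_of_mem_primeFactors hq)).2 hpq
        · intro p hp
          exact Nat.modEq_iff_dvd.1 (h2 p hp)
      exact Nat.ModEq.eq_of_lt_of_lt (Nat.modEq_iff_dvd.2 h3) (mem_range.1 hr1.1)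
        (mem_range.1 hr2.1)
  calc 2 ^ m.primeFactors.card * _ ≤ 2 ^ m.primeFactors.card *
        ∏ p ∈ m.primeFactors, ((range p).filter (fun a : ℕ => jacobiSym (a : ℤ) p = ε p)).card :=
        Nat.mul_le_mul_left _ h1
    _ = ∏ p ∈ m.primeFactors,
        (2 * ((range p).filter (fun a : ℕ => jacobiSym (a : ℤ) p = ε p)).card) := by
        rw [prod_mul_distrib, prod_const]
    _ ≤ ∏ p ∈ m.primeFactors, p := by
        apply prod_le_prod' 
        intro p hp
        have hpp := Nat.prime_of_mem_primeFactors hp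
        refine card_symb hpp ?_ (hε p)
        rintro rfl
        have h3 := Nat.dvd_of_mem_primeFactors hp
        exact (Nat.not_even_iff_odd.2 hodd) (even_iff_two_dvd.2 h3)
    _ = m := Nat.prod_primeFactors_of_squarefree hm

/-- the number of multiples of `e` with given symbols -/
lemma card_mult {m e X : ℕ} (hm : Squarefree m) (hodd : Odd m) (he : 1 ≤ e) {ε : ℕ → ℤ}
    (hε : ∀ p, ε p = 1 ∨ ε p = -1) (hX : e * m ≤ X) :
    (((Icc 1 X).filter (fun v : ℕ => e ∣ v ∧ ∀ p ∈ m.primeFactors,
      jacobiSym (v : ℤ) p = ε p)).card : ℝ) ≤ 2 * X / e * (1 / 2) ^ m.primeFactors.card := by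
  classical
  have hm0 : m ≠ 0 := hm.ne_zero
  have hmpos : 0 < m := Nat.pos_of_ne_zero hm0
  set A := (Icc 1 X).filter (fun v : ℕ => e ∣ v ∧ ∀ p ∈ m.primeFactors,
      jacobiSym (v : ℤ) p = ε p) with hA
  by_cases hc : e.Coprime m
  · have h1 : A.card ≤ (((range m).filter (fun r : ℕ => ∀ p ∈ m.primeFactors,
        jacobiSym (r : ℤ) p = ε p)) ×ˢ range (X / (e * m) + 1)).card := by
      apply card_le_card_of_injOn (fun v : ℕ => (v % m, v / (e * m)))
      · intro v hv
        have hv' := mem_filter.1 (mem_coe.1 hv)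
        rw [mem_coe, mem_product, mem_filter, mem_range, mem_range]
        refine ⟨⟨Nat.mod_lt _ hmpos, fun p hp => ?_⟩, ?_⟩
        · rw [← hv'.2.2 p hp]
          apply jacobiSym.mod_left'
          have hpm := Nat.dvd_of_mem_primeFactors hp
          rw [Int.natCast_mod, Int.emod_emod_of_dvd _ (Int.natCast_dvd_natCast.2 hpm)]
        · have := Nat.div_le_div_right (c := e * m) (mem_Icc.1 hv'.1).2
          simp only
          omega
      · intro v hv w hw h
        have hv' := mem_filter.1 (mem_coe.1 hv)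
        have hw' := mem_filter.1 (mem_coe.1 hw)
        have h2 : v % m = w % m := congrArg Prod.fst h
        have h3 : v / (e * m) = w / (e * m) := congrArg Prod.snd h
        have h4 : v ≡ w [MOD m] := h2
        have h5 : v ≡ w [MOD e] := by
          have a1 := (Nat.modEq_zero_iff_dvd.2 hv'.2.1)
          have a2 := (Nat.modEq_zero_iff_dvd.2 hw'.2.1)
          exact a1.trans a2.symm
        have h6 : v ≡ w [MOD e * m] := (Nat.modEq_and_modEq_iff_modEq_mul hc).1 ⟨h5, h4⟩
        rw [← Nat.div_add_mod v (e * m), ← Nat.div_add_mod w (e * m), h3, h6]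
    rw [card_product, card_range] at h1
    have h2 := card_res hm hodd hε
    set N := ((range m).filter (fun r : ℕ => ∀ p ∈ m.primeFactors,
        jacobiSym (r : ℤ) p = ε p)).card with hN
    have h3 : (A.card : ℝ) ≤ N * ((X / (e * m) : ℕ) + 1) := by exact_mod_cast h1
    have h4 : (2 : ℝ) ^ m.primeFactors.card * N ≤ m := by exact_mod_cast h2
    have hem : (0 : ℝ) < e * m := by
      have : 0 < e * m := Nat.mul_pos he hmpos
      exact_mod_cast this
    have h5 : ((X / (e * m) : ℕ) : ℝ) + 1 ≤ 2 * (X / (e * m)) := by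
      have a1 : ((X / (e * m) : ℕ) : ℝ) ≤ (X : ℝ) / ((e * m : ℕ) : ℝ) := Nat.cast_div_le
      push_cast at a1
      have a2 : (1 : ℝ) ≤ X / (e * m) := by
        rw [le_div_iff₀ hem, one_mul]
        exact_mod_cast hX
      linarith
    have h6 : (N : ℝ) ≤ m * (1 / 2) ^ m.primeFactors.card := by
      rw [one_div, inv_pow, ← div_eq_mul_inv, le_div_iff₀ (by positivity), mul_comm]
      exact h4
    have he0 : (0 : ℝ) < e := by exact_mod_cast he
    have hm0' : (0 : ℝ) < m := by exact_mod_cast hmpos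
    calc (A.card : ℝ) ≤ N * ((X / (e * m) : ℕ) + 1) := h3
      _ ≤ (m * (1 / 2) ^ m.primeFactors.card) * (2 * (X / (e * m))) := by
          apply mul_le_mul h6 h5 (by positivity) (by positivity)
      _ = _ := by
          field_simp
  · have hA0 : A = ∅ := by
      rw [hA, filter_eq_empty_iff]
      intro v _ hv
      obtain ⟨p, hp, h1, h2⟩ := Nat.Prime.not_coprime_iff_dvd.1 hc
      have h3 := hv.2 p (Nat.mem_primeFactors.2 ⟨hp, h2, hm0⟩)
      have h4 : p ∣ v := h1.trans hv.1
      have : NeZero p := ⟨hp.ne_zero⟩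
      have h5 : jacobiSym (v : ℤ) p = 0 := by
        rw [jacobiSym.eq_zero_iff_not_coprime, Int.gcd_natCast_natCast]
        intro h
        have h6 := Nat.dvd_gcd h4 (dvd_refl p)
        rw [h] at h6
        exact hp.one_lt.ne' (Nat.dvd_one.1 h6)
      rw [h5] at h3
      rcases hε p with h | h <;> rw [h] at h3 <;> norm_num at h3
    rw [hA0, card_empty, Nat.cast_zero]
    positivity

/-- the same with a weaker bound that holds always -/
lemma card_mult' {m e X : ℕ} (hm : Squarefree m) (hodd : Odd m) (he : 1 ≤ e) {ε : ℕ → ℤ}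
    (hε : ∀ p, ε p = 1 ∨ ε p = -1) (hX : m ^ 4 ≤ X) :
    (((Icc 1 X).filter (fun v : ℕ => e ∣ v ∧ ∀ p ∈ m.primeFactors,
      jacobiSym (v : ℤ) p = ε p)).card : ℝ) ≤
      2 * X * (1 / 2) ^ m.primeFactors.card * (1 / Real.sqrt e) := by
  have he0 : (0 : ℝ) < e := by exact_mod_cast he
  have hs0 : 0 < Real.sqrt e := Real.sqrt_pos.2 he0
  have hs1 : 1 ≤ Real.sqrt e := by
    rw [Real.one_le_sqrt]
    exact_mod_cast he
  have hss : Real.sqrt e * Real.sqrt e = e := Real.mul_self_sqrt he0.le
  have hmpos : 0 < m := Nat.pos_of_ne_zero hm.ne_zero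
  have hm0 : (0 : ℝ) < m := by exact_mod_cast hmpos
  have hXpos : 0 < X := lt_of_lt_of_le (by positivity) hX
  have hX0 : (0 : ℝ) < X := by exact_mod_cast hXpos
  rcases Nat.lt_or_ge X (e * m) with h | h
  · have h1 : (((Icc 1 X).filter (fun v : ℕ => e ∣ v ∧ ∀ p ∈ m.primeFactors,
        jacobiSym (v : ℤ) p = ε p)).card : ℝ) ≤ (X : ℝ) / e := by
      refine le_trans ?_ (card_le X e)
      norm_cast
      apply card_le_card
      intro v hv
      rw [mem_filter] at hv ⊢
      exact ⟨hv.1, hv.2.1⟩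
    refine h1.trans ?_
    have h2 : (2 : ℝ) ^ m.primeFactors.card ≤ m := by
      have : 2 ^ m.primeFactors.card ≤ m := by
        calc 2 ^ m.primeFactors.card = ∏ p ∈ m.primeFactors, 2 := by rw [prod_const]
          _ ≤ ∏ p ∈ m.primeFactors, p := prod_le_prod' fun p hp =>
              (Nat.prime_of_mem_primeFactors hp).two_le
          _ = m := Nat.prod_primeFactors_of_squarefree hm
      exact_mod_cast this
    have h3 : (m : ℝ) ≤ Real.sqrt e := by
      rw [Real.le_sqrt (by positivity) he0.le]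
      have a1 : m ^ 4 < e * m := lt_of_le_of_lt hX h
      have a2 : m ^ 3 < e := by
        have : m ^ 3 * m < e * m := by rw [← pow_succ]; exact a1
        exact Nat.lt_of_mul_lt_mul_right this
      have a3 : m ^ 2 ≤ m ^ 3 := Nat.pow_le_pow_right hmpos (by norm_num)
      have a4 : m ^ 2 ≤ e := by omega
      exact_mod_cast a4
    have h4 : (1 : ℝ) / Real.sqrt e ≤ (1 / 2) ^ m.primeFactors.card := by
      rw [one_div_pow]
      exact one_div_le_one_div_of_le (by positivity) (h2.trans h3)
    calc (X : ℝ) / e = X * (1 / Real.sqrt e) * (1 / Real.sqrt e) := by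
          have h7 : (1 / Real.sqrt e) * (1 / Real.sqrt e) = 1 / (e : ℝ) := by
            rw [one_div_mul_one_div, hss]
          rw [mul_assoc, h7, mul_one_div]
      _ ≤ X * (1 / 2) ^ m.primeFactors.card * (1 / Real.sqrt e) := by
          apply mul_le_mul_of_nonneg_right _ (by positivity)
          exact mul_le_mul_of_nonneg_left h4 hX0.le
      _ ≤ _ := by
          have : 0 ≤ X * (1 / 2 : ℝ) ^ m.primeFactors.card * (1 / Real.sqrt e) := by positivity
          linarith
  · refine (card_mult hm hodd he hε h).trans ?_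
    have h1 : (1 : ℝ) / e ≤ 1 / Real.sqrt e := by
      apply one_div_le_one_div_of_le hs0
      nlinarith
    calc 2 * (X : ℝ) / e * (1 / 2) ^ m.primeFactors.card =
          2 * X * (1 / 2) ^ m.primeFactors.card * (1 / e) := by ring
      _ ≤ _ := mul_le_mul_of_nonneg_left h1 (by positivity)

theorem avhs (c z : ℕ) (hz : 2 * c + 2 ≤ z) : ∃ C : ℝ, 0 ≤ C ∧ ∀ (X m : ℕ) (ε : ℕ → ℤ),
    Squarefree m → Odd m → m ^ 4 ≤ X → (∀ p, ε p = 1 ∨ ε p = -1) →
    ∑ v ∈ (Icc 1 X).filter (SgC m ε),
      ∏ p ∈ v.primeFactors.filter (fun p => z < p), (p : ℝ) / ((p : ℝ) - c) ≤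
      C * X * (1 / 2) ^ m.primeFactors.card := by
  have hsq : Summable (fun n : ℕ => 1 / (n : ℝ) ^ (3 / 2 : ℝ)) :=
    Real.summable_one_div_nat_rpow.2 (by norm_num)
  set S2 : ℝ := ∑' n : ℕ, 1 / (n : ℝ) ^ (3 / 2 : ℝ) with hS2
  refine ⟨2 * Real.exp (2 * c * S2), by positivity, ?_⟩
  intro X m ε hm hodd hX hε
  set Pr : Finset ℕ := (Icc 1 X).filter (fun p => p.Prime ∧ z < p) with hPr
  set g : ℕ → ℝ := fun p => (c : ℝ) / ((p : ℝ) - c) with hg
  have hpc : ∀ p ∈ Pr, (p : ℝ) / 2 ≤ (p : ℝ) - c ∧ 0 < (p : ℝ) := by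
    intro p hp
    rw [hPr, mem_filter] at hp
    have h1 : 2 * c + 2 < p := lt_of_le_of_lt hz hp.2.2
    have h2 : 2 * (c : ℝ) + 2 < p := by exact_mod_cast h1
    have h3 : (0 : ℝ) ≤ c := Nat.cast_nonneg c
    exact ⟨by linarith, by linarith⟩
  have hg0 : ∀ p ∈ Pr, 0 ≤ g p := by
    intro p hp
    have := hpc p hp
    exact div_nonneg (Nat.cast_nonneg c) (by linarith)
  -- expansion
  have hexp : ∀ v ∈ (Icc 1 X).filter (SgC m ε), ∏ p ∈ v.primeFactors.filter (fun p => z < p),
      (p : ℝ) / ((p : ℝ) - c) = ∑ T ∈ Pr.powerset,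
        if T ⊆ v.primeFactors.filter (fun p => z < p) then ∏ p ∈ T, g p else 0 := by
    intro v hv
    have hv := (mem_filter.1 hv).1
    rw [mem_Icc] at hv
    have hsub : v.primeFactors.filter (fun p => z < p) ⊆ Pr := by
      intro p hp
      rw [mem_filter, Nat.mem_primeFactors] at hp
      rw [hPr, mem_filter, mem_Icc]
      have := Nat.le_of_dvd (by omega) hp.1.2.1
      exact ⟨⟨hp.1.1.one_le, by omega⟩, hp.1.1, hp.2⟩
    have h1 : ∏ p ∈ v.primeFactors.filter (fun p => z < p), (p : ℝ) / ((p : ℝ) - c)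
        = ∏ p ∈ v.primeFactors.filter (fun p => z < p), (1 + g p) := by
      apply prod_congr rfl
      intro p hp
      have h2 := hpc p (hsub hp)
      have h3 : (p : ℝ) - c ≠ 0 := by
        have := h2.1
        have := h2.2
        linarith
      simp only [hg]
      field_simp
      ring
    rw [h1, prod_one_add, ← sum_filter]
    apply sum_congr _ (fun _ _ => rfl)
    ext T
    simp only [mem_powerset, mem_filter]
    exact ⟨fun h => ⟨h.trans hsub, h⟩, fun h => h.2⟩
  rw [sum_congr rfl hexp, sum_comm]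
  -- each subset
  have hT : ∀ T ∈ Pr.powerset, (∑ v ∈ (Icc 1 X).filter (SgC m ε),
      if T ⊆ v.primeFactors.filter (fun p => z < p) then ∏ p ∈ T, g p else 0)
      ≤ 2 * X * (1 / 2) ^ m.primeFactors.card * ∏ p ∈ T, (g p / Real.sqrt p) := by
    intro T hT
    rw [mem_powerset] at hT
    rw [← sum_filter, sum_const, nsmul_eq_mul, filter_filter]
    have hG0 : 0 ≤ ∏ p ∈ T, g p := prod_nonneg fun p hp => hg0 p (hT hp)
    have hne : ∏ p ∈ T, p ≠ 0 := by
      apply prod_ne_zero_iff.2
      intro p hp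
      have := (mem_filter.1 (hT hp)).2.1
      exact this.ne_zero
    have hcard : (((Icc 1 X).filter (fun v : ℕ => SgC m ε v ∧
        T ⊆ v.primeFactors.filter (fun p => z < p))).card : ℝ)
        ≤ 2 * X * (1 / 2) ^ m.primeFactors.card * (1 / Real.sqrt ((∏ p ∈ T, p : ℕ) : ℝ)) := by
      refine le_trans ?_ (card_mult' hm hodd (Nat.pos_of_ne_zero hne) hε hX)
      norm_cast
      apply card_le_card
      intro v hv
      rw [mem_filter] at hv ⊢
      refine ⟨hv.1, ?_, hv.2.1⟩
      apply prod_primes_dvd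
      · intro p hp
        exact ((mem_filter.1 (hT hp)).2.1).prime
      · intro p hp
        have := hv.2.2 hp
        rw [mem_filter, Nat.mem_primeFactors] at this
        exact this.1.2.1
    have hsqrt : Real.sqrt ((∏ p ∈ T, p : ℕ) : ℝ) = ∏ p ∈ T, Real.sqrt p := by
      push_cast
      exact Real.sqrt_prod T (fun i _ => Nat.cast_nonneg i)
    rw [hsqrt] at hcard
    calc _ ≤ (2 * X * (1 / 2) ^ m.primeFactors.card * (1 / ∏ p ∈ T, Real.sqrt p)) *
          ∏ p ∈ T, g p := mul_le_mul_of_nonneg_right hcard hG0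
      _ = 2 * X * (1 / 2) ^ m.primeFactors.card * ∏ p ∈ T, (g p / Real.sqrt p) := by
          have e : ∏ p ∈ T, (g p / Real.sqrt p) = (∏ p ∈ T, g p) / ∏ p ∈ T, Real.sqrt p :=
            prod_div_distrib g (fun p : ℕ => Real.sqrt p)
          rw [e]
          ring
  refine (sum_le_sum hT).trans ?_
  rw [← mul_sum]
  rw [show 2 * Real.exp (2 * c * S2) * X * (1 / 2) ^ m.primeFactors.card =
    2 * X * (1 / 2) ^ m.primeFactors.card * Real.exp (2 * c * S2) by ring]
  apply mul_le_mul_of_nonneg_left _ (by positivity)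
  rw [← prod_one_add]
  have hfac : ∀ p ∈ Pr, 1 + g p / Real.sqrt p ≤
      Real.exp (2 * c * (1 / (p : ℝ) ^ (3 / 2 : ℝ))) := by
    intro p hp
    have h2 := hpc p hp
    have h3 : g p / Real.sqrt p ≤ 2 * c * (1 / (p : ℝ) ^ (3 / 2 : ℝ)) := by
      simp only [hg]
      have h4 : (c : ℝ) / ((p : ℝ) - c) ≤ c / ((p : ℝ) / 2) := by
        apply div_le_div_of_nonneg_left (Nat.cast_nonneg c) (by linarith [h2.2]) h2.1
      have h5 : (p : ℝ) ^ (3 / 2 : ℝ) = p * Real.sqrt p := by
        rw [Real.sqrt_eq_rpow, show (3 / 2 : ℝ) = 1 + 1 / 2 by norm_num,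
          Real.rpow_add h2.2, Real.rpow_one]
      have h6 : 0 < Real.sqrt p := Real.sqrt_pos.2 h2.2
      calc (c : ℝ) / ((p : ℝ) - c) / Real.sqrt p ≤ c / ((p : ℝ) / 2) / Real.sqrt p :=
            div_le_div_of_nonneg_right h4 h6.le
        _ = 2 * c * (1 / (p : ℝ) ^ (3 / 2 : ℝ)) := by
            rw [h5]
            have := h2.2.ne'
            field_simp
    have h4 := Real.add_one_le_exp (2 * c * (1 / (p : ℝ) ^ (3 / 2 : ℝ)))
    linarith
  calc ∏ p ∈ Pr, (1 + g p / Real.sqrt p) ≤
      ∏ p ∈ Pr, Real.exp (2 * c * (1 / (p : ℝ) ^ (3 / 2 : ℝ))) := by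
        apply prod_le_prod
        · intro p hp
          have := hg0 p hp
          have := (hpc p hp).2
          positivity
        · exact hfac
    _ = Real.exp (∑ p ∈ Pr, 2 * c * (1 / (p : ℝ) ^ (3 / 2 : ℝ))) := (Real.exp_sum _ _).symm
    _ ≤ Real.exp (2 * c * S2) := by
        apply Real.exp_le_exp.2
        rw [← mul_sum]
        apply mul_le_mul_of_nonneg_left _ (by positivity)
        exact hsq.sum_le_tsum Pr (fun n _ => by positivity)

end Pool.Agent.H514
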