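import Mathlib
import Pool.Graph.R_seed8.W29.RT.CNT2
import Pool.Graph.R_seed8.W340.RT.SVR2
import Pool.Graph.R_seed8.W262.RK.NT1
import Pool.Agent.H514.AvhS

/-!
# Coprime pairs with given small prime factors of the forms and given symbols
Adapted from `Pool.Agent.W29.RT.CNT2`.
-/

set_option autoImplicit false
set_option linter.unusedSectionVars false

namespace Pool.Agent.H514

open Finset Pool.Agent.W262.RK Pool.Agent.W307.RT
open Pool.Agent.W29.RT
open Pool.Agent.W372.RK2 (sq_pow_dvd mj mj_primes prod_gw)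

variable {J : Type} [Fintype J] [DecidableEq J]

theorem cnt2s (α β : J → ℤ) (z : ℕ) (hB : Bg α β z) :
    ∃ (C : ℝ) (K y0 : ℕ), 0 ≤ C ∧ 1 ≤ K ∧ ∀ X y Y : ℕ, y0 ≤ y → z < y → y ^ K ≤ X →
    ∀ s ∈ Tup J z y, ∀ v ∈ Tup J z y, ∀ u ∈ Tup J y Y, (∏ j, s j * v j * u j) ^ 8 ≤ X →
    ∀ ε : ℕ → ℤ, (∀ p, ε p = 1 ∨ ε p = -1) →
    (((Icc 1 X ×ˢ Icc 1 X).filter (fun t : ℕ × ℕ => t.1.Coprime t.2 ∧
      S1 z y (fv α β (t.1 : ℤ) (t.2 : ℤ)) = s ∧ S2 z y (fv α β (t.1 : ℤ) (t.2 : ℤ)) = v ∧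
      (∀ j, (u j : ℤ) ∣ fv α β (t.1 : ℤ) (t.2 : ℤ) j) ∧
      SgC (∏ j, s j) ε t.2)).card : ℝ) ≤
      C * X ^ 2 * (1 / 2) ^ (∏ j, s j).primeFactors.card *
        (∏ j, gw 1 (Fintype.card J) (s j)) *
        (∏ j, gw 1 (Fintype.card J) (v j) / v j) * (∏ j, 1 / (u j : ℝ)) /
        (Real.log y) ^ (Fintype.card J) := by
  obtain ⟨C, K, y0, hC, hK, hSV⟩ := Pool.Agent.W340.RT.SVR2.svr2 J z hB.1
  obtain ⟨CA, hCA, hav⟩ := avhs (Fintype.card J) z hB.1
  refine ⟨C * CA, K, y0, mul_nonneg hC hCA, hK, ?_⟩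
  intro X y Y hy0 hzy hX s hs v hv u hu hsvu ε hε
  have hs' := (Pool.Agent.W372.RK2.mem_Tup'.1 hs).1
  have hv' := (Pool.Agent.W372.RK2.mem_Tup'.1 hv).1
  have hu' := (Pool.Agent.W372.RK2.mem_Tup'.1 hu).1
  have hz : 2 ≤ z := by have := hB.1; omega
  have hc : Fintype.card J ≤ z := by have := hB.1; omega
  have hlog : 0 ≤ (Real.log y) ^ (Fintype.card J) := pow_nonneg (Real.log_natCast_nonneg y) _
  have hgs : ∀ j, 0 ≤ gw 1 (Fintype.card J) (s j) := fun j => gw_nonneg zero_le_one hc (hs' j)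
  have hgv : ∀ j, 0 ≤ gw 1 (Fintype.card J) (v j) := fun j => gw_nonneg zero_le_one hc (hv' j)
  set T := (Icc 1 X ×ˢ Icc 1 X).filter (fun t : ℕ × ℕ => t.1.Coprime t.2 ∧
      S1 z y (fv α β (t.1 : ℤ) (t.2 : ℤ)) = s ∧ S2 z y (fv α β (t.1 : ℤ) (t.2 : ℤ)) = v ∧
      (∀ j, (u j : ℤ) ∣ fv α β (t.1 : ℤ) (t.2 : ℤ) j) ∧
      SgC (∏ j, s j) ε t.2) with hT
  have hun : ∀ t w : ℕ, t.Coprime w → ∀ p : ℕ, p.Prime → z < p → ∀ j l,
      (p : ℤ) ∣ fv α β (t : ℤ) (w : ℤ) j → (p : ℤ) ∣ fv α β (t : ℤ) (w : ℤ) l → j = l := by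
    intro t w htw p hp hzp j l hj hl
    by_contra hne
    have hw := un_of hB htw hp hzp hj
    have h1 : Res α β j l * (w : ℤ) =
        α j * fv α β (t : ℤ) (w : ℤ) l - α l * fv α β (t : ℤ) (w : ℤ) j := by
      unfold Res fv
      ring
    have h3 : (p : ℤ) ∣ Res α β j l * (w : ℤ) := by
      rw [h1]
      exact dvd_sub (hl.mul_left _) (hj.mul_left _)
    have hpI : Prime (p : ℤ) := Nat.prime_iff_prime_int.1 hp
    rcases hpI.dvd_or_dvd h3 with h | h
    · exact (hB.2 p hp hzp).2 j l hne h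
    · exact hw (Int.natCast_dvd_natCast.1 h)
  have hgood : ∀ t ∈ T, G2 z y s v u (fv α β (t.1 : ℤ) (t.2 : ℤ)) := by
    intro t ht
    rw [hT, mem_filter] at ht
    exact ⟨ht.2.2.1, ht.2.2.2.1, ht.2.2.2.2.1, hun t.1 t.2 ht.2.1⟩
  rcases T.eq_empty_or_nonempty with hTe | ⟨t0, ht0⟩
  · rw [hTe, card_empty, Nat.cast_zero]
    apply div_nonneg _ hlog
    have h1 : 0 ≤ ∏ j, gw 1 (Fintype.card J) (s j) := prod_nonneg fun j _ => hgs j
    have h2 : 0 ≤ ∏ j, gw 1 (Fintype.card J) (v j) / v j :=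
      prod_nonneg fun j _ => div_nonneg (hgv j) (Nat.cast_nonneg _)
    have h3 : 0 ≤ ∏ j, 1 / (u j : ℝ) := prod_nonneg fun j _ => by positivity
    positivity
  set m := ∏ j, mj c0 s v u j with hm
  have hmj1 : ∀ j, 1 ≤ mj c0 s v u j := by
    intro j
    rw [mj_eq]
    have h1 := dv_pos (hs' j)
    have h2 := dv_pos (hv' j)
    have h3 := dv_pos (hu' j)
    exact Nat.succ_le_of_lt (by positivity)
  have hm1 : 1 ≤ m := Nat.succ_le_of_lt (prod_pos fun j _ => hmj1 j)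
  have hm4 : m ^ 4 ≤ X := by
    refine le_trans ?_ hsvu
    have h1 : m ≤ (∏ j, s j * v j * u j) ^ 2 := by
      rw [← prod_pow]
      apply prod_le_prod'
      intro j _
      rw [mj_eq]
      have h1 := dv_pos (hs' j)
      have h3 := dv_pos (hu' j)
      calc s j * v j ^ 2 * u j ≤ (s j * s j) * v j ^ 2 * (u j * u j) := by
            apply Nat.mul_le_mul
            · apply Nat.mul_le_mul_right
              nlinarith
            · nlinarith
        _ = (s j * v j * u j) ^ 2 := by ring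
    calc m ^ 4 ≤ ((∏ j, s j * v j * u j) ^ 2) ^ 4 := Nat.pow_le_pow_left h1 4
      _ = (∏ j, s j * v j * u j) ^ 8 := by rw [← pow_mul]
  have hsq := hgood t0 ht0
  -- factors
  set g : ℕ → ℝ := fun p => (p : ℝ) / ((p : ℝ) - Fintype.card J) with hg
  have hg1 : ∀ p, z < p → 1 ≤ g p := by
    intro p hp
    have h1 : ((Fintype.card J : ℕ) : ℝ) < p := by exact_mod_cast lt_of_le_of_lt hc hp
    rw [hg]
    simp only
    rw [le_div_iff₀ (by linarith)]
    have : (0 : ℝ) ≤ ((Fintype.card J : ℕ) : ℝ) := Nat.cast_nonneg _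
    linarith
  set Gm : ℝ := ∏ p ∈ m.primeFactors.filter (fun p => p ∈ PS z y), g p with hGm
  have hGm0 : 0 ≤ Gm := prod_nonneg fun p hp =>
    zero_le_one.trans (hg1 p (mem_PS.1 (mem_filter.1 hp).2).1.1)
  have hmul : ∀ w : ℕ, w ≠ 0 → ∏ p ∈ (m * w).primeFactors.filter (fun p => p ∈ PS z y), g p ≤
      Gm * ∏ p ∈ w.primeFactors.filter (fun p => z < p), g p := by
    intro w hw
    have e1 : (m * w).primeFactors.filter (fun p => p ∈ PS z y) =
        m.primeFactors.filter (fun p => p ∈ PS z y) ∪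
          (w.primeFactors.filter (fun p => p ∈ PS z y) \
            m.primeFactors.filter (fun p => p ∈ PS z y)) := by
      rw [union_sdiff_self_eq_union, Nat.primeFactors_mul (by omega) hw, filter_union]
    rw [e1, prod_union disjoint_sdiff]
    apply mul_le_mul_of_nonneg_left _ hGm0
    have e2 : (w.primeFactors.filter (fun p => p ∈ PS z y) \
        m.primeFactors.filter (fun p => p ∈ PS z y)) ⊆
        w.primeFactors.filter (fun p => z < p) := by
      intro p hp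
      rw [mem_sdiff, mem_filter] at hp
      rw [mem_filter]
      exact ⟨hp.1.1, (mem_PS.1 hp.1.2).1.1⟩
    rw [← prod_sdiff e2]
    apply le_mul_of_one_le_left
    · exact prod_nonneg fun p hp => zero_le_one.trans (hg1 p (mem_filter.1 (e2 hp)).2)
    · have h1 : ∀ p ∈ w.primeFactors.filter (fun p => z < p) \
          (w.primeFactors.filter (fun p => p ∈ PS z y) \
            m.primeFactors.filter (fun p => p ∈ PS z y)), (1 : ℝ) ≤ g p := by
        intro p hp
        exact hg1 p (mem_filter.1 (mem_sdiff.1 hp).1).2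
      calc (1 : ℝ) = ∏ p ∈ w.primeFactors.filter (fun p => z < p) \
          (w.primeFactors.filter (fun p => p ∈ PS z y) \
            m.primeFactors.filter (fun p => p ∈ PS z y)), (1 : ℝ) := by simp
        _ ≤ _ := prod_le_prod (fun _ _ => zero_le_one) h1
  -- bound for a fixed second variable
  have hfib : ∀ w ∈ Icc 1 X, ((T.filter (fun t : ℕ × ℕ => t.2 = w)).card : ℝ) ≤
      C * (X / m) * (Gm * ∏ p ∈ w.primeFactors.filter (fun p => z < p), g p) /
        (Real.log y) ^ (Fintype.card J) := by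
    intro w hw
    rw [mem_Icc] at hw
    have hw0 : w ≠ 0 := by omega
    have hcond : ∀ p ∈ PS z y, ¬ p ∣ m * w → (∀ j, ¬ (p : ℤ) ∣ α j) ∧
        ∀ j l, j ≠ l → ¬ (p : ℤ) ∣ Res α (fun j => β j * (w : ℤ)) j l := by
      intro p hp hpm
      have hpp := (mem_PS.1 hp).2
      have hzp := (mem_PS.1 hp).1.1
      refine ⟨(hB.2 p hpp hzp).1, fun j l hjl hd => ?_⟩
      have h1 : Res α (fun j => β j * (w : ℤ)) j l = Res α β j l * (w : ℤ) := by
        unfold Res
        ring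
      rw [h1] at hd
      have hpI : Prime (p : ℤ) := Nat.prime_iff_prime_int.1 hpp
      rcases hpI.dvd_or_dvd hd with h | h
      · exact (hB.2 p hpp hzp).2 j l hjl h
      · exact hpm ((Int.natCast_dvd_natCast.1 h).mul_left _)
    have hbd : ∀ r : ℕ, (((Icc 1 X).filter (fun t : ℕ => t ≡ r [MOD m] ∧
        ∀ p ∈ PS z y, ¬ p ∣ m * w →
        ∀ j, ¬ (p : ℤ) ∣ ff α (fun j => β j * (w : ℤ)) t j)).card : ℝ) ≤
        C * (X / m) * (Gm * ∏ p ∈ w.primeFactors.filter (fun p => z < p), g p) /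
          (Real.log y) ^ (Fintype.card J) := by
      intro r
      refine (hSV X y hy0 hzy hX α (fun j => β j * (w : ℤ)) m (m * w) r hm1
        (dvd_mul_right _ _) (mul_ne_zero (by omega) hw0) hm4 hcond).trans ?_
      apply div_le_div_of_nonneg_right _ hlog
      apply mul_le_mul_of_nonneg_left (hmul w hw0)
      positivity
    rcases (T.filter (fun t : ℕ × ℕ => t.2 = w)).eq_empty_or_nonempty with he | ⟨r, hr⟩
    · rw [he, card_empty, Nat.cast_zero]
      exact le_trans (Nat.cast_nonneg _) (hbd 0)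
    · refine le_trans ?_ (hbd r.1)
      rw [Nat.cast_le]
      apply card_le_card_of_injOn (fun t : ℕ × ℕ => t.1)
      · intro t ht
        have ht' : t ∈ T.filter (fun t : ℕ × ℕ => t.2 = w) := ht
        rw [mem_filter] at ht' hr
        have g1 := hgood t ht'.1
        have g2 := hgood r hr.1
        have htX : t.1 ∈ Icc 1 X := (mem_product.1 (mem_filter.1 ht'.1).1).1
        simp only [coe_filter, Set.mem_ofPred_eq]
        rw [ht'.2] at g1
        rw [hr.2] at g2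
        refine ⟨htX, ?_, ?_⟩
        · have h1 := cong (α := α) (fun p hp hz => (hB.2 p hp hz).1) hzy hs hv hu g1 g2
            (t := (t.1 : ℤ)) (t' := (r.1 : ℤ)) (fun j => by unfold fv; ring)
          rw [← hm] at h1
          exact ((Nat.modEq_iff_dvd.2 h1)).symm
        · intro p hpP hpm j hpf
          have hp := (mem_PS.1 hpP).2
          apply hpm
          apply Dvd.dvd.mul_right
          rw [hm]
          refine Dvd.dvd.trans ?_ (dvd_prod_of_mem _ (mem_univ j))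
          rw [mj_eq]
          have hff : ff α (fun j => β j * (w : ℤ)) (t.1 : ℤ) j = fv α β (t.1 : ℤ) (w : ℤ) j := by
            unfold ff fv
            ring
          rw [hff] at hpf
          by_cases h2 : (p : ℤ) ^ 2 ∣ fv α β (t.1 : ℤ) (w : ℤ) j
          · have h3 : p ∣ v j := by
              rw [← g1.hv]
              exact (dvd_S2 hp).2 ⟨hpP, h2⟩
            exact (((h3.pow two_ne_zero).mul_left _).mul_right _)
          · have h3 : p ∣ s j := by
              rw [← g1.hs]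
              exact (dvd_S1 hp).2 ⟨hpP, hpf, h2⟩
            exact ((h3.mul_right _).mul_right _)
      · intro a ha b hb hab
        have ha' : a ∈ T.filter (fun t : ℕ × ℕ => t.2 = w) := ha
        have hb' : b ∈ T.filter (fun t : ℕ × ℕ => t.2 = w) := hb
        rw [mem_filter] at ha' hb'
        exact Prod.ext hab (ha'.2.trans hb'.2.symm)
  have hcard : (T.card : ℝ) ≤ ∑ w ∈ (Icc 1 X).filter (SgC (∏ j, s j) ε),
      C * (X / m) * (Gm * ∏ p ∈ w.primeFactors.filter (fun p => z < p), g p) /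
        (Real.log y) ^ (Fintype.card J) := by
    rw [card_eq_sum_card_fiberwise (f := fun t : ℕ × ℕ => t.2) (t := (Icc 1 X).filter (SgC (∏ j, s j) ε))
      (fun t ht => by
        have ht' := mem_filter.1 (mem_coe.1 ht)
        exact mem_coe.2 (mem_filter.2 ⟨(mem_product.1 ht'.1).2, ht'.2.2.2.2.2⟩))]
    rw [Nat.cast_sum]
    exact sum_le_sum fun w hw => hfib w (mem_filter.1 hw).1
  have hsPP : ∏ j, s j ∣ PP z y := Tup_prod_dvd hs
  have hssq : Squarefree (∏ j, s j) := (PP_squarefree z y).squarefree_of_dvd hsPP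
  have hsodd : Odd (∏ j, s j) :=
    dv_odd hz (Nat.mem_divisors.2 ⟨hsPP, PP_ne_zero z y⟩)
  have hs4 : (∏ j, s j) ^ 4 ≤ X := by
    refine le_trans ?_ hsvu
    have h1 : ∏ j, s j ≤ ∏ j, s j * v j * u j := by
      apply prod_le_prod'
      intro j _
      have h2 := dv_pos (hv' j)
      have h3 := dv_pos (hu' j)
      calc s j = s j * 1 * 1 := by ring
        _ ≤ s j * v j * u j := Nat.mul_le_mul (Nat.mul_le_mul_left _ h2) h3
    have h4 : 1 ≤ ∏ j, s j := Nat.succ_le_of_lt (prod_pos fun j _ => dv_pos (hs' j))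
    calc (∏ j, s j) ^ 4 ≤ (∏ j, s j) ^ 8 := Nat.pow_le_pow_right h4 (by norm_num)
      _ ≤ _ := Nat.pow_le_pow_left h1 8
  have hsum : ∑ w ∈ (Icc 1 X).filter (SgC (∏ j, s j) ε),
      C * (X / m) * (Gm * ∏ p ∈ w.primeFactors.filter (fun p => z < p), g p) /
        (Real.log y) ^ (Fintype.card J) ≤
      C * (X / m) * (Gm * (CA * X * (1 / 2) ^ (∏ j, s j).primeFactors.card)) /
        (Real.log y) ^ (Fintype.card J) := by
    rw [← sum_div, ← mul_sum, ← mul_sum]
    apply div_le_div_of_nonneg_right _ hlog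
    apply mul_le_mul_of_nonneg_left _ (by positivity)
    exact mul_le_mul_of_nonneg_left (hav X (∏ j, s j) ε hssq hsodd hs4 hε) hGm0
  refine hcard.trans (hsum.trans ?_)
  have hGmeq : Gm = ∏ j, ((s j * gw 1 (Fintype.card J) (s j)) *
      (v j * gw 1 (Fintype.card J) (v j))) := prod_pr hs hv hu hsq
  have hterm : ∀ j, ((s j *
      gw 1 (Fintype.card J) (s j)) * (v j * gw 1 (Fintype.card J) (v j))) /
      ((mj c0 s v u j : ℕ) : ℝ) = gw 1 (Fintype.card J) (s j) *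
      (gw 1 (Fintype.card J) (v j) / v j) * (1 / (u j : ℝ)) := by
    intro j
    have h1 : (s j : ℝ) ≠ 0 := Nat.cast_ne_zero.2 (dv_ne_zero (hs' j))
    have h2 : (v j : ℝ) ≠ 0 := Nat.cast_ne_zero.2 (dv_ne_zero (hv' j))
    have h3 : (u j : ℝ) ≠ 0 := Nat.cast_ne_zero.2 (dv_ne_zero (hu' j))
    rw [mj_eq]
    rw [Nat.cast_mul, Nat.cast_mul, Nat.cast_pow]
    field_simp
  have hprod : (∏ j, ((s j * gw 1 (Fintype.card J) (s j)) *
      (v j * gw 1 (Fintype.card J) (v j)))) /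
      (∏ j, ((mj c0 s v u j : ℕ) : ℝ)) = (∏ j, gw 1 (Fintype.card J) (s j)) *
        (∏ j, gw 1 (Fintype.card J) (v j) / v j) * (∏ j, 1 / (u j : ℝ)) := by
    rw [← prod_div_distrib, ← prod_mul_distrib, ← prod_mul_distrib]
    exact prod_congr rfl fun j _ => hterm j
  apply le_of_eq
  rw [show C * CA * X ^ 2 * (1 / 2) ^ (∏ j, s j).primeFactors.card *
        (∏ j, gw 1 (Fintype.card J) (s j)) *
        (∏ j, gw 1 (Fintype.card J) (v j) / v j) * (∏ j, 1 / (u j : ℝ)) =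
      C * CA * X ^ 2 * (1 / 2) ^ (∏ j, s j).primeFactors.card *
        ((∏ j, gw 1 (Fintype.card J) (s j)) *
        (∏ j, gw 1 (Fintype.card J) (v j) / v j) * (∏ j, 1 / (u j : ℝ))) by ring, ← hprod,
    hGmeq, hm, Nat.cast_prod]
  ring



/-- the same for an arbitrary set of such pairs -/
theorem cnt2s' (α β : J → ℤ) (z : ℕ) (hB : Bg α β z) :
    ∃ (C : ℝ) (K y0 : ℕ), 0 ≤ C ∧ 1 ≤ K ∧ ∀ X y Y : ℕ, y0 ≤ y → z < y → y ^ K ≤ X →
    ∀ s ∈ Tup J z y, ∀ v ∈ Tup J z y, ∀ u ∈ Tup J y Y, (∏ j, s j * v j * u j) ^ 8 ≤ X →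
    ∀ ε : ℕ → ℤ, (∀ p, ε p = 1 ∨ ε p = -1) → ∀ T : Finset (ℕ × ℕ),
    (∀ t ∈ T, t ∈ Icc 1 X ×ˢ Icc 1 X ∧ t.1.Coprime t.2 ∧
      S1 z y (fv α β (t.1 : ℤ) (t.2 : ℤ)) = s ∧ S2 z y (fv α β (t.1 : ℤ) (t.2 : ℤ)) = v ∧
      (∀ j, (u j : ℤ) ∣ fv α β (t.1 : ℤ) (t.2 : ℤ) j) ∧ SgC (∏ j, s j) ε t.2) →
    (T.card : ℝ) ≤
      C * X ^ 2 * (1 / 2) ^ (∏ j, s j).primeFactors.card *
        (∏ j, gw 1 (Fintype.card J) (s j)) *
        (∏ j, gw 1 (Fintype.card J) (v j) / v j) * (∏ j, 1 / (u j : ℝ)) /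
        (Real.log y) ^ (Fintype.card J) := by
  obtain ⟨C, K, y0, h1, h2, h3⟩ := cnt2s α β z hB
  refine ⟨C, K, y0, h1, h2, fun X y Y a1 a2 a3 s hs v hv u hu a4 ε hε T hT => ?_⟩
  refine le_trans (Nat.cast_le.2 (card_le_card fun t ht => ?_)) (h3 X y Y a1 a2 a3 s hs v hv u hu a4
    ε hε)
  rw [mem_filter]
  exact hT t ht

end Pool.Agent.H514
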