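import Pool.Agent.H514.Defs

/-!
# Second moment: the largest unlinked set
-/

set_option autoImplicit false

namespace Pool.Agent.H514

open Finset

/-- four bits `(a, S)` -/
abbrev V4 : Type := (Bool × Bool) × (Bool × Bool)

/-- the shift of the quadric -/
def sh (x : V4) : V4 :=
  ((x.2.1, xor x.2.2 x.2.1), (xor (xor x.1.1 x.1.2) (xor x.2.2 x.2.1), xor x.1.2 x.2.1))

/-- power of the shift -/
def shp (j : Fin 3) (x : V4) : V4 := if j = 0 then x else if j = 1 then sh x else sh (sh x)

/-- the polar form -/
def lnk (x x' : V4) : Bool := xor (orth x'.2 x.1) (orth x.2 x'.1)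

lemma shp_inj : ∀ (j : Fin 3) (x x' : V4), shp j x = shp j x' → x = x' := by decide

lemma shp_sing : ∀ (j : Fin 3) (x : V4), orth x.2 x.1 = false → x ≠ ((false, false), (false, false)) →
    orth (shp j x).2 (shp j x).1 = false ∧ shp j x ≠ ((false, false), (false, false)) := by decide

lemma shp_lnk' : ∀ (j j' : Fin 3) (x x' : V4), (j = j' ∨ orth x.2 x.1 = true ∨
    x = ((false, false), (false, false)) ∨ shp j x ≠ shp j' x' ∨ lnk x x' = true) := by decide

lemma shp_lnk (j j' : Fin 3) (x x' : V4) (h1 : j ≠ j') (h2 : orth x.2 x.1 = false)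
    (h3 : x ≠ ((false, false), (false, false))) (h4 : shp j x = shp j' x') : lnk x x' = true := by
  rcases shp_lnk' j j' x x' with h | h | h | h | h
  · exact absurd h h1
  · rw [h2] at h
    exact absurd h (by simp)
  · exact absurd h h3
  · exact absurd h4 h
  · exact h

/-- the code of an index -/
def cd (i : I2) : Fin 3 ⊕ V4 :=
  if i.1.2 = ((false, false), (false, false)) then Sum.inl i.1.1 else Sum.inr (shp i.1.1 i.1.2)

theorem comb2 : COMB2 := by
  intro U hU
  set T : Finset (Fin 3 ⊕ V4) := (univ : Finset (Fin 3)).disjSum (univ.filter (fun x : V4 =>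
    orth x.2 x.1 = false ∧ x ≠ ((false, false), (false, false)))) with hT
  have hTc : T.card = 12 := by
    rw [hT]
    decide
  rw [← hTc]
  refine Finset.card_le_card_of_injOn cd (fun i hi => ?_) (fun i hi i' hi' h => ?_)
  · rw [hT, mem_coe]
    unfold cd
    by_cases h : i.1.2 = ((false, false), (false, false))
    · rw [if_pos h, inl_mem_disjSum]
      exact mem_univ _
    · rw [if_neg h, inr_mem_disjSum, mem_filter]
      exact ⟨mem_univ _, shp_sing i.1.1 i.1.2 i.2 h⟩
  · have hs := hU i hi i' hi'
    unfold cd at h
    by_cases h1 : i.1.2 = ((false, false), (false, false))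
    · by_cases h2 : i'.1.2 = ((false, false), (false, false))
      · rw [if_pos h1, if_pos h2] at h
        apply Subtype.ext
        exact Prod.ext (Sum.inl.inj h) (h1.trans h2.symm)
      · rw [if_pos h1, if_neg h2] at h
        exact absurd h (by simp)
    · by_cases h2 : i'.1.2 = ((false, false), (false, false))
      · rw [if_neg h1, if_pos h2] at h
        exact absurd h (by simp)
      · rw [if_neg h1, if_neg h2] at h
        have h3 := Sum.inr.inj h
        by_cases hj : i.1.1 = i'.1.1
        · rw [hj] at h3
          apply Subtype.ext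
          exact Prod.ext hj (shp_inj _ _ _ h3)
        · exfalso
          have h4 := shp_lnk _ _ _ _ hj i.2 h1 h3
          unfold L2 at hs
          rw [decide_eq_true (show i.1.1 ≠ i'.1.1 from hj),
            decide_eq_true (show i'.1.1 ≠ i.1.1 from fun h => hj h.symm), Bool.true_and,
            Bool.true_and] at hs
          unfold lnk at h4
          rw [hs] at h4
          revert h4
          generalize orth i.1.2.2 i'.1.2.1 = b
          cases b <;> simp

end Pool.Agent.H514
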