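import Pool.Agent.H514.Exp2
import Pool.Agent.H514.Comb2
import Pool.Graph.R_seed8.W262.RK.MA4

/-!
# Second moment: the main average
-/

set_option autoImplicit false

namespace Pool.Agent.H514

open Finset Pool.Agent.W262.RK Pool.Agent.W307.RT

/-- the average of `NB2` is bounded by `(log y) ^ 3` -/
theorem ma2 (c : ℕ) : ∃ z0 : ℕ, ∀ z, z0 ≤ z → ∃ C : ℝ, ∀ y, z < y →
      ∑ s ∈ Tup (Fin 3) z y, NB2 s * ∏ j, gw 1 c (s j) ≤
        C * (Real.log y) ^ (Fintype.card (Fin 3)) := by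
  obtain ⟨z0, hz0⟩ := at_thm I2 (fun _ => 1 / 4) L2 (fun _ => 1) c ((3 : ℕ) : ℝ)
    (fun _ => by norm_num) (fun i => by simp [L2]) (fun _ => one_ne_zero)
    (fun U hU => by
      have h := comb2 U hU
      rw [sum_const, nsmul_eq_mul]
      have h' : (U.card : ℝ) ≤ 12 := by exact_mod_cast h
      push_cast
      linarith)
  refine ⟨max z0 2, fun z hz => ?_⟩
  obtain ⟨C, hC⟩ := hz0 z (le_trans (le_max_left _ _) hz)
  refine ⟨C, fun y hy => ?_⟩
  have hz2 : 2 ≤ z := le_trans (le_max_right _ _) hz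
  rw [exp2 c z y hz2]
  refine (le_trans (le_abs_self _) (hC y hy)).trans (le_of_eq ?_)
  rw [Real.rpow_natCast]
  rfl

end Pool.Agent.H514
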