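import Pool.Agent.H514.RankG
import Pool.Agent.H514.CntS
import Pool.Agent.H514.AntU
import Pool.Agent.H514.MA2
import Pool.Graph.R_seed8.W230.RT.Avg2

/-!
# The second moment in a twisted family, uniform in the twist
-/

set_option autoImplicit false

namespace Pool.Agent.H514

open Finset Pool.Agent.W262.RK Pool.Agent.W307.RT

/-- the index of the partner -/
def pj (j : Fin 3) : Fin 3 := if j = 0 then 1 else 0

/-- the sign of the partner -/
def sj (j : Fin 3) : ℤ := if j = 2 then 1 else -1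

lemma kA_eq (j : Fin 3) (g : ℤ) (f : Fin 3 → ℤ) :
    kA j (g * f 0) (g * f 1) = sj j * g * f (pj j) := by
  unfold kA sj pj
  by_cases c0 : j = 0
  · rw [if_pos c0, if_pos c0, if_neg (by rw [c0]; decide)]
    ring
  · rw [if_neg c0, if_neg c0]
    by_cases c1 : j = 1
    · rw [if_pos c1, if_neg (by rw [c1]; decide)]
      ring
    · rw [if_neg c1, if_pos (fin_2' j c0 c1)]
      ring

lemma pj_ne : ∀ j : Fin 3, j ≠ pj j := by decide

/-- the constant of the class -/
def kc3 (α β : Fin 3 → ℤ) (g : ℤ) (j : Fin 3) : ℤ := sj j * g * (α j * Res α β j (pj j))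

/-- the symbol of the partner -/
lemma jac_kA {α β : Fin 3 → ℤ} {z : ℕ} (hB : Bg α β z) {p : ℕ} (hp : p.Prime) (hz : z < p)
    {u v : ℤ} {g : ℤ} {j : Fin 3} (hj : (p : ℤ) ∣ fv α β u v j) :
    jacobiSym (kA j (g * fv α β u v 0) (g * fv α β u v 1)) p =
      jacobiSym (kc3 α β g j) p * jacobiSym v p := by
  have hα := (hB.2 p hp hz).1 j
  have h1 : α j * fv α β u v (pj j) ≡ Res α β j (pj j) * v [ZMOD p] := by
    rw [Int.modEq_iff_dvd]
    have : Res α β j (pj j) * v - α j * fv α β u v (pj j) = -(α (pj j)) * fv α β u v j := by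
      unfold Res fv
      ring
    rw [this]
    exact hj.mul_left _
  have h2 : jacobiSym (α j * α j) p = 1 := by
    rw [← pow_two]
    exact Pool.Agent.W571.RT.jac_sq hp hα
  rw [kA_eq]
  have h3 : jacobiSym (sj j * g * fv α β u v (pj j)) p =
      jacobiSym ((α j * α j) * (sj j * g * fv α β u v (pj j))) p := by
    rw [jacobiSym.mul_left (α j * α j), h2, one_mul]
  rw [h3, ← jacobiSym.mul_left]
  apply jacobiSym.mod_left'
  have h4 := (h1.mul_left (sj j * g * α j))
  have e1 : α j * α j * (sj j * g * fv α β u v (pj j)) =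
      sj j * g * α j * (α j * fv α β u v (pj j)) := by ring
  have e2 : kc3 α β g j * v = sj j * g * α j * (Res α β j (pj j) * v) := by
    unfold kc3
    ring
  rw [e1, e2]
  exact h4

lemma pm_aux {a b : ℤ} (ha : a = 1 ∨ a = -1) (hb : b = 1 ∨ b = -1) : a * b = -1 ↔ b = -a := by
  rcases ha with rfl | rfl <;> rcases hb with rfl | rfl <;> norm_num

lemma pm_aux2 {a b : ℤ} (ha : a = 1 ∨ a = -1) (hb : b = 1 ∨ b = -1) (h : b ≠ -a) : b = a := by
  rcases ha with rfl | rfl <;> rcases hb with rfl | rfl <;> simp_all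

open Classical in
/-- the reference sign -/
noncomputable def eta (α β : Fin 3 → ℤ) (g : ℤ) (s : Fin 3 → ℕ) (p : ℕ) : ℤ :=
  if ∃ j, p ∣ s j ∧ jacobiSym (kc3 α β g j) p = -1 then -1 else 1

lemma eta_pm (α β : Fin 3 → ℤ) (g : ℤ) (s : Fin 3 → ℕ) (p : ℕ) :
    eta α β g s p = 1 ∨ eta α β g s p = -1 := by
  unfold eta
  split_ifs
  · exact Or.inr rfl
  · exact Or.inl rfl

/-- the set of the signs -/
noncomputable def Et (α β : Fin 3 → ℤ) (g : ℤ) (s : Fin 3 → ℕ) (v : ℤ) : Finset ℕ :=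
  (∏ j, s j).primeFactors.filter (fun p => jacobiSym v p = -eta α β g s p)

open Classical in
/-- the prescribed symbols -/
noncomputable def epE (α β : Fin 3 → ℤ) (g : ℤ) (s : Fin 3 → ℕ) (E : Finset ℕ) (p : ℕ) : ℤ :=
  if p ∈ E then -eta α β g s p else eta α β g s p

lemma epE_pm (α β : Fin 3 → ℤ) (g : ℤ) (s : Fin 3 → ℕ) (E : Finset ℕ) (p : ℕ) :
    epE α β g s E p = 1 ∨ epE α β g s E p = -1 := by
  unfold epE
  rcases eta_pm α β g s p with h | h <;> rw [h] <;> split_ifs <;> simp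

/-- uniform average over a family twisted by `g` -/
theorem avg_g (α β : Fin 3 → ℤ) (hα : ∀ j, α j ≠ 0) (hR : ∀ j l, j ≠ l → Res α β j l ≠ 0)
    (hid : ∀ u v, fv α β u v 0 - fv α β u v 1 = fv α β u v 2) :
    ∃ C : ℝ, 0 ≤ C ∧ ∀ g : ℕ, 1 ≤ g → ∀ X : ℕ, 1 ≤ X →
      ∑ t ∈ (Icc 1 X ×ˢ Icc 1 X).filter (fun t : ℕ × ℕ =>
        t.1.Coprime t.2 ∧ ∀ j, fv α β (t.1 : ℤ) (t.2 : ℤ) j ≠ 0),
        (4 : ℝ) ^ Module.finrank ℤ (EAB ((g : ℤ) * fv α β (t.1 : ℤ) (t.2 : ℤ) 0)
          ((g : ℤ) * fv α β (t.1 : ℤ) (t.2 : ℤ) 1)).toAffine.Point ≤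
        C * 4096 ^ g.primeFactors.card * (X : ℝ) ^ 2 := by
  classical
  obtain ⟨z0, hz0⟩ := ma2 (Fintype.card (Fin 3))
  set z : ℕ := z0 + 8 + ∑ j, (α j).natAbs + ∑ j, ∑ l, (Res α β j l).natAbs with hz
  have hB : Bg α β z := by
    refine ⟨by rw [Fintype.card_fin]; omega, fun p hp hzp => ⟨fun j h => ?_, fun j l hjl h => ?_⟩⟩
    · have h1 := Nat.le_of_dvd (Int.natAbs_pos.2 (hα j)) (Int.natCast_dvd.1 h)
      have h2 := single_le_sum (f := fun j => (α j).natAbs) (fun _ _ => Nat.zero_le _) (mem_univ j)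
      omega
    · have h1 := Nat.le_of_dvd (Int.natAbs_pos.2 (hR j l hjl)) (Int.natCast_dvd.1 h)
      have h2 := single_le_sum (f := fun l => (Res α β j l).natAbs) (fun _ _ => Nat.zero_le _)
        (mem_univ l)
      have h3 := single_le_sum (f := fun j => ∑ l, (Res α β j l).natAbs) (fun _ _ => Nat.zero_le _)
        (mem_univ j)
      omega
  obtain ⟨C', hC'⟩ := hz0 z (by omega)
  obtain ⟨C, K, y0, hC0, hK1, hcn⟩ := cnt2s' α β z hB
  set y1 : ℕ := y0 + ∑ j, ((α j).natAbs + (β j).natAbs) + 1 with hy1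
  have hNB0 : ∀ s, 0 ≤ NB2 s := fun s => by
    unfold NB2
    exact mul_nonneg (by positivity) (sum_nonneg fun _ _ => by positivity)
  obtain ⟨X0, B, hB0, hant⟩ := antu (Fin 3) z NB2 (C * 16 ^ (z + 2)) C' (4 ^ 12) K y1
    hB.1 hNB0 (by positivity) (one_le_pow₀ (by norm_num)) hK1
    (fun y hy s e hse => subb2 z y s e hse) hC'
  -- the bound for small heights
  set X1 : ℕ := X0 + ∑ j, ((α j).natAbs + (β j).natAbs) + 1 with hX1
  set R0 : ℝ := (X0 : ℝ) ^ 2 * ((4 : ℝ) ^ (z + 2) * (4 ^ 6) ^ X1) ^ 2 with hR0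
  have hfb : ∀ (X : ℕ) (t : ℕ × ℕ), t.1 ≤ X → t.2 ≤ X →
      (∑ j, ((α j).natAbs + (β j).natAbs)) ≤ X → ∀ j,
      (fv α β (t.1 : ℤ) (t.2 : ℤ) j).natAbs ≤ X ^ 2 := by
    intro X t h5 h5' h6' j
    unfold fv
    have h3 := Int.natAbs_add_le (α j * (t.1 : ℤ)) (β j * (t.2 : ℤ))
    rw [Int.natAbs_mul, Int.natAbs_mul, Int.natAbs_natCast, Int.natAbs_natCast] at h3
    have h4 := single_le_sum (f := fun j => (α j).natAbs + (β j).natAbs)
      (fun _ _ => Nat.zero_le _) (mem_univ j)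
    have h6 : (α j).natAbs + (β j).natAbs ≤ X := by
      have h4' : (α j).natAbs + (β j).natAbs ≤ ∑ j, ((α j).natAbs + (β j).natAbs) := h4
      omega
    calc (α j * (t.1 : ℤ) + β j * (t.2 : ℤ)).natAbs
        ≤ (α j).natAbs * t.1 + (β j).natAbs * t.2 := h3
      _ ≤ (α j).natAbs * X + (β j).natAbs * X :=
          add_le_add (Nat.mul_le_mul_left _ h5) (Nat.mul_le_mul_left _ h5')
      _ = ((α j).natAbs + (β j).natAbs) * X := by ring
      _ ≤ X * X := Nat.mul_le_mul_right _ h6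
      _ = X ^ 2 := by ring
  refine ⟨R0 + B, by positivity, fun g hg X hX => ?_⟩
  have h4096 : (0 : ℝ) < 4096 ^ g.primeFactors.card := by positivity
  set T : ℕ → Finset (ℕ × ℕ) := fun X => (Icc 1 X ×ˢ Icc 1 X).filter (fun t : ℕ × ℕ =>
      t.1.Coprime t.2 ∧ ∀ j, fv α β (t.1 : ℤ) (t.2 : ℤ) j ≠ 0) with hT
  set R : ℕ × ℕ → ℝ := fun t => (4 : ℝ) ^ Module.finrank ℤ
    (EAB ((g : ℤ) * fv α β (t.1 : ℤ) (t.2 : ℤ) 0)
      ((g : ℤ) * fv α β (t.1 : ℤ) (t.2 : ℤ) 1)).toAffine.Point / 4096 ^ g.primeFactors.card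
    with hRdef
  have hGd : ∀ X, ∀ ω ∈ T X, Gd z (fv α β (ω.1 : ℤ) (ω.2 : ℤ)) := by
    intro X ω hω
    rw [hT, mem_filter] at hω
    exact Pool.Agent.W230.RT.gd_fv hB hω.2.1 hω.2.2
  have key := hant (ℕ × ℕ) T (fun t => fv α β (t.1 : ℤ) (t.2 : ℤ)) (fun X => (X : ℝ) ^ 2) R
    (fun X Y hXY => ?_) (fun X hX => ?_) hGd (fun t => by positivity) ?_ X hX
  · have hsmall : ∑ ω ∈ T X0, R ω ≤ R0 := by
      have hone : ∀ ω ∈ T X0, R ω ≤ ((4 : ℝ) ^ (z + 2) * (4 ^ 6) ^ X1) ^ 2 := by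
        intro ω hω
        have hω' := hω
        rw [hT, mem_filter, mem_product, mem_Icc, mem_Icc] at hω'
        have hr := rank_g (z := z) (y := 1) (X := X1) (K := X1) (g := g)
          (f := fv α β (ω.1 : ℤ) (ω.2 : ℤ)) (by omega) (hGd X0 ω hω) hg (by omega) le_rfl
          (hfb X1 ω (by omega) (by omega) (by omega)) Nat.lt_two_pow_self
          (hid _ _) ∅ (fun j p hp hpd _ => by
            exfalso
            have h1 := ((Pool.Agent.W571.RT.S1_dvd_iff hp).1 hpd).1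
            have h2 := (mem_PS.1 h1).1
            omega)
        have hPS : PS z 1 = ∅ := by
          rw [eq_empty_iff_forall_notMem]
          intro p hp
          have := (mem_PS.1 hp).1
          omega
        have hS1 : S1 z 1 (fv α β (ω.1 : ℤ) (ω.2 : ℤ)) = fun _ => 1 := by
          funext j
          unfold S1
          rw [hPS, filter_empty, prod_empty]
        have hS2 : S2 z 1 (fv α β (ω.1 : ℤ) (ω.2 : ℤ)) = fun _ => 1 := by
          funext j
          unfold S2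
          rw [hPS, filter_empty, prod_empty]
        rw [hS1, hS2] at hr
        have hNL : NL (∏ j : Fin 3, (fun _ => 1 : Fin 3 → ℕ) j) (LO2 (fun _ => 1) ∅) ≤ 1 := by
          unfold NL
          refine (card_filter_le _ _).trans ?_
          simp
        have hr2 : 2 ^ Module.finrank ℤ (EAB ((g : ℤ) * fv α β (ω.1 : ℤ) (ω.2 : ℤ) 0)
            ((g : ℤ) * fv α β (ω.1 : ℤ) (ω.2 : ℤ) 1)).toAffine.Point ≤
            4 ^ (z + 2) * (4 ^ 6) ^ X1 * 64 ^ g.primeFactors.card := by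
          refine hr.trans ?_
          have h9 : (∑ j : Fin 3, ((fun _ => 1 : Fin 3 → ℕ) j).primeFactors.card) = 0 := by
            simp
          rw [h9, pow_zero, mul_one]
          calc _ ≤ (4 ^ (z + 2) * (4 ^ 6) ^ X1 * 64 ^ g.primeFactors.card) * 1 :=
                Nat.mul_le_mul_left _ hNL
            _ = _ := mul_one _
        have hr3 : (2 : ℝ) ^ Module.finrank ℤ (EAB ((g : ℤ) * fv α β (ω.1 : ℤ) (ω.2 : ℤ) 0)
            ((g : ℤ) * fv α β (ω.1 : ℤ) (ω.2 : ℤ) 1)).toAffine.Point ≤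
            4 ^ (z + 2) * (4 ^ 6) ^ X1 * 64 ^ g.primeFactors.card := by
          exact_mod_cast hr2
        have hr4 := pow_le_pow_left₀ (by positivity) hr3 2
        rw [hRdef]
        simp only
        rw [div_le_iff₀ h4096]
        calc (4 : ℝ) ^ Module.finrank ℤ (EAB ((g : ℤ) * fv α β (ω.1 : ℤ) (ω.2 : ℤ) 0)
            ((g : ℤ) * fv α β (ω.1 : ℤ) (ω.2 : ℤ) 1)).toAffine.Point =
            (2 ^ Module.finrank ℤ (EAB ((g : ℤ) * fv α β (ω.1 : ℤ) (ω.2 : ℤ) 0)
            ((g : ℤ) * fv α β (ω.1 : ℤ) (ω.2 : ℤ) 1)).toAffine.Point) ^ 2 := by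
              rw [show (4 : ℝ) = 2 ^ 2 by norm_num, ← pow_mul, ← pow_mul, mul_comm 2]
          _ ≤ _ := hr4
          _ = _ := by
              have e3 : ((64 : ℝ) ^ g.primeFactors.card) ^ 2 = 4096 ^ g.primeFactors.card := by
                rw [← pow_mul, mul_comm, pow_mul]; norm_num
              rw [mul_pow, e3]
      refine (sum_le_sum hone).trans ?_
      rw [sum_const, nsmul_eq_mul, hR0]
      apply mul_le_mul_of_nonneg_right _ (by positivity)
      have hc : (T X0).card ≤ X0 ^ 2 := by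
        refine (card_filter_le _ _).trans ?_
        rw [card_product, Nat.card_Icc, Nat.add_sub_cancel, pow_two]
      exact_mod_cast hc
    have hk2 : ∑ ω ∈ T X, R ω ≤ (R0 + B) * (X : ℝ) ^ 2 := by
      refine key.trans ?_
      apply mul_le_mul_of_nonneg_right _ (by positivity)
      linarith
    have hk3 : ∑ t ∈ T X, (4 : ℝ) ^ Module.finrank ℤ
        (EAB ((g : ℤ) * fv α β (t.1 : ℤ) (t.2 : ℤ) 0)
          ((g : ℤ) * fv α β (t.1 : ℤ) (t.2 : ℤ) 1)).toAffine.Point =
        (∑ ω ∈ T X, R ω) * 4096 ^ g.primeFactors.card := by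
      rw [sum_mul]
      apply sum_congr rfl
      intro t _
      exact (div_mul_cancel₀ _ h4096.ne').symm
    rw [hk3]
    calc (∑ ω ∈ T X, R ω) * 4096 ^ g.primeFactors.card ≤
        ((R0 + B) * (X : ℝ) ^ 2) * 4096 ^ g.primeFactors.card :=
          mul_le_mul_of_nonneg_right hk2 h4096.le
      _ = _ := by ring
  · intro t ht
    rw [hT, mem_filter, mem_product, mem_Icc, mem_Icc] at ht
    rw [hT, mem_filter, mem_product, mem_Icc, mem_Icc]
    exact ⟨⟨⟨ht.1.1.1, ht.1.1.2.trans hXY⟩, ⟨ht.1.2.1, ht.1.2.2.trans hXY⟩⟩, ht.2⟩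
  · have : (1 : ℝ) ≤ X := by exact_mod_cast hX
    exact one_le_pow₀ this
  intro X y Y k hy0 hzy hyK hk s hs v hv u hu h8 T' hT' hT2
  have hy00 : y0 ≤ y := by omega
  have hyX : y ≤ X := le_trans (Nat.le_self_pow (by omega) y) hyK
  have hX1 : 1 ≤ X := by omega
  set P := (∏ j, s j).primeFactors with hP
  -- the sets of the signs
  have hEt : ∀ t ∈ T', Et α β g s (t.2 : ℤ) ∈ P.powerset := by
    intro t _
    rw [mem_powerset]
    exact filter_subset _ _
  -- each point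
  have h1 : ∀ t ∈ T', R t ≤ 16 ^ (z + 2) * (4 ^ 12) ^ k * 4 ^ (∑ j, (v j).primeFactors.card) *
      (NL (∏ j, s j) (LO2 s (Et α β g s (t.2 : ℤ))) : ℝ) ^ 2 := by
    intro t ht
    have ht1 := hT' ht
    have hGt := hGd X t ht1
    rw [hT, mem_filter, mem_product, mem_Icc, mem_Icc] at ht1
    obtain ⟨hts, htv, _⟩ := hT2 t ht
    have hts' : S1 z y (fv α β (t.1 : ℤ) (t.2 : ℤ)) = s := hts
    have htv' : S2 z y (fv α β (t.1 : ℤ) (t.2 : ℤ)) = v := htv
    have hr := rank_g (z := z) (y := y) (X := X) (K := k) (g := g)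
      (f := fv α β (t.1 : ℤ) (t.2 : ℤ)) (by omega) hGt hg hX1 (by omega)
      (hfb X t ht1.1.1.2 ht1.1.2.2 (by omega)) hk (hid _ _) (Et α β g s (t.2 : ℤ))
      (fun j p hp hpd hpg => by
        have hd := (Pool.Agent.W571.RT.S1_dvd_iff hp).1 hpd
        rw [hts'] at hpd
        have hzp := (mem_PS.1 hd.1).1.1
        rw [jac_kA hB hp hzp hd.2.1]
        have hpt : ¬ (p : ℤ) ∣ (t.2 : ℤ) := by
          intro h
          exact Pool.Agent.W29.RT.un_of hB ht1.2.1 hp hzp hd.2.1 (Int.natCast_dvd_natCast.1 h)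
        have : Fact p.Prime := ⟨hp⟩
        have hv1 := Pool.Agent.W342.RK2.jac_ne hpt
        have hkn : ¬ (p : ℤ) ∣ kc3 α β (g : ℤ) j := by
          have hpi : Prime (p : ℤ) := Nat.prime_iff_prime_int.1 hp
          unfold kc3
          intro h
          rcases hpi.dvd_or_dvd h with h | h
          · rcases hpi.dvd_or_dvd h with h | h
            · unfold sj at h
              split_ifs at h
              · exact Pool.Agent.W342.RK2.not_dvd_one h
              · exact Pool.Agent.W342.RK2.not_dvd_neg_one h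
            · exact hpg (Int.natCast_dvd_natCast.1 h)
          · rcases hpi.dvd_or_dvd h with h | h
            · exact (hB.2 p hp hzp).1 j h
            · exact (hB.2 p hp hzp).2 j (pj j) (pj_ne j) h
        have hk1 := Pool.Agent.W342.RK2.jac_ne hkn
        have huniq : ∀ l, p ∣ s l → l = j := by
          intro l hl
          by_contra hne
          have h2 := (mem_Tup'.1 hs).2 l j hne
          have h3 := Nat.dvd_gcd hl hpd
          rw [h2] at h3
          exact hp.one_lt.ne' (Nat.dvd_one.1 h3)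
        have heta : eta α β (g : ℤ) s p = jacobiSym (kc3 α β (g : ℤ) j) p := by
          unfold eta
          rcases hk1 with h | h
          · rw [if_neg, h]
            rintro ⟨l, hl, hl2⟩
            rw [huniq l hl, h] at hl2
            norm_num at hl2
          · rw [if_pos ⟨j, hpd, h⟩, h]
        have hpP : p ∈ (∏ j, s j).primeFactors := by
          rw [Nat.mem_primeFactors]
          refine ⟨hp, hpd.trans (dvd_prod_of_mem s (mem_univ j)), ?_⟩
          exact ne_of_gt (Nat.pos_of_dvd_of_pos (Tup_prod_dvd hs) (Nat.pos_of_ne_zero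
            (PP_ne_zero z y)))
        unfold Et
        rw [mem_filter, heta, pm_aux hk1 hv1]
        exact ⟨fun h => h.2, fun h => ⟨hpP, h⟩⟩)
    rw [hts', htv'] at hr
    have hr3 : (2 : ℝ) ^ Module.finrank ℤ (EAB ((g : ℤ) * fv α β (t.1 : ℤ) (t.2 : ℤ) 0)
        ((g : ℤ) * fv α β (t.1 : ℤ) (t.2 : ℤ) 1)).toAffine.Point ≤
        4 ^ (z + 2) * (4 ^ 6) ^ k * 64 ^ g.primeFactors.card *
        2 ^ (∑ j, (v j).primeFactors.card) *
        (NL (∏ j, s j) (LO2 s (Et α β g s (t.2 : ℤ))) : ℝ) := by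
      exact_mod_cast hr
    have hr4 := pow_le_pow_left₀ (by positivity) hr3 2
    rw [hRdef]
    simp only
    rw [div_le_iff₀ h4096]
    calc (4 : ℝ) ^ Module.finrank ℤ (EAB ((g : ℤ) * fv α β (t.1 : ℤ) (t.2 : ℤ) 0)
        ((g : ℤ) * fv α β (t.1 : ℤ) (t.2 : ℤ) 1)).toAffine.Point =
        (2 ^ Module.finrank ℤ (EAB ((g : ℤ) * fv α β (t.1 : ℤ) (t.2 : ℤ) 0)
        ((g : ℤ) * fv α β (t.1 : ℤ) (t.2 : ℤ) 1)).toAffine.Point) ^ 2 := by
          rw [show (4 : ℝ) = 2 ^ 2 by norm_num, ← pow_mul, ← pow_mul, mul_comm 2]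
      _ ≤ _ := hr4
      _ = _ := by
          have e1 : ((4 : ℝ) ^ (z + 2)) ^ 2 = 16 ^ (z + 2) := by
            rw [← pow_mul, mul_comm, pow_mul]; norm_num
          have e2 : (((4 : ℝ) ^ 6) ^ k) ^ 2 = (4 ^ 12) ^ k := by
            rw [← pow_mul, mul_comm, pow_mul]; norm_num
          have e3 : ((64 : ℝ) ^ g.primeFactors.card) ^ 2 = 4096 ^ g.primeFactors.card := by
            rw [← pow_mul, mul_comm, pow_mul]; norm_num
          have e4 : ((2 : ℝ) ^ (∑ j, (v j).primeFactors.card)) ^ 2 =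
              4 ^ (∑ j, (v j).primeFactors.card) := by
            rw [← pow_mul, mul_comm, pow_mul]; norm_num
          rw [mul_pow, mul_pow, mul_pow, mul_pow, e1, e2, e3, e4]
          ring
  -- the counts
  set Q : ℝ := C * X ^ 2 * (1 / 2) ^ P.card * (∏ j, gw 1 (Fintype.card (Fin 3)) (s j)) *
        (∏ j, gw 1 (Fintype.card (Fin 3)) (v j) / v j) * (∏ j, 1 / (u j : ℝ)) /
        (Real.log y) ^ (Fintype.card (Fin 3)) with hQ
  have h3 : ∀ E ∈ P.powerset,
      ((T'.filter (fun t => Et α β g s (t.2 : ℤ) = E)).card : ℝ) ≤ Q := by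
    intro E hE
    refine hcn X y Y hy00 hzy hyK s hs v hv u hu h8 (epE α β g s E) (epE_pm α β g s E) _ ?_
    · intro t ht
      rw [mem_filter] at ht
      have ht1 := hT' ht.1
      rw [hT, mem_filter] at ht1
      refine ⟨ht1.1, ht1.2.1, (hT2 t ht.1).1, (hT2 t ht.1).2.1, (hT2 t ht.1).2.2, ?_⟩
      intro p hp
      have hpp := Nat.prime_of_mem_primeFactors hp
      have hpd := Nat.dvd_of_mem_primeFactors hp
      obtain ⟨j, _, hj⟩ := (hpp.prime.dvd_finsetProd_iff _).1 hpd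
      have hd : p ∣ S1 z y (fv α β (t.1 : ℤ) (t.2 : ℤ)) j := by
        rw [(hT2 t ht.1).1]
        exact hj
      have hd' := (Pool.Agent.W571.RT.S1_dvd_iff hpp).1 hd
      have hzp := (mem_PS.1 hd'.1).1.1
      have hpt : ¬ (p : ℤ) ∣ (t.2 : ℤ) := by
        intro h
        exact Pool.Agent.W29.RT.un_of hB ht1.2.1 hpp hzp hd'.2.1 (Int.natCast_dvd_natCast.1 h)
      have : Fact p.Prime := ⟨hpp⟩
      have hv1 := Pool.Agent.W342.RK2.jac_ne hpt
      have hmem : p ∈ E ↔ jacobiSym (t.2 : ℤ) p = -eta α β g s p := by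
        rw [← ht.2]
        unfold Et
        rw [mem_filter]
        exact ⟨fun h => h.2, fun h => ⟨hp, h⟩⟩
      unfold epE
      by_cases hpE : p ∈ E
      · rw [if_pos hpE]
        exact hmem.1 hpE
      · rw [if_neg hpE]
        exact pm_aux2 (eta_pm α β g s p) hv1 (fun h => hpE (hmem.2 h))
  have hsplit : ∑ t ∈ T', R t = ∑ E ∈ P.powerset,
      ∑ t ∈ T'.filter (fun t => Et α β g s (t.2 : ℤ) = E), R t :=
    (sum_fiberwise_of_maps_to hEt R).symm
  rw [hsplit]
  calc ∑ E ∈ P.powerset, ∑ t ∈ T'.filter (fun t => Et α β g s (t.2 : ℤ) = E), R t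
      ≤ ∑ E ∈ P.powerset, Q * (16 ^ (z + 2) * (4 ^ 12) ^ k *
          4 ^ (∑ j, (v j).primeFactors.card) * (NL (∏ j, s j) (LO2 s E) : ℝ) ^ 2) := by
        apply sum_le_sum
        intro E hE
        have h5 : ∀ t ∈ T'.filter (fun t => Et α β g s (t.2 : ℤ) = E), R t ≤
            16 ^ (z + 2) * (4 ^ 12) ^ k *
          4 ^ (∑ j, (v j).primeFactors.card) * (NL (∏ j, s j) (LO2 s E) : ℝ) ^ 2 := by
          intro t ht
          rw [mem_filter] at ht
          have := h1 t ht.1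
          rw [ht.2] at this
          exact this
        refine (sum_le_sum h5).trans ?_
        rw [sum_const, nsmul_eq_mul]
        exact mul_le_mul_of_nonneg_right (h3 E hE) (by positivity)
    _ = _ := by
        rw [← mul_sum, ← mul_sum]
        have e2 : (∏ j, (4 : ℝ) ^ (v j).primeFactors.card *
            (gw 1 (Fintype.card (Fin 3)) (v j) / v j)) =
            4 ^ (∑ j, (v j).primeFactors.card) *
              ∏ j, (gw 1 (Fintype.card (Fin 3)) (v j) / v j) := by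
          rw [prod_mul_distrib, prod_pow_eq_pow_sum]
        rw [e2, hQ]
        unfold NB2
        rw [← hP]
        ring

end Pool.Agent.H514
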