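import Mathlib
import Pool.Graph.R_seed8.W307.RT.Stm

/-!
# Second moment for the curves with full 2-torsion: definitions (helper514)
-/

namespace Pool.Agent.H514

open Finset Pool.Agent.W262.RK Pool.Agent.W307.RT

/-- the local conditions of the class `c` with the sign `neg` -/
def LO (c : Fin 3) (neg : Bool) (v w h g : Bool) : Prop :=
  if c = 0 then v = w ∧ xor h g = (v && neg)
  else if c = 1 then w = false ∧ g = (v && neg)
  else v = false ∧ h = (w && neg)

/-- the local conditions for the tuple `s` -/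
def LO2 (s : Fin 3 → ℕ) (E : Finset ℕ) (p : ℕ) (v w h g : Bool) : Prop :=
  ∀ j, p ∣ s j → LO j (decide (p ∈ E)) v w h g

/-- the average of `NL ^ 2` over the signs -/
noncomputable def NB2 (s : Fin 3 → ℕ) : ℝ :=
  (1 / 2) ^ (∏ j, s j).primeFactors.card *
    ∑ E ∈ (∏ j, s j).primeFactors.powerset, (NL (∏ j, s j) (LO2 s E) : ℝ) ^ 2

/-- the scalar product modulo 2 -/
def orth (x a : Bool × Bool) : Bool := xor (x.1 && a.1) (x.2 && a.2)

/-- the index set `(j, a, S)` with `S ⬝ a = 0` -/
def I2 : Type :=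
  {i : Fin 3 × (Bool × Bool) × (Bool × Bool) // orth i.2.2 i.2.1 = false}

instance : Fintype I2 := by unfold I2; infer_instance

instance : DecidableEq I2 := by unfold I2; infer_instance

/-- the symbol `(d i / d i')` occurs -/
def L2 (i i' : I2) : Bool := decide (i.1.1 ≠ i'.1.1) && orth i'.1.2.2 i.1.2.1

/-- the direction of the class -/
def e3 (c : Fin 3) : Bool × Bool := if c = 0 then (true, true) else if c = 1 then (true, false)
  else (false, true)

/-- multiple of the direction -/
def dir (c : Fin 3) (a : Bool) : Bool × Bool := (a && (e3 c).1, a && (e3 c).2)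

/-- expansion -/
def EXP2 : Prop := ∀ (c z y : ℕ), 2 ≤ z →
  ∑ s ∈ Tup (Fin 3) z y, NB2 s * ∏ j, gw 1 c (s j) =
    ∑ d ∈ Tup I2 z y, (∏ i, gw (1 / 4) c (d i)) * Sym L2 (fun _ => 1) d

/-- largest unlinked set -/
def COMB2 : Prop := ∀ U : Finset I2, (∀ i ∈ U, ∀ j ∈ U, L2 i j = L2 j i) → U.card ≤ 12

end Pool.Agent.H514
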