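import Pool.Agent.H514.CombK
import Pool.Agent.H514.Defs
import Pool.Agent.H457.A.Loc2
import Pool.Graph.R_seed8.W262.RK.MA4

/-!
# The `k`-th moment of the local count: the main average
-/

set_option autoImplicit false

namespace Pool.Agent.H514

open Finset Pool.Agent.W262.RK Pool.Agent.W307.RT Pool.Agent.H457.A

/-- the average of `NL ^ k` over the signs -/
noncomputable def NBk (k : ℕ) (s : Fin 3 → ℕ) : ℝ :=
  (1 / 2) ^ (∏ j, s j).primeFactors.card *
    ∑ E ∈ (∏ j, s j).primeFactors.powerset, (NL (∏ j, s j) (LO2 s E) : ℝ) ^ k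

lemma NBk_nn (k : ℕ) (s : Fin 3 → ℕ) : 0 ≤ NBk k s := by
  unfold NBk
  exact mul_nonneg (by positivity) (sum_nonneg fun _ _ => by positivity)

lemma LC_eq (j : Fin 3) (neg : Bool) (p : ℕ) (v w h g : Bool) :
    LC4 clsK flK (fun _ _ => (1 : ℤ)) j neg p v w h g = LO j neg v w h g := by
  unfold LC4 LF LO
  have h1 : sg0 p 1 = false := by
    unfold sg0
    rw [jacobiSym.one_left]
    decide
  rw [h1]
  have e0 : (clsK j = 0) = (j = 0) := propext (by revert j; decide)
  have e1 : (clsK j = 1) = (j = 1) := propext (by revert j; decide)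
  have e2 : j ≠ 0 → j ≠ 1 → clsK j = 2 := by revert j; decide
  by_cases c0 : j = 0
  · subst c0
    simp
  · by_cases c1 : j = 1
    · subst c1
      simp
    · have h2 : clsK j = 2 := e2 c0 c1
      rw [if_neg (by rw [e0]; exact c0), if_neg (by rw [e1]; exact c1), if_pos h2, if_neg c0,
        if_neg c1]
      simp

lemma NBg_eq_NBk (k : ℕ) (s : Fin 3 → ℕ) :
    NBg flK (LC4 clsK flK (fun _ _ => (1 : ℤ))) k s = NBk k s := by
  unfold NBg NBk
  have hP : PF flK s = (∏ j, s j).primeFactors := by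
    unfold PF
    simp
  have hL : ∀ E : Finset ℕ, LLg (LC4 clsK flK (fun _ _ => (1 : ℤ))) s E = LO2 s E := by
    intro E
    funext p v w h g
    unfold LLg LO2
    simp only [LC_eq]
  rw [hP]
  simp only [hL]

/-- the exponent of the logarithm -/
noncomputable def ek (k : ℕ) : ℝ := ((4 : ℝ) ^ k + 2 ^ k + 4) / (2 * 2 ^ k)

/-- the average of the `k`-th moment -/
theorem mak (k : ℕ) (hk : 2 ≤ k) (c : ℕ) : ∃ z0 : ℕ, ∀ z, z0 ≤ z → ∃ C : ℝ, ∀ y, z < y →
      ∑ s ∈ Tup (Fin 3) z y, NBk k s * ∏ j, gw 1 c (s j) ≤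
        C * (Real.log y) ^ (ek k) := by
  classical
  obtain ⟨z0, hz0⟩ := at_thm (IK (PK k)) (wK (PK k) (W4 k clsK)) (LK (PK k))
    (κK (PK k) (kc4 clsK (fun _ _ => (1 : ℤ)))) c (ek k)
    (fun i => by
      unfold wK W4
      rw [if_neg (clsK_ne _)]
      refine ⟨by positivity, ?_⟩
      have h1 : ((1 : ℝ) / 2) ^ k ≤ (1 / 2) ^ 1 :=
        pow_le_pow_of_le_one (by norm_num) (by norm_num) (by omega)
      rwa [pow_one] at h1)
    (fun i => by
      unfold LK
      rw [orth4 clsK flK i.1.1 i.1.2.1 i.1.2.2 i.2]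
      decide)
    (fun i => (kc4_bd clsK (fun _ _ => (1 : ℤ)) (fun _ _ => one_ne_zero) _ _ _).2)
    (fun U hU => by
      have h := combk hk U hU
      have h1 : ∀ i ∈ U, wK (PK k) (W4 k clsK) i = (1 / 2 : ℝ) ^ k := by
        intro i _
        unfold wK W4
        rw [if_neg (clsK_ne _)]
      rw [sum_congr rfl h1, sum_const, nsmul_eq_mul]
      have h2 : (2 : ℝ) * U.card ≤ 4 ^ k + 2 ^ k + 4 := by exact_mod_cast h
      unfold ek
      have h3 : (0 : ℝ) < 2 ^ k := by positivity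
      rw [le_div_iff₀ (by positivity), one_div, inv_pow]
      have h4 : (U.card : ℝ) * ((2 : ℝ) ^ k)⁻¹ * (2 * 2 ^ k) = 2 * U.card := by
        field_simp
      rw [h4]
      exact h2)
  refine ⟨max z0 2, fun z hz => ?_⟩
  obtain ⟨C, hC⟩ := hz0 z (le_trans (le_max_left _ _) hz)
  refine ⟨C, fun y hy => ?_⟩
  have hz2 : 2 ≤ z := le_trans (le_max_right _ _) hz
  have h1 := expk (z := z) (y := y) (k := k) (P := PK k) flK (LC4 clsK flK (fun _ _ => (1 : ℤ)))
    (fun j hj => by simp [flK] at hj) (W4 k clsK) (kc4 clsK (fun _ _ => (1 : ℤ))) c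
    (fun j v x h => orth4 clsK flK j v x h)
    (fun p hp => by
      have hp1 := mem_PS.1 hp
      refine locId4 clsK flK (fun _ _ => (1 : ℤ)) hp1.2 (by omega) ?_
      intro _ _ hd
      have h2 : (p : ℤ) ∣ ((1 : ℕ) : ℤ) := by exact_mod_cast hd
      have h3 := Int.natCast_dvd_natCast.1 h2
      exact hp1.2.one_lt.ne' (Nat.dvd_one.1 h3)) (fun _ => 1)
  simp only [one_mul] at h1
  have h2 : ∑ s ∈ Tup (Fin 3) z y, NBk k s * ∏ j, gw 1 c (s j) =
      ∑ d ∈ Tup (IK (PK k)) z y, ((∏ i, gw (wK (PK k) (W4 k clsK) i) c (d i)) *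
        Pool.Agent.W262.RK.Sym (LK (PK k)) (κK (PK k) (kc4 clsK (fun _ _ => (1 : ℤ)))) d) := by
    rw [← h1]
    exact sum_congr rfl fun s _ => by rw [NBg_eq_NBk]
  rw [h2]
  exact (le_abs_self _).trans (hC y hy)

end Pool.Agent.H514
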