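import Pool.Agent.H514.SelG
import Pool.Agent.H514.AvgG
import Pool.Agent.H514.SubBk
import Pool.Agent.H514.AntB3

/-!
# The moments in a twisted family, uniform in the twist
-/

set_option autoImplicit false

namespace Pool.Agent.H514

open Finset Pool.Agent.W262.RK Pool.Agent.W307.RT

/-- the exponent of the logarithm in the moment -/
noncomputable def th (m : ℕ) : ℝ := (2 : ℝ) ^ m / 2 - 5 / 2 + 2 / 2 ^ m

lemma th_nn {m : ℕ} (hm : 2 ≤ m) : 0 ≤ th m := by
  unfold th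
  have h1 : (4 : ℝ) ≤ 2 ^ m := by
    calc (4 : ℝ) = 2 ^ 2 := by norm_num
      _ ≤ 2 ^ m := pow_le_pow_right₀ (by norm_num) hm
  have h2 : (0 : ℝ) < 2 ^ m := by linarith
  have h3 : (2 : ℝ) ^ m / 2 - 5 / 2 + 2 / 2 ^ m =
      (((2 : ℝ) ^ m - 1) * (2 ^ m - 4)) / (2 * 2 ^ m) := by
    field_simp
    ring
  rw [h3]
  apply div_nonneg _ (by positivity)
  apply mul_nonneg <;> linarith

lemma ek_eq (m : ℕ) : ek m = 3 + th m := by
  unfold ek th
  have h1 : (4 : ℝ) ^ m = 2 ^ m * 2 ^ m := by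
    rw [← mul_pow]
    norm_num
  rw [h1]
  field_simp
  ring

/-- the power of the logarithm -/
noncomputable def LgK (m : ℕ) (X : ℕ) : ℝ := (1 + Real.log X) ^ th m

lemma logn (X : ℕ) : 0 ≤ Real.log X := Real.log_natCast_nonneg X

lemma LgK_one {m : ℕ} (hm : 2 ≤ m) (X : ℕ) : 1 ≤ LgK m X := by
  unfold LgK
  exact Real.one_le_rpow (by linarith [logn X]) (th_nn hm)

lemma LgK_mono {m : ℕ} (hm : 2 ≤ m) : Monotone (LgK m) := by
  intro X Y h
  unfold LgK
  apply Real.rpow_le_rpow (by linarith [logn X]) _ (th_nn hm)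
  rcases Nat.eq_zero_or_pos X with h0 | h0
  · rw [h0, Nat.cast_zero, Real.log_zero]
    linarith [logn Y]
  · have h1 : (0 : ℝ) < X := by exact_mod_cast h0
    have h2 : (X : ℝ) ≤ Y := by exact_mod_cast h
    linarith [Real.log_le_log h1 h2]

theorem makL (m : ℕ) (hm : 2 ≤ m) (c : ℕ) : ∃ z0 : ℕ, ∀ z, z0 ≤ z → ∃ C : ℝ, ∀ y, z < y →
      ∑ s ∈ Tup (Fin 3) z y, NBk m s * ∏ j, gw 1 c (s j) ≤
        C * LgK m y * (Real.log y) ^ (Fintype.card (Fin 3)) := by
  obtain ⟨z0, hz0⟩ := mak m hm c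
  refine ⟨max z0 1, fun z hz => ?_⟩
  obtain ⟨C, hC⟩ := hz0 z (le_trans (le_max_left _ _) hz)
  have hz1 : 1 ≤ z := le_trans (le_max_right _ _) hz
  refine ⟨|C|, fun y hy => (hC y hy).trans ?_⟩
  have hl : 0 < Real.log y := Real.log_pos (by exact_mod_cast (by omega : 1 < y))
  have h1 : (Real.log y) ^ (ek m) ≤ LgK m y * (Real.log y) ^ (Fintype.card (Fin 3)) := by
    rw [ek_eq, add_comm, Real.rpow_add hl]
    unfold LgK
    rw [Fintype.card_fin, show ((3 : ℝ)) = ((3 : ℕ) : ℝ) by norm_num, Real.rpow_natCast]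
    apply mul_le_mul_of_nonneg_right _ (by positivity)
    exact Real.rpow_le_rpow hl.le (by linarith) (th_nn hm)
  calc C * (Real.log y) ^ (ek m) ≤ |C| * (Real.log y) ^ (ek m) :=
        mul_le_mul_of_nonneg_right (le_abs_self _) (by positivity)
    _ ≤ |C| * (LgK m y * (Real.log y) ^ (Fintype.card (Fin 3))) :=
        mul_le_mul_of_nonneg_left h1 (abs_nonneg _)
    _ = _ := by ring

/-- uniform average over a family twisted by `g` -/
theorem avg_q {Q : ℤ → ℤ → ℕ} (hQ : RBd Q) (m : ℕ) (hm : 2 ≤ m) (α β : Fin 3 → ℤ) (hα : ∀ j, α j ≠ 0) (hR : ∀ j l, j ≠ l → Res α β j l ≠ 0)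
    (hid : ∀ u v, fv α β u v 0 - fv α β u v 1 = fv α β u v 2) :
    ∃ C : ℝ, 0 ≤ C ∧ ∀ g : ℕ, 1 ≤ g → ∀ X : ℕ, 1 ≤ X →
      ∑ t ∈ (Icc 1 X ×ˢ Icc 1 X).filter (fun t : ℕ × ℕ =>
        t.1.Coprime t.2 ∧ ∀ j, fv α β (t.1 : ℤ) (t.2 : ℤ) j ≠ 0),
        (Q ((g : ℤ) * fv α β (t.1 : ℤ) (t.2 : ℤ) 0)
          ((g : ℤ) * fv α β (t.1 : ℤ) (t.2 : ℤ) 1) : ℝ) ^ m ≤
        C * (64 ^ m) ^ g.primeFactors.card * LgK m X * (X : ℝ) ^ 2 := by
  classical
  obtain ⟨z0, hz0⟩ := makL m hm (Fintype.card (Fin 3))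
  set z : ℕ := z0 + 8 + ∑ j, (α j).natAbs + ∑ j, ∑ l, (Res α β j l).natAbs with hz
  have hB : Bg α β z := by
    refine ⟨by rw [Fintype.card_fin]; omega, fun p hp hzp => ⟨fun j h => ?_, fun j l hjl h => ?_⟩⟩
    · have h1 := Nat.le_of_dvd (Int.natAbs_pos.2 (hα j)) (Int.natCast_dvd.1 h)
      have h2 := single_le_sum (f := fun j => (α j).natAbs) (fun _ _ => Nat.zero_le _) (mem_univ j)
      omega
    · have h1 := Nat.le_of_dvd (Int.natAbs_pos.2 (hR j l hjl)) (Int.natCast_dvd.1 h)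
      have h2 := single_le_sum (f := fun l => (Res α β j l).natAbs) (fun _ _ => Nat.zero_le _)
        (mem_univ l)
      have h3 := single_le_sum (f := fun j => ∑ l, (Res α β j l).natAbs) (fun _ _ => Nat.zero_le _)
        (mem_univ j)
      omega
  obtain ⟨C', hC'⟩ := hz0 z (by omega)
  obtain ⟨C, K, y0, hC0, hK1, hcn⟩ := cnt2s' α β z hB
  set y1 : ℕ := y0 + ∑ j, ((α j).natAbs + (β j).natAbs) + 1 with hy1
  have hNB0 : ∀ s, 0 ≤ NBk m s := NBk_nn m
  obtain ⟨X0, B, hB0, hant⟩ := AK.antb (Fin 3) z (b := 2 ^ m) (by positivity) (NBk m)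
    (C * (4 ^ (z + 2)) ^ m) C' ((4 ^ 6) ^ m) K y1 (LgK m) (LgK_one hm) (LgK_mono hm)
    hB.1 hNB0 (by positivity) (one_le_pow₀ (one_le_pow₀ (by norm_num))) hK1
    (fun y hy s e hse => subbk m z y s e hse) hC'
  -- the bound for small heights
  set X1 : ℕ := X0 + ∑ j, ((α j).natAbs + (β j).natAbs) + 1 with hX1
  set R0 : ℝ := (X0 : ℝ) ^ 2 * ((4 : ℝ) ^ (z + 2) * (4 ^ 6) ^ X1) ^ m with hR0
  have hfb : ∀ (X : ℕ) (t : ℕ × ℕ), t.1 ≤ X → t.2 ≤ X →
      (∑ j, ((α j).natAbs + (β j).natAbs)) ≤ X → ∀ j,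
      (fv α β (t.1 : ℤ) (t.2 : ℤ) j).natAbs ≤ X ^ 2 := by
    intro X t h5 h5' h6' j
    unfold fv
    have h3 := Int.natAbs_add_le (α j * (t.1 : ℤ)) (β j * (t.2 : ℤ))
    rw [Int.natAbs_mul, Int.natAbs_mul, Int.natAbs_natCast, Int.natAbs_natCast] at h3
    have h4 := single_le_sum (f := fun j => (α j).natAbs + (β j).natAbs)
      (fun _ _ => Nat.zero_le _) (mem_univ j)
    have h6 : (α j).natAbs + (β j).natAbs ≤ X := by
      have h4' : (α j).natAbs + (β j).natAbs ≤ ∑ j, ((α j).natAbs + (β j).natAbs) := h4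
      omega
    calc (α j * (t.1 : ℤ) + β j * (t.2 : ℤ)).natAbs
        ≤ (α j).natAbs * t.1 + (β j).natAbs * t.2 := h3
      _ ≤ (α j).natAbs * X + (β j).natAbs * X :=
          add_le_add (Nat.mul_le_mul_left _ h5) (Nat.mul_le_mul_left _ h5')
      _ = ((α j).natAbs + (β j).natAbs) * X := by ring
      _ ≤ X * X := Nat.mul_le_mul_right _ h6
      _ = X ^ 2 := by ring
  refine ⟨R0 + B, by positivity, fun g hg X hX => ?_⟩
  have h4096 : (0 : ℝ) < (64 ^ m) ^ g.primeFactors.card := by positivity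
  set T : ℕ → Finset (ℕ × ℕ) := fun X => (Icc 1 X ×ˢ Icc 1 X).filter (fun t : ℕ × ℕ =>
      t.1.Coprime t.2 ∧ ∀ j, fv α β (t.1 : ℤ) (t.2 : ℤ) j ≠ 0) with hT
  set R : ℕ × ℕ → ℝ := fun t => (Q ((g : ℤ) * fv α β (t.1 : ℤ) (t.2 : ℤ) 0)
      ((g : ℤ) * fv α β (t.1 : ℤ) (t.2 : ℤ) 1) : ℝ) ^ m / (64 ^ m) ^ g.primeFactors.card
    with hRdef
  have hGd : ∀ X, ∀ ω ∈ T X, Gd z (fv α β (ω.1 : ℤ) (ω.2 : ℤ)) := by
    intro X ω hω
    rw [hT, mem_filter] at hω
    exact Pool.Agent.W230.RT.gd_fv hB hω.2.1 hω.2.2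
  have key := hant (ℕ × ℕ) T (fun t => fv α β (t.1 : ℤ) (t.2 : ℤ)) (fun X => (X : ℝ) ^ 2) R
    (fun X Y hXY => ?_) (fun X hX => ?_) hGd (fun t => by positivity) ?_ X hX
  · have hsmall : ∑ ω ∈ T X0, R ω ≤ R0 := by
      have hone : ∀ ω ∈ T X0, R ω ≤ ((4 : ℝ) ^ (z + 2) * (4 ^ 6) ^ X1) ^ m := by
        intro ω hω
        have hω' := hω
        rw [hT, mem_filter, mem_product, mem_Icc, mem_Icc] at hω'
        have hr := hQ z 1 X1 X1 g (fv α β (ω.1 : ℤ) (ω.2 : ℤ)) (by omega) (hGd X0 ω hω) hg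
          (by omega) le_rfl
          (hfb X1 ω (by omega) (by omega) (by omega)) Nat.lt_two_pow_self
          (hid _ _) ∅ (fun j p hp hpd _ => by
            exfalso
            have h1 := ((Pool.Agent.W571.RT.S1_dvd_iff hp).1 hpd).1
            have h2 := (mem_PS.1 h1).1
            omega)
        have hPS : PS z 1 = ∅ := by
          rw [eq_empty_iff_forall_notMem]
          intro p hp
          have := (mem_PS.1 hp).1
          omega
        have hS1 : S1 z 1 (fv α β (ω.1 : ℤ) (ω.2 : ℤ)) = fun _ => 1 := by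
          funext j
          unfold S1
          rw [hPS, filter_empty, prod_empty]
        have hS2 : S2 z 1 (fv α β (ω.1 : ℤ) (ω.2 : ℤ)) = fun _ => 1 := by
          funext j
          unfold S2
          rw [hPS, filter_empty, prod_empty]
        rw [hS1, hS2] at hr
        have hNL : NL (∏ j : Fin 3, (fun _ => 1 : Fin 3 → ℕ) j) (LO2 (fun _ => 1) ∅) ≤ 1 := by
          unfold NL
          refine (card_filter_le _ _).trans ?_
          simp
        have hr2 : Q ((g : ℤ) * fv α β (ω.1 : ℤ) (ω.2 : ℤ) 0)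
            ((g : ℤ) * fv α β (ω.1 : ℤ) (ω.2 : ℤ) 1) ≤
            4 ^ (z + 2) * (4 ^ 6) ^ X1 * 64 ^ g.primeFactors.card := by
          refine hr.trans ?_
          have h9 : (∑ j : Fin 3, ((fun _ => 1 : Fin 3 → ℕ) j).primeFactors.card) = 0 := by
            simp
          rw [h9, pow_zero, mul_one]
          calc _ ≤ (4 ^ (z + 2) * (4 ^ 6) ^ X1 * 64 ^ g.primeFactors.card) * 1 :=
                Nat.mul_le_mul_left _ hNL
            _ = _ := mul_one _
        have hr3 : (Q ((g : ℤ) * fv α β (ω.1 : ℤ) (ω.2 : ℤ) 0)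
            ((g : ℤ) * fv α β (ω.1 : ℤ) (ω.2 : ℤ) 1) : ℝ) ≤
            4 ^ (z + 2) * (4 ^ 6) ^ X1 * 64 ^ g.primeFactors.card := by
          exact_mod_cast hr2
        have hr4 := pow_le_pow_left₀ (by positivity) hr3 m
        rw [hRdef]
        simp only
        rw [div_le_iff₀ h4096]
        refine hr4.trans (le_of_eq ?_)
        have e3 : ((64 : ℝ) ^ g.primeFactors.card) ^ m = (64 ^ m) ^ g.primeFactors.card := by
          rw [← pow_mul, mul_comm, pow_mul]
        rw [mul_pow _ ((64 : ℝ) ^ g.primeFactors.card), e3]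
      refine (sum_le_sum hone).trans ?_
      rw [sum_const, nsmul_eq_mul, hR0]
      apply mul_le_mul_of_nonneg_right _ (by positivity)
      have hc : (T X0).card ≤ X0 ^ 2 := by
        refine (card_filter_le _ _).trans ?_
        rw [card_product, Nat.card_Icc, Nat.add_sub_cancel, pow_two]
      exact_mod_cast hc
    have hLX := LgK_one hm X
    have hk2 : ∑ ω ∈ T X, R ω ≤ (R0 + B) * LgK m X * (X : ℝ) ^ 2 := by
      refine key.trans ?_
      apply mul_le_mul_of_nonneg_right _ (by positivity)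
      apply mul_le_mul_of_nonneg_right _ (by linarith)
      linarith
    have hk3 : ∑ t ∈ T X, (Q ((g : ℤ) * fv α β (t.1 : ℤ) (t.2 : ℤ) 0)
          ((g : ℤ) * fv α β (t.1 : ℤ) (t.2 : ℤ) 1) : ℝ) ^ m =
        (∑ ω ∈ T X, R ω) * (64 ^ m) ^ g.primeFactors.card := by
      rw [sum_mul]
      apply sum_congr rfl
      intro t _
      exact (div_mul_cancel₀ _ h4096.ne').symm
    rw [hk3]
    calc (∑ ω ∈ T X, R ω) * (64 ^ m) ^ g.primeFactors.card ≤
        ((R0 + B) * LgK m X * (X : ℝ) ^ 2) * (64 ^ m) ^ g.primeFactors.card :=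
          mul_le_mul_of_nonneg_right hk2 h4096.le
      _ = _ := by ring
  · intro t ht
    rw [hT, mem_filter, mem_product, mem_Icc, mem_Icc] at ht
    rw [hT, mem_filter, mem_product, mem_Icc, mem_Icc]
    exact ⟨⟨⟨ht.1.1.1, ht.1.1.2.trans hXY⟩, ⟨ht.1.2.1, ht.1.2.2.trans hXY⟩⟩, ht.2⟩
  · have : (1 : ℝ) ≤ X := by exact_mod_cast hX
    exact one_le_pow₀ this
  intro X y Y k hy0 hzy hyK hk s hs v hv u hu h8 T' hT' hT2
  have hy00 : y0 ≤ y := by omega
  have hyX : y ≤ X := le_trans (Nat.le_self_pow (by omega) y) hyK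
  have hX1 : 1 ≤ X := by omega
  set P := (∏ j, s j).primeFactors with hP
  -- the sets of the signs
  have hEt : ∀ t ∈ T', Et α β g s (t.2 : ℤ) ∈ P.powerset := by
    intro t _
    rw [mem_powerset]
    exact filter_subset _ _
  -- each point
  have h1 : ∀ t ∈ T', R t ≤ (4 ^ (z + 2)) ^ m * ((4 ^ 6) ^ m) ^ k *
      (2 ^ m) ^ (∑ j, (v j).primeFactors.card) *
      (NL (∏ j, s j) (LO2 s (Et α β g s (t.2 : ℤ))) : ℝ) ^ m := by
    intro t ht
    have ht1 := hT' ht
    have hGt := hGd X t ht1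
    rw [hT, mem_filter, mem_product, mem_Icc, mem_Icc] at ht1
    obtain ⟨hts, htv, _⟩ := hT2 t ht
    have hts' : S1 z y (fv α β (t.1 : ℤ) (t.2 : ℤ)) = s := hts
    have htv' : S2 z y (fv α β (t.1 : ℤ) (t.2 : ℤ)) = v := htv
    have hr := hQ z y X k g (fv α β (t.1 : ℤ) (t.2 : ℤ)) (by omega) hGt hg hX1 (by omega)
      (hfb X t ht1.1.1.2 ht1.1.2.2 (by omega)) hk (hid _ _) (Et α β g s (t.2 : ℤ))
      (fun j p hp hpd hpg => by
        have hd := (Pool.Agent.W571.RT.S1_dvd_iff hp).1 hpd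
        rw [hts'] at hpd
        have hzp := (mem_PS.1 hd.1).1.1
        rw [jac_kA hB hp hzp hd.2.1]
        have hpt : ¬ (p : ℤ) ∣ (t.2 : ℤ) := by
          intro h
          exact Pool.Agent.W29.RT.un_of hB ht1.2.1 hp hzp hd.2.1 (Int.natCast_dvd_natCast.1 h)
        have : Fact p.Prime := ⟨hp⟩
        have hv1 := Pool.Agent.W342.RK2.jac_ne hpt
        have hkn : ¬ (p : ℤ) ∣ kc3 α β (g : ℤ) j := by
          have hpi : Prime (p : ℤ) := Nat.prime_iff_prime_int.1 hp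
          unfold kc3
          intro h
          rcases hpi.dvd_or_dvd h with h | h
          · rcases hpi.dvd_or_dvd h with h | h
            · unfold sj at h
              split_ifs at h
              · exact Pool.Agent.W342.RK2.not_dvd_one h
              · exact Pool.Agent.W342.RK2.not_dvd_neg_one h
            · exact hpg (Int.natCast_dvd_natCast.1 h)
          · rcases hpi.dvd_or_dvd h with h | h
            · exact (hB.2 p hp hzp).1 j h
            · exact (hB.2 p hp hzp).2 j (pj j) (pj_ne j) h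
        have hk1 := Pool.Agent.W342.RK2.jac_ne hkn
        have huniq : ∀ l, p ∣ s l → l = j := by
          intro l hl
          by_contra hne
          have h2 := (mem_Tup'.1 hs).2 l j hne
          have h3 := Nat.dvd_gcd hl hpd
          rw [h2] at h3
          exact hp.one_lt.ne' (Nat.dvd_one.1 h3)
        have heta : eta α β (g : ℤ) s p = jacobiSym (kc3 α β (g : ℤ) j) p := by
          unfold eta
          rcases hk1 with h | h
          · rw [if_neg, h]
            rintro ⟨l, hl, hl2⟩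
            rw [huniq l hl, h] at hl2
            norm_num at hl2
          · rw [if_pos ⟨j, hpd, h⟩, h]
        have hpP : p ∈ (∏ j, s j).primeFactors := by
          rw [Nat.mem_primeFactors]
          refine ⟨hp, hpd.trans (dvd_prod_of_mem s (mem_univ j)), ?_⟩
          exact ne_of_gt (Nat.pos_of_dvd_of_pos (Tup_prod_dvd hs) (Nat.pos_of_ne_zero
            (PP_ne_zero z y)))
        unfold Et
        rw [mem_filter, heta, pm_aux hk1 hv1]
        exact ⟨fun h => h.2, fun h => ⟨hpP, h⟩⟩)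
    rw [hts', htv'] at hr
    have hr3 : (Q ((g : ℤ) * fv α β (t.1 : ℤ) (t.2 : ℤ) 0)
        ((g : ℤ) * fv α β (t.1 : ℤ) (t.2 : ℤ) 1) : ℝ) ≤
        4 ^ (z + 2) * (4 ^ 6) ^ k * 64 ^ g.primeFactors.card *
        2 ^ (∑ j, (v j).primeFactors.card) *
        (NL (∏ j, s j) (LO2 s (Et α β g s (t.2 : ℤ))) : ℝ) := by
      exact_mod_cast hr
    have hr4 := pow_le_pow_left₀ (by positivity) hr3 m
    rw [hRdef]
    simp only
    rw [div_le_iff₀ h4096]
    refine hr4.trans (le_of_eq ?_)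
    have e2 : (((4 : ℝ) ^ 6) ^ k) ^ m = ((4 ^ 6) ^ m) ^ k := by
      rw [← pow_mul, mul_comm, pow_mul]
    have e3 : ((64 : ℝ) ^ g.primeFactors.card) ^ m = (64 ^ m) ^ g.primeFactors.card := by
      rw [← pow_mul, mul_comm, pow_mul]
    have e4 : ((2 : ℝ) ^ (∑ j, (v j).primeFactors.card)) ^ m =
        (2 ^ m) ^ (∑ j, (v j).primeFactors.card) := by
      rw [← pow_mul, mul_comm, pow_mul]
    rw [mul_pow, mul_pow, mul_pow, mul_pow, e2, e3, e4]
    ring
  -- the counts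
  set Qc : ℝ := C * X ^ 2 * (1 / 2) ^ P.card * (∏ j, gw 1 (Fintype.card (Fin 3)) (s j)) *
        (∏ j, gw 1 (Fintype.card (Fin 3)) (v j) / v j) * (∏ j, 1 / (u j : ℝ)) /
        (Real.log y) ^ (Fintype.card (Fin 3)) with hQc
  have h3 : ∀ E ∈ P.powerset,
      ((T'.filter (fun t => Et α β g s (t.2 : ℤ) = E)).card : ℝ) ≤ Qc := by
    intro E hE
    refine hcn X y Y hy00 hzy hyK s hs v hv u hu h8 (epE α β g s E) (epE_pm α β g s E) _ ?_
    · intro t ht
      rw [mem_filter] at ht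
      have ht1 := hT' ht.1
      rw [hT, mem_filter] at ht1
      refine ⟨ht1.1, ht1.2.1, (hT2 t ht.1).1, (hT2 t ht.1).2.1, (hT2 t ht.1).2.2, ?_⟩
      intro p hp
      have hpp := Nat.prime_of_mem_primeFactors hp
      have hpd := Nat.dvd_of_mem_primeFactors hp
      obtain ⟨j, _, hj⟩ := (hpp.prime.dvd_finsetProd_iff _).1 hpd
      have hd : p ∣ S1 z y (fv α β (t.1 : ℤ) (t.2 : ℤ)) j := by
        rw [(hT2 t ht.1).1]
        exact hj
      have hd' := (Pool.Agent.W571.RT.S1_dvd_iff hpp).1 hd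
      have hzp := (mem_PS.1 hd'.1).1.1
      have hpt : ¬ (p : ℤ) ∣ (t.2 : ℤ) := by
        intro h
        exact Pool.Agent.W29.RT.un_of hB ht1.2.1 hpp hzp hd'.2.1 (Int.natCast_dvd_natCast.1 h)
      have : Fact p.Prime := ⟨hpp⟩
      have hv1 := Pool.Agent.W342.RK2.jac_ne hpt
      have hmem : p ∈ E ↔ jacobiSym (t.2 : ℤ) p = -eta α β g s p := by
        rw [← ht.2]
        unfold Et
        rw [mem_filter]
        exact ⟨fun h => h.2, fun h => ⟨hp, h⟩⟩
      unfold epE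
      by_cases hpE : p ∈ E
      · rw [if_pos hpE]
        exact hmem.1 hpE
      · rw [if_neg hpE]
        exact pm_aux2 (eta_pm α β g s p) hv1 (fun h => hpE (hmem.2 h))
  have hsplit : ∑ t ∈ T', R t = ∑ E ∈ P.powerset,
      ∑ t ∈ T'.filter (fun t => Et α β g s (t.2 : ℤ) = E), R t :=
    (sum_fiberwise_of_maps_to hEt R).symm
  rw [hsplit]
  calc ∑ E ∈ P.powerset, ∑ t ∈ T'.filter (fun t => Et α β g s (t.2 : ℤ) = E), R t
      ≤ ∑ E ∈ P.powerset, Qc * ((4 ^ (z + 2)) ^ m * ((4 ^ 6) ^ m) ^ k *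
          (2 ^ m) ^ (∑ j, (v j).primeFactors.card) * (NL (∏ j, s j) (LO2 s E) : ℝ) ^ m) := by
        apply sum_le_sum
        intro E hE
        have h5 : ∀ t ∈ T'.filter (fun t => Et α β g s (t.2 : ℤ) = E), R t ≤
            (4 ^ (z + 2)) ^ m * ((4 ^ 6) ^ m) ^ k *
          (2 ^ m) ^ (∑ j, (v j).primeFactors.card) * (NL (∏ j, s j) (LO2 s E) : ℝ) ^ m := by
          intro t ht
          rw [mem_filter] at ht
          have := h1 t ht.1
          rw [ht.2] at this
          exact this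
        refine (sum_le_sum h5).trans ?_
        rw [sum_const, nsmul_eq_mul]
        exact mul_le_mul_of_nonneg_right (h3 E hE) (by positivity)
    _ = _ := by
        rw [← mul_sum, ← mul_sum]
        have e2 : (∏ j, ((2 : ℝ) ^ m) ^ (v j).primeFactors.card *
            (gw 1 (Fintype.card (Fin 3)) (v j) / v j)) =
            (2 ^ m) ^ (∑ j, (v j).primeFactors.card) *
              ∏ j, (gw 1 (Fintype.card (Fin 3)) (v j) / v j) := by
          rw [prod_mul_distrib, prod_pow_eq_pow_sum]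
        rw [e2, hQc]
        unfold NBk
        rw [← hP]
        ring

end Pool.Agent.H514
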