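import Pool.Agent.H514.AvgG
import Pool.Graph.R_seed8.W307.RT.Fam

/-!
# The second moment over a box
-/

set_option autoImplicit false

namespace Pool.Agent.H514

open Finset Pool.Agent.W262.RK Pool.Agent.W307.RT

/-- the trivial bound for one curve and its twists -/
theorem rank_triv {f : Fin 3 → ℤ} (h0 : ∀ j, f j ≠ 0) (hf : f 0 - f 1 = f 2) :
    ∃ C : ℝ, 0 ≤ C ∧ ∀ g : ℕ, 1 ≤ g →
      (4 : ℝ) ^ Module.finrank ℤ (EAB ((g : ℤ) * f 0) ((g : ℤ) * f 1)).toAffine.Point ≤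
        C * 4096 ^ g.primeFactors.card := by
  classical
  set z : ℕ := 2 + ∑ j, (f j).natAbs with hz
  set X1 : ℕ := 1 + ∑ j, (f j).natAbs with hX1
  have hle : ∀ j, (f j).natAbs ≤ ∑ j, (f j).natAbs := fun j =>
    single_le_sum (f := fun j => (f j).natAbs) (fun _ _ => Nat.zero_le _) (mem_univ j)
  have hG : Gd z f := by
    refine ⟨h0, fun p hp hzp j l _ h => ?_⟩
    have h1 := Nat.le_of_dvd (Int.natAbs_pos.2 (h0 j)) (Int.natCast_dvd.1 h.1)
    have h2 := hle j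
    omega
  refine ⟨((4 : ℝ) ^ (z + 2) * (4 ^ 6) ^ X1) ^ 2, by positivity, fun g hg => ?_⟩
  have hr := rank_g (z := z) (y := 1) (X := X1) (K := X1) (g := g) (f := f) (by omega) hG hg
    (by omega) le_rfl (fun j => by
      have h1 := hle j
      have h2 : (f j).natAbs ≤ X1 := by omega
      exact h2.trans (Nat.le_self_pow two_ne_zero X1)) Nat.lt_two_pow_self hf ∅
    (fun j p hp hpd _ => by
      exfalso
      have h1 := ((Pool.Agent.W571.RT.S1_dvd_iff hp).1 hpd).1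
      have h2 := (mem_PS.1 h1).1
      omega)
  have hPS : PS z 1 = ∅ := by
    rw [eq_empty_iff_forall_notMem]
    intro p hp
    have := (mem_PS.1 hp).1
    omega
  have hS1 : S1 z 1 f = fun _ => 1 := by
    funext j
    unfold S1
    rw [hPS, filter_empty, prod_empty]
  have hS2 : S2 z 1 f = fun _ => 1 := by
    funext j
    unfold S2
    rw [hPS, filter_empty, prod_empty]
  rw [hS1, hS2] at hr
  have hNL : NL (∏ j : Fin 3, (fun _ => 1 : Fin 3 → ℕ) j) (LO2 (fun _ => 1) ∅) ≤ 1 := by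
    unfold NL
    refine (card_filter_le _ _).trans ?_
    simp
  have hr2 : 2 ^ Module.finrank ℤ (EAB ((g : ℤ) * f 0) ((g : ℤ) * f 1)).toAffine.Point ≤
      4 ^ (z + 2) * (4 ^ 6) ^ X1 * 64 ^ g.primeFactors.card := by
    refine hr.trans ?_
    have h9 : (∑ j : Fin 3, ((fun _ => 1 : Fin 3 → ℕ) j).primeFactors.card) = 0 := by
      simp
    rw [h9, pow_zero, mul_one]
    calc _ ≤ (4 ^ (z + 2) * (4 ^ 6) ^ X1 * 64 ^ g.primeFactors.card) * 1 :=
          Nat.mul_le_mul_left _ hNL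
      _ = _ := mul_one _
  have hr3 : (2 : ℝ) ^ Module.finrank ℤ (EAB ((g : ℤ) * f 0) ((g : ℤ) * f 1)).toAffine.Point ≤
      4 ^ (z + 2) * (4 ^ 6) ^ X1 * 64 ^ g.primeFactors.card := by
    exact_mod_cast hr2
  have hr4 := pow_le_pow_left₀ (by positivity) hr3 2
  calc (4 : ℝ) ^ Module.finrank ℤ (EAB ((g : ℤ) * f 0) ((g : ℤ) * f 1)).toAffine.Point =
      (2 ^ Module.finrank ℤ (EAB ((g : ℤ) * f 0) ((g : ℤ) * f 1)).toAffine.Point) ^ 2 := by
        rw [show (4 : ℝ) = 2 ^ 2 by norm_num, ← pow_mul, ← pow_mul, mul_comm 2]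
    _ ≤ _ := hr4
    _ = _ := by
        have e3 : ((64 : ℝ) ^ g.primeFactors.card) ^ 2 = 4096 ^ g.primeFactors.card := by
          rw [← pow_mul, mul_comm, pow_mul]; norm_num
        rw [mul_pow, e3]

/-- the forms -/
def αb : Fin 3 → ℤ := ![1, 2, -1]

/-- the forms -/
def βb : Fin 3 → ℤ := ![0, 1, -1]

lemma fb0 (u v : ℤ) : fv αb βb u v 0 = u := by
  change 1 * u + 0 * v = u
  ring

lemma fb1 (u v : ℤ) : fv αb βb u v 1 = v + 2 * u := by
  change 2 * u + 1 * v = _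
  ring

lemma fb2 (u v : ℤ) : fv αb βb u v 2 = u - (v + 2 * u) := by
  change -1 * u + -1 * v = _
  ring

/-- the box for a fixed twist -/
theorem box_g : ∃ C : ℝ, 0 ≤ C ∧ ∀ g : ℕ, 1 ≤ g → ∀ T : ℕ, 1 ≤ T →
    ∑ t ∈ (Box T).filter (fun t : ℤ × ℤ =>
      IsCoprime t.1 t.2 ∧ t.1 ≠ 0 ∧ t.2 ≠ 0 ∧ t.1 ≠ t.2),
      (4 : ℝ) ^ Module.finrank ℤ (EAB ((g : ℤ) * t.1) ((g : ℤ) * t.2)).toAffine.Point ≤
        C * 4096 ^ g.primeFactors.card * (T : ℝ) ^ 2 := by
  classical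
  have hquad : ∀ e ∈ sgs, ∃ C : ℝ, 0 ≤ C ∧ ∀ g : ℕ, 1 ≤ g → ∀ X : ℕ, 1 ≤ X →
      ∑ t ∈ (Icc 1 X ×ˢ Icc 1 X).filter (fun t : ℕ × ℕ => t.1.Coprime t.2 ∧ ∀ j,
        fv (fun j => e.1 * αb j) (fun j => e.2 * βb j) (t.1 : ℤ) (t.2 : ℤ) j ≠ 0),
        (4 : ℝ) ^ Module.finrank ℤ
          (EAB ((g : ℤ) * fv (fun j => e.1 * αb j) (fun j => e.2 * βb j) (t.1 : ℤ) (t.2 : ℤ) 0)
          ((g : ℤ) * fv (fun j => e.1 * αb j) (fun j => e.2 * βb j) (t.1 : ℤ) (t.2 : ℤ) 1)).toAffine.Point ≤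
        C * 4096 ^ g.primeFactors.card * (X : ℝ) ^ 2 := by
    intro e he
    have he' := mem_sgs.1 he
    have he1 : e.1 ≠ 0 := by rcases he'.1 with h | h <;> rw [h] <;> norm_num
    have he2 : e.2 ≠ 0 := by rcases he'.2 with h | h <;> rw [h] <;> norm_num
    refine avg_g (fun j => e.1 * αb j) (fun j => e.2 * βb j)
      (fun j => mul_ne_zero he1 (by revert j; decide))
      (fun j l hjl => by
        rw [Res_sign]
        exact mul_ne_zero (mul_ne_zero he1 he2) (by revert j l; decide))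
      (fun u v => ?_)
    rw [fv_sign, fb0, fb1, fb2]
  choose! Ce hCe0 hCe using hquad
  obtain ⟨D1, hD10, hD1⟩ := rank_triv (f := fv αb βb 1 0) (by decide) (by decide)
  obtain ⟨D2, hD20, hD2⟩ := rank_triv (f := fv αb βb (-1) 0) (by decide) (by decide)
  have hS0 : 0 ≤ ∑ e ∈ sgs, Ce e := sum_nonneg fun e he => hCe0 e he
  refine ⟨(∑ e ∈ sgs, Ce e + (D1 + D2)) * ((2 + 1 : ℕ) : ℝ) ^ 2, by positivity,
    fun g hg T hT => ?_⟩
  have hW : (0 : ℝ) < 4096 ^ g.primeFactors.card := by positivity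
  set G : ℤ × ℤ → ℝ := fun t => if IsCoprime t.1 t.2 ∧ t.1 ≠ 0 ∧ t.2 + 2 * t.1 ≠ 0 ∧
    t.1 ≠ t.2 + 2 * t.1 then (4 : ℝ) ^ Module.finrank ℤ
      (EAB ((g : ℤ) * t.1) ((g : ℤ) * (t.2 + 2 * t.1))).toAffine.Point else 0 with hG
  have hG0 : ∀ t, 0 ≤ G t := by
    intro t
    rw [hG]
    simp only
    split_ifs
    · positivity
    · exact le_rfl
  have hGc : ∀ t, G t ≠ 0 → IsCoprime t.1 t.2 := by
    intro t ht
    by_contra h
    apply ht
    rw [hG]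
    simp only
    rw [if_neg (fun h' => h h'.1)]
  have hq : ∀ e ∈ sgs, ∀ X : ℕ, 1 ≤ X → ∑ t ∈ Icc 1 X ×ˢ Icc 1 X,
      G (e.1 * ((t.1 : ℕ) : ℤ), e.2 * ((t.2 : ℕ) : ℤ)) ≤
        Ce e * 4096 ^ g.primeFactors.card * (X : ℝ) ^ 2 := by
    intro e he X hX
    have he' := mem_sgs.1 he
    refine le_trans ?_ (hCe e he g hg X hX)
    rw [sum_filter]
    apply sum_le_sum
    intro t _
    rw [hG]
    simp only
    by_cases h : IsCoprime (e.1 * ((t.1 : ℕ) : ℤ)) (e.2 * ((t.2 : ℕ) : ℤ)) ∧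
        e.1 * ((t.1 : ℕ) : ℤ) ≠ 0 ∧ e.2 * ((t.2 : ℕ) : ℤ) + 2 * (e.1 * ((t.1 : ℕ) : ℤ)) ≠ 0 ∧
        e.1 * ((t.1 : ℕ) : ℤ) ≠ e.2 * ((t.2 : ℕ) : ℤ) + 2 * (e.1 * ((t.1 : ℕ) : ℤ))
    · rw [if_pos h, fv_sign, fb0, fb1, if_pos]
      refine ⟨?_, ?_⟩
      · have h1 := h.1
        rw [Int.isCoprime_iff_gcd_eq_one] at h1
        have h2 : Int.gcd (e.1 * ((t.1 : ℕ) : ℤ)) (e.2 * ((t.2 : ℕ) : ℤ)) = Nat.gcd t.1 t.2 := by
          rcases he'.1 with h3 | h3 <;> rcases he'.2 with h4 | h4 <;> rw [h3, h4] <;> simp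
        rw [h2] at h1
        exact h1
      · intro j
        have hj : j = 0 ∨ j = 1 ∨ j = 2 := by
          revert j
          decide
        rcases hj with rfl | rfl | rfl
        · rw [fb0]
          exact h.2.1
        · rw [fb1]
          exact h.2.2.1
        · rw [fb2]
          exact sub_ne_zero.2 h.2.2.2
    · rw [if_neg h]
      split_ifs
      · positivity
      · exact le_rfl
  have h1 := box_shift G hG0 2 T
  have h2 := box_le G hG0 hGc ((2 + 1) * T)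
  have hX1 : 1 ≤ (2 + 1) * T := Nat.mul_pos (Nat.succ_pos 2) hT
  have hXr : (1 : ℝ) ≤ (((2 + 1) * T : ℕ) : ℝ) ^ 2 := by
    apply one_le_pow₀
    exact_mod_cast hX1
  have h3 : ∑ e ∈ sgs, ∑ t ∈ Icc 1 ((2 + 1) * T) ×ˢ Icc 1 ((2 + 1) * T),
      G (e.1 * ((t.1 : ℕ) : ℤ), e.2 * ((t.2 : ℕ) : ℤ)) ≤
      (∑ e ∈ sgs, Ce e) * 4096 ^ g.primeFactors.card * (((2 + 1) * T : ℕ) : ℝ) ^ 2 := by
    rw [sum_mul, sum_mul]
    exact sum_le_sum fun e he => hq e he _ hX1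
  have h4 : G (0, 1) + G (0, -1) + G (1, 0) + G (-1, 0) ≤
      (D1 + D2) * 4096 ^ g.primeFactors.card * (((2 + 1) * T : ℕ) : ℝ) ^ 2 := by
    have a1 : G (0, 1) = 0 := by
      rw [hG]
      simp
    have a2 : G (0, -1) = 0 := by
      rw [hG]
      simp
    have a3 : G (1, 0) ≤ D1 * 4096 ^ g.primeFactors.card := by
      have := hD1 g hg
      rw [fb0, fb1] at this
      rw [hG]
      simp only
      split_ifs
      · exact this
      · positivity
    have a4 : G (-1, 0) ≤ D2 * 4096 ^ g.primeFactors.card := by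
      have := hD2 g hg
      rw [fb0, fb1] at this
      rw [hG]
      simp only
      split_ifs
      · exact this
      · positivity
    rw [a1, a2, zero_add, zero_add]
    calc G (1, 0) + G (-1, 0) ≤ (D1 + D2) * 4096 ^ g.primeFactors.card := by linarith
      _ ≤ _ := le_mul_of_one_le_right (by positivity) hXr
  have h5 : ∑ t ∈ (Box T).filter (fun t : ℤ × ℤ =>
      IsCoprime t.1 t.2 ∧ t.1 ≠ 0 ∧ t.2 ≠ 0 ∧ t.1 ≠ t.2),
      (4 : ℝ) ^ Module.finrank ℤ (EAB ((g : ℤ) * t.1) ((g : ℤ) * t.2)).toAffine.Point =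
      ∑ t ∈ Box T, G (t.1, t.2 - (2 : ℕ) * t.1) := by
    rw [sum_filter]
    apply sum_congr rfl
    intro t _
    have h6 : t.2 - (2 : ℕ) * t.1 + 2 * t.1 = t.2 := by push_cast; ring
    have h7 : IsCoprime t.1 (t.2 - (2 : ℕ) * t.1) ↔ IsCoprime t.1 t.2 := by
      have : t.2 - (2 : ℕ) * t.1 = t.2 + (-((2 : ℕ) : ℤ)) * t.1 := by ring
      rw [this]
      exact IsCoprime.add_mul_right_right_iff
    rw [hG]
    simp only
    rw [h6]
    simp only [h7]
  rw [h5]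
  calc _ ≤ _ := h1
    _ ≤ _ := h2
    _ ≤ (∑ e ∈ sgs, Ce e) * 4096 ^ g.primeFactors.card * (((2 + 1) * T : ℕ) : ℝ) ^ 2 +
        (D1 + D2) * 4096 ^ g.primeFactors.card * (((2 + 1) * T : ℕ) : ℝ) ^ 2 := add_le_add h3 h4
    _ = _ := by
      push_cast
      ring

/-- `c ^ ω(g)` is small -/
lemma pow_omega_le (c : ℕ) (hc : 1 ≤ c) (g : ℕ) (hg : 1 ≤ g) :
    (c : ℝ) ^ g.primeFactors.card ≤ (c : ℝ) ^ (c ^ 2) * Real.sqrt g := by
  classical
  set S := g.primeFactors.filter (fun p => p < c ^ 2) with hS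
  set L := g.primeFactors.filter (fun p => ¬ p < c ^ 2) with hL
  have hcr : (1 : ℝ) ≤ c := by exact_mod_cast hc
  have hcard : g.primeFactors.card = S.card + L.card :=
    (card_filter_add_card_filter_not _).symm
  have h1 : S.card ≤ c ^ 2 := by
    have : S ⊆ range (c ^ 2) := by
      intro p hp
      exact mem_range.2 (mem_filter.1 hp).2
    simpa using card_le_card this
  have h2 : (c : ℝ) ^ L.card ≤ Real.sqrt g := by
    apply Real.le_sqrt_of_sq_le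
    have h3 : (c ^ 2) ^ L.card ≤ ∏ p ∈ L, p :=
      Finset.pow_card_le_prod _ _ _ (fun p hp => by
        have := (mem_filter.1 hp).2
        omega)
    have h4 : ∏ p ∈ L, p ≤ g :=
      Nat.le_of_dvd hg ((prod_dvd_prod_of_subset _ _ _ (filter_subset _ _)).trans
        (Nat.prod_primeFactors_dvd _))
    have h5 : (c ^ L.card) ^ 2 ≤ g := by
      rw [← pow_mul, mul_comm, pow_mul]
      exact h3.trans h4
    exact_mod_cast h5
  rw [hcard, pow_add]
  apply mul_le_mul _ h2 (by positivity) (by positivity)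
  exact pow_le_pow_right₀ hcr h1

/-- the box -/
theorem box_all : ∃ C : ℝ, 0 ≤ C ∧ ∀ T : ℕ, 1 ≤ T →
    ∑ t ∈ (Box T).filter (fun t : ℤ × ℤ => t.1 ≠ 0 ∧ t.2 ≠ 0 ∧ t.1 ≠ t.2),
      (4 : ℝ) ^ Module.finrank ℤ (EAB t.1 t.2).toAffine.Point ≤ C * (T : ℝ) ^ 2 := by
  classical
  obtain ⟨C, hC0, hC⟩ := box_g
  have hsq : Summable (fun n : ℕ => 1 / (n : ℝ) ^ (3 / 2 : ℝ)) :=
    Real.summable_one_div_nat_rpow.2 (by norm_num)
  set Z : ℝ := ∑' n : ℕ, 1 / (n : ℝ) ^ (3 / 2 : ℝ) with hZ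
  have hZ0 : 0 ≤ Z := tsum_nonneg fun n => by positivity
  obtain ⟨W, hW0, hW⟩ : ∃ W : ℝ, 0 ≤ W ∧ ∀ g : ℕ, 1 ≤ g →
      ((4096 : ℕ) : ℝ) ^ g.primeFactors.card ≤ W * Real.sqrt g :=
    ⟨_, by positivity, fun g hg => pow_omega_le 4096 (by norm_num) g hg⟩
  refine ⟨C * W * Z, by positivity, fun T hT => ?_⟩
  set S := (Box T).filter (fun t : ℤ × ℤ => t.1 ≠ 0 ∧ t.2 ≠ 0 ∧ t.1 ≠ t.2) with hS
  set F : ℤ × ℤ → ℝ := fun t => (4 : ℝ) ^ Module.finrank ℤ (EAB t.1 t.2).toAffine.Point with hF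
  have hmap : ∀ t ∈ S, Int.gcd t.1 t.2 ∈ Icc 1 T := by
    intro t ht
    rw [hS, mem_filter, mem_Box] at ht
    rw [mem_Icc]
    refine ⟨Int.gcd_pos_of_ne_zero_left _ ht.2.1, ?_⟩
    have h1 : Int.gcd t.1 t.2 ∣ t.1.natAbs := Int.gcd_dvd_natAbs_left _ _
    exact (Nat.le_of_dvd (Int.natAbs_pos.2 ht.2.1) h1).trans ht.1.1
  have hsplit : ∑ t ∈ S, F t = ∑ g ∈ Icc 1 T, ∑ t ∈ S.filter (fun t => Int.gcd t.1 t.2 = g), F t :=
    (sum_fiberwise_of_maps_to hmap F).symm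
  have hone : ∀ g ∈ Icc 1 T, ∑ t ∈ S.filter (fun t => Int.gcd t.1 t.2 = g), F t ≤
      C * W * (T : ℝ) ^ 2 * (1 / (g : ℝ) ^ (3 / 2 : ℝ)) := by
    intro g hg
    rw [mem_Icc] at hg
    have hg0 : (0 : ℝ) < g := by exact_mod_cast hg.1
    have hgz : (g : ℤ) ≠ 0 := by exact_mod_cast (by omega : g ≠ 0)
    have hTg : 1 ≤ T / g := (Nat.one_le_div_iff hg.1).2 hg.2
    have h1 := hC g hg.1 (T / g) hTg
    have h2 : ∑ t ∈ S.filter (fun t => Int.gcd t.1 t.2 = g), F t ≤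
        ∑ t ∈ (Box (T / g)).filter (fun t : ℤ × ℤ =>
      IsCoprime t.1 t.2 ∧ t.1 ≠ 0 ∧ t.2 ≠ 0 ∧ t.1 ≠ t.2),
      (4 : ℝ) ^ Module.finrank ℤ (EAB ((g : ℤ) * t.1) ((g : ℤ) * t.2)).toAffine.Point := by
      have hback : ∀ t ∈ S.filter (fun t => Int.gcd t.1 t.2 = g),
          (g : ℤ) * (t.1 / g) = t.1 ∧ (g : ℤ) * (t.2 / g) = t.2 := by
        intro t ht
        have hgt := (mem_filter.1 ht).2
        have d1 : (g : ℤ) ∣ t.1 := by
          rw [← hgt]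
          exact Int.gcd_dvd_left _ _
        have d2 : (g : ℤ) ∣ t.2 := by
          rw [← hgt]
          exact Int.gcd_dvd_right _ _
        exact ⟨Int.mul_ediv_cancel' d1, Int.mul_ediv_cancel' d2⟩
      set φ : ℤ × ℤ → ℤ × ℤ := fun t => (t.1 / g, t.2 / g) with hφ
      have hinj : Set.InjOn φ (S.filter (fun t => Int.gcd t.1 t.2 = g) : Set (ℤ × ℤ)) := by
        intro t ht t' ht' h
        have b1 := hback t (mem_coe.1 ht)
        have b2 := hback t' (mem_coe.1 ht')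
        have h3 : t.1 / g = t'.1 / g := congrArg Prod.fst h
        have h4 : t.2 / g = t'.2 / g := congrArg Prod.snd h
        apply Prod.ext
        · rw [← b1.1, ← b2.1, h3]
        · rw [← b1.2, ← b2.2, h4]
      have h3 : ∑ t ∈ S.filter (fun t => Int.gcd t.1 t.2 = g), F t =
          ∑ t ∈ (S.filter (fun t => Int.gcd t.1 t.2 = g)).image φ,
            (4 : ℝ) ^ Module.finrank ℤ (EAB ((g : ℤ) * t.1) ((g : ℤ) * t.2)).toAffine.Point := by
        rw [sum_image hinj]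
        apply sum_congr rfl
        intro t ht
        obtain ⟨b1, b2⟩ := hback t ht
        rw [hφ, hF]
        simp only
        rw [b1, b2]
      rw [h3]
      apply sum_le_sum_of_subset_of_nonneg
      · intro t' ht'
        obtain ⟨t, ht, rfl⟩ := mem_image.1 ht'
        obtain ⟨b1, b2⟩ := hback t ht
        have hgt := (mem_filter.1 ht).2
        have htS := (mem_filter.1 ht).1
        rw [hS, mem_filter, mem_Box] at htS
        rw [mem_filter, mem_Box, hφ]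
        simp only
        have habs : ∀ x : ℤ, (g : ℤ) * (x / g) = x → x.natAbs ≤ T → (x / g).natAbs ≤ T / g := by
          intro x hx hxT
          rw [Nat.le_div_iff_mul_le (by omega), mul_comm]
          have : (g : ℤ).natAbs * (x / g).natAbs = x.natAbs := by
            rw [← Int.natAbs_mul, hx]
          rw [Int.natAbs_natCast] at this
          omega
        refine ⟨⟨habs _ b1 htS.1.1, habs _ b2 htS.1.2⟩, ?_, ?_, ?_, ?_⟩
        · rw [Int.isCoprime_iff_gcd_eq_one]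
          have h4 := Int.gcd_mul_left (g : ℤ) (t.1 / g) (t.2 / g)
          rw [b1, b2, hgt, Int.natAbs_natCast] at h4
          have : g * 1 = g * Int.gcd (t.1 / g) (t.2 / g) := by rw [mul_one]; exact h4
          exact (Nat.eq_of_mul_eq_mul_left (by omega) this).symm
        · intro h
          apply htS.2.1
          rw [← b1, h, mul_zero]
        · intro h
          apply htS.2.2.1
          rw [← b2, h, mul_zero]
        · intro h
          apply htS.2.2.2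
          rw [← b1, ← b2, h]
      · intro t _ _
        positivity
    have h3 : ((T / g : ℕ) : ℝ) ^ 2 ≤ (T : ℝ) ^ 2 / (g : ℝ) ^ 2 := by
      rw [← div_pow]
      apply pow_le_pow_left₀ (Nat.cast_nonneg _)
      exact Nat.cast_div_le
    have h4 := hW g hg.1
    have h5 : Real.sqrt g * (1 / (g : ℝ) ^ 2) = 1 / (g : ℝ) ^ (3 / 2 : ℝ) := by
      have hg2 : (0 : ℝ) < (g : ℝ) ^ 2 := by positivity
      have hg3 : (0 : ℝ) < (g : ℝ) ^ (3 / 2 : ℝ) := by positivity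
      rw [Real.sqrt_eq_rpow, mul_one_div, div_eq_div_iff hg2.ne' hg3.ne', one_mul,
        ← Real.rpow_natCast, ← Real.rpow_add hg0]
      norm_num
    calc _ ≤ _ := h2
      _ ≤ _ := h1
      _ ≤ C * (W * Real.sqrt g) * ((T : ℝ) ^ 2 / (g : ℝ) ^ 2) := by
          apply mul_le_mul _ h3 (by positivity) (by positivity)
          apply mul_le_mul_of_nonneg_left _ hC0
          exact_mod_cast h4
      _ = C * W * (T : ℝ) ^ 2 * (Real.sqrt g * (1 / (g : ℝ) ^ 2)) := by ring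
      _ = _ := by rw [h5]
  rw [hsplit]
  refine (sum_le_sum hone).trans ?_
  rw [← mul_sum]
  have h6 : ∑ g ∈ Icc 1 T, 1 / (g : ℝ) ^ (3 / 2 : ℝ) ≤ Z :=
    hsq.sum_le_tsum (Icc 1 T) (fun n _ => by positivity)
  calc C * W * (T : ℝ) ^ 2 * ∑ g ∈ Icc 1 T, 1 / (g : ℝ) ^ (3 / 2 : ℝ) ≤
      C * W * (T : ℝ) ^ 2 * Z := mul_le_mul_of_nonneg_left h6 (by positivity)
    _ = _ := by ring

end Pool.Agent.H514
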