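import Pool.Agent.H457.A.Comb

/-!
# The `k`-th moment: the largest unlinked set
-/

set_option autoImplicit false

namespace Pool.Agent.H514

open Finset Pool.Agent.W262.RK Pool.Agent.H457.A

section count

/-- the singular vectors of the hyperbolic quadric -/
def Tq (k : ℕ) : Finset (Fin k → ZMod 2 × ZMod 2) :=
  univ.filter (fun q => ∑ r, (q r).1 * (q r).2 = 0)

lemma Tq_card (k : ℕ) : 2 * (Tq k).card = 4 ^ k + 2 ^ k := by
  have hs : ((-1 : ℝ)) * (-1) = 1 := by norm_num
  have h1 : ∑ q : Fin k → ZMod 2 × ZMod 2, (1 + pw (-1) (∑ r, (q r).1 * (q r).2)) =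
      2 * ((Tq k).card : ℝ) := by
    unfold Tq
    rw [card_filter]
    push_cast
    rw [mul_sum]
    refine sum_congr rfl fun q _ => ?_
    have h01 : ∀ a : ZMod 2, a = 0 ∨ a = 1 := by decide
    rcases h01 (∑ r, (q r).1 * (q r).2) with h | h
    · rw [h, pw_zero, if_pos rfl]
      norm_num
    · rw [h, if_neg (by decide)]
      unfold pw
      rw [if_pos rfl]
      norm_num
  have h2 : ∑ q : Fin k → ZMod 2 × ZMod 2, pw (-1) (∑ r, (q r).1 * (q r).2) = 2 ^ k := by
    have h3 : ∀ q : Fin k → ZMod 2 × ZMod 2, pw (-1) (∑ r, (q r).1 * (q r).2) =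
        ∏ r, pw (-1) ((q r).1 * (q r).2) := fun q => pw_sum hs _ _
    rw [sum_congr rfl fun q _ => h3 q]
    have h4 := Finset.prod_univ_sum (fun _ : Fin k => (univ : Finset (ZMod 2 × ZMod 2)))
      (fun (_ : Fin k) (b : ZMod 2 × ZMod 2) => pw (-1) (b.1 * b.2))
    rw [Fintype.piFinset_univ] at h4
    rw [← h4, prod_const, card_univ, Fintype.card_fin]
    congr 1
    rw [Fintype.sum_prod_type]
    have h5 : ∀ G : ZMod 2 → ℝ, ∑ a : ZMod 2, G a = G 0 + G 1 := fun G => Fin.sum_univ_two G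
    rw [h5, h5, h5]
    simp only [mul_zero, mul_one, pw_zero]
    unfold pw
    rw [if_pos rfl]
    norm_num
  rw [sum_add_distrib, h2, sum_const, card_univ, Fintype.card_fun, Fintype.card_prod, ZMod.card,
    Fintype.card_fin, nsmul_eq_mul, mul_one] at h1
  push_cast at h1
  have h6 : ((2 * (Tq k).card : ℕ) : ℝ) = ((4 ^ k + 2 ^ k : ℕ) : ℝ) := by
    push_cast
    rw [← h1]
  exact_mod_cast h6

/-- indicator of a nonzero vector -/
def nzi (v : Z2) : ZMod 2 := if v = 0 then 0 else 1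

lemma A4_inV : ∀ (c : Fin 4) (v x : Z2), c ≠ 3 → A4 c v x = true →
    (v = 0 ∨ v = ez c) ∧ (x = 0 ∨ x = (ez c).swap) := by
  decide

lemma nzi_e : ∀ (c : Fin 4), c ≠ 3 → nzi (ez c) = 1 ∧ nzi (ez c).swap = 1 := by
  decide

lemma nzi_z : nzi 0 = 0 := by decide

lemma nzi_in {e v v' : Z2} (he : nzi e = 1) (hv : v = 0 ∨ v = e) (hv' : v' = 0 ∨ v' = e)
    (h : nzi v = nzi v') : v = v' := by
  have h10 : (1 : ZMod 2) ≠ 0 := by decide
  rcases hv with rfl | rfl <;> rcases hv' with rfl | rfl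
  · rfl
  · rw [he, nzi_z] at h
    exact absurd h.symm h10
  · rw [he, nzi_z] at h
    exact absurd h h10
  · rfl

lemma nzi_inj (c : Fin 4) (v x v' x' : Z2) (hc : c ≠ 3) (h : A4 c v x = true)
    (h' : A4 c v' x' = true) (h1 : nzi v = nzi v') (h2 : nzi x = nzi x') : v = v' ∧ x = x' := by
  have a := A4_inV c v x hc h
  have a' := A4_inV c v' x' hc h'
  have e := nzi_e c hc
  exact ⟨nzi_in e.1 a.1 a'.1 h1, nzi_in e.2 a.2 a'.2 h2⟩

lemma nzi_mul : ∀ v x : Z2, nz v x = nzi v * nzi x := by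
  decide

end count

variable {k : ℕ}

/-- the classes -/
abbrev clsK : Fin 3 → Fin 4 := Fin.castSucc

/-- all the signs are random -/
abbrev flK : Fin 3 → Bool := fun _ => true

lemma clsK_ne : ∀ j : Fin 3, clsK j ≠ 3 := by decide

lemma clsK_inj : ∀ i j : Fin 3, i ≠ j → clsK i ≠ clsK j := by decide

/-- the types -/
abbrev PK (k : ℕ) : Fin 3 → Vk k → Vk k → Bool := P4 k clsK flK

lemma PK_A4 {j : Fin 3} {v x : Vk k} (h : PK k j v x = true) : ∀ r, A4 (clsK j) (v r) (x r) = true := by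
  unfold PK P4 at h
  rw [Bool.and_eq_true, decide_eq_true_eq] at h
  exact h.1

lemma PK_nz {j : Fin 3} {v x : Vk k} (h : PK k j v x = true) : ∑ r, nzi (v r) * nzi (x r) = 0 := by
  unfold PK P4 at h
  rw [Bool.and_eq_true, decide_eq_true_eq, decide_eq_true_eq] at h
  rw [← h.2]
  refine sum_congr rfl fun r _ => ?_
  unfold ν4
  rw [if_neg (clsK_ne j), if_pos rfl, nzi_mul]

/-- the number of the indices of a class -/
lemma card_class (j : Fin 3) :
    (univ.filter (fun i : IK (PK k) => i.1.1 = j)).card ≤ (Tq k).card := by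
  apply Finset.card_le_card_of_injOn
    (fun i : IK (PK k) => fun r => (nzi (i.1.2.1 r), nzi (i.1.2.2 r)))
  · intro i hi
    rw [mem_coe, mem_filter] at hi
    unfold Tq
    rw [mem_coe, mem_filter]
    exact ⟨mem_univ _, PK_nz i.2⟩
  · intro i hi i' hi' h
    rw [mem_coe, mem_filter] at hi hi'
    have hr : ∀ r, i.1.2.1 r = i'.1.2.1 r ∧ i.1.2.2 r = i'.1.2.2 r := by
      intro r
      have h1 := congrFun h r
      simp only [Prod.mk.injEq] at h1
      have a1 := PK_A4 i.2 r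
      have a2 := PK_A4 i'.2 r
      rw [hi.2] at a1
      rw [hi'.2] at a2
      exact nzi_inj (clsK j) _ _ _ _ (clsK_ne j) a1 a2 h1.1 h1.2
    apply Subtype.ext
    refine Prod.ext (hi.2.trans hi'.2.symm) (Prod.ext ?_ ?_)
    · funext r
      exact (hr r).1
    · funext r
      exact (hr r).2

lemma z2_add : ∀ (e a b : Z2), (a = 0 ∨ a = e) → (b = 0 ∨ b = e) → (a + b = 0 ∨ a + b = e) := by
  decide

lemma z2_smul : ∀ (e a : Z2) (s : ZMod 2), (a = 0 ∨ a = e) → (s • a = 0 ∨ s • a = e) := by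
  decide

/-- the Lagrangian subspace -/
def LV (k : ℕ) (c : Fin 4) : Submodule (ZMod 2) (Vk k × Vk k) where
  carrier := {m | inV c m}
  zero_mem' := fun _ => ⟨Or.inl rfl, Or.inl rfl⟩
  add_mem' := fun {_ _} ha hb r => ⟨z2_add _ _ _ (ha r).1 (hb r).1, z2_add _ _ _ (ha r).2 (hb r).2⟩
  smul_mem' := fun s {_} ha r => ⟨z2_smul _ _ s (ha r).1, z2_smul _ _ s (ha r).2⟩

lemma mem_LV {c : Fin 4} {m : Vk k × Vk k} : m ∈ LV k c ↔ inV c m := Iff.rfl

open Classical in
/-- the size of the subspaces of the Lagrangian subspace -/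
lemma pow_card (S : Submodule (ZMod 2) (Vk k × Vk k)) (c : Fin 4) :
    ∃ d, (univ.filter (fun m => m ∈ S ∧ inV c m)).card = 2 ^ d := by
  have h1 : (univ.filter (fun m => m ∈ S ∧ inV c m)).card =
      Fintype.card (S ⊓ LV k c : Submodule (ZMod 2) (Vk k × Vk k)) := by
    rw [Fintype.card_subtype]
    congr 1
    ext m
    simp only [mem_filter, mem_univ, true_and, Submodule.mem_inf, mem_LV]
  rw [h1, Module.card_eq_pow_finrank (K := ZMod 2)
    (V := (S ⊓ LV k c : Submodule (ZMod 2) (Vk k × Vk k))), ZMod.card]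
  exact ⟨_, rfl⟩

lemma arith3 {t x y z u v w N : ℕ} (ht : 4 ≤ t) (hN : 2 * N = t * t + t)
    (hx : 1 ≤ x) (hy : 1 ≤ y) (hz : 1 ≤ z)
    (hxy : x * y ≤ t * t) (hxz : x * z ≤ t * t) (hyz : y * z ≤ t * t)
    (hx2 : x = t * t ∨ 2 * x ≤ t * t) (hy2 : y = t * t ∨ 2 * y ≤ t * t)
    (hz2 : z = t * t ∨ 2 * z ≤ t * t)
    (hu : u ≤ x) (hv : v ≤ y) (hw : w ≤ z) (hu' : u ≤ N) (hv' : v ≤ N) (hw' : w ≤ N) :
    2 * (u + v + w) ≤ t * t + t + 4 := by
  have htt : 0 < t * t := by positivity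
  -- a full piece
  have full : ∀ {a b : ℕ}, 1 ≤ b → a = t * t → a * b ≤ t * t → b ≤ 1 := by
    intro a b hb ha hab
    rw [ha] at hab
    by_contra h
    push Not at h
    nlinarith
  rcases hx2 with hx2 | hx2
  · have h1 := full hy hx2 hxy
    have h2 := full hz hx2 hxz
    omega
  rcases hy2 with hy2 | hy2
  · have h1 := full hx hy2 (by rw [mul_comm]; exact hxy)
    have h2 := full hz hy2 hyz
    omega
  rcases hz2 with hz2 | hz2
  · have h1 := full hx hz2 (by rw [mul_comm]; exact hxz)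
    have h2 := full hy hz2 (by rw [mul_comm]; exact hyz)
    omega
  have key : ∀ {a b c : ℕ}, t < a → 2 * a ≤ t * t → a * b ≤ t * t → a * c ≤ t * t →
      2 * (a + b + c) ≤ t * t + t + 4 := by
    intro a b c h1 h2 h3 h4
    have h5 : a * (2 * (a + b + c)) ≤ a * (t * t + t + 4) := by
      have h6 : (0 : ℤ) ≤ ((a : ℤ) - 4) * ((t : ℤ) * t - 2 * a) := by
        apply mul_nonneg
        · have : (4 : ℤ) ≤ a := by exact_mod_cast (by omega : 4 ≤ a)
          linarith
        · have : (2 : ℤ) * a ≤ t * t := by exact_mod_cast h2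
          linarith
      have h7 : (a : ℤ) * b ≤ t * t := by exact_mod_cast h3
      have h8 : (a : ℤ) * c ≤ t * t := by exact_mod_cast h4
      have h9 : (0 : ℤ) ≤ (a : ℤ) * ((t : ℤ) - 4) := by
        apply mul_nonneg (by positivity)
        have : (4 : ℤ) ≤ t := by exact_mod_cast ht
        linarith
      have h10 : (a : ℤ) * (2 * (a + b + c)) ≤ a * (t * t + t + 4) := by nlinarith
      exact_mod_cast h10
    exact Nat.le_of_mul_le_mul_left h5 (by omega)
  by_cases hxt : t < x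
  · have := key hxt hx2 hxy hxz
    omega
  by_cases hyt : t < y
  · have := key hyt hy2 (by rw [mul_comm]; exact hxy) hyz
    omega
  by_cases hzt : t < z
  · have := key hzt hz2 (by rw [mul_comm]; exact hxz) (by rw [mul_comm]; exact hyz)
    omega
  push Not at hxt hyt hzt
  have : 0 ≤ ((t : ℤ) - 1) * ((t : ℤ) - 4) := by
    have : (4 : ℤ) ≤ t := by exact_mod_cast ht
    apply mul_nonneg <;> linarith
  have h2 : (6 : ℤ) * t ≤ t * t + t + 4 := by nlinarith
  have h3 : 6 * t ≤ t * t + t + 4 := by exact_mod_cast h2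
  omega

/-- the largest unlinked set -/
theorem combk (hk : 2 ≤ k) (U : Finset (IK (PK k)))
    (hU : ∀ i ∈ U, ∀ j ∈ U, LK (PK k) i j = LK (PK k) j i) : 2 * U.card ≤ 4 ^ k + 2 ^ k + 4 := by
  classical
  set S : Submodule (ZMod 2) (Vk k × Vk k) :=
    Submodule.span (ZMod 2) ((U.image (fun i : IK (PK k) => i.1.2) : Finset (Vk k × Vk k)) :
      Set (Vk k × Vk k)) with hS
  have h01 : ∀ a b : ZMod 2, decide (a = 1) = decide (b = 1) → a + b = 0 := by decide
  have hgen : ∀ i ∈ U, ∀ i' ∈ U, Bf k i.1.2 i'.1.2 = 0 := by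
    intro i hi i' hi'
    rw [Bf_apply]
    exact h01 _ _ (hU i hi i' hi')
  have hiso : ∀ m ∈ S, ∀ n ∈ S, Bf k m n = 0 := by
    intro m hm n hn
    refine Submodule.span_induction (p := fun m _ => Bf k m n = 0) ?_ ?_ ?_ ?_ hm
    · intro m hm'
      refine Submodule.span_induction (p := fun n _ => Bf k m n = 0) ?_ ?_ ?_ ?_ hn
      · intro n hn'
        obtain ⟨i, hi, rfl⟩ := mem_image.1 (mem_coe.1 hm')
        obtain ⟨i', hi', rfl⟩ := mem_image.1 (mem_coe.1 hn')
        exact hgen i hi i' hi'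
      · rw [map_zero]
      · intro x y _ _ hx hy
        rw [map_add, hx, hy, add_zero]
      · intro a x _ hx
        rw [map_smul, hx, smul_zero]
    · rw [map_zero, LinearMap.zero_apply]
    · intro x y _ _ hx hy
      rw [map_add, LinearMap.add_apply, hx, hy, add_zero]
    · intro a x _ hx
      rw [map_smul, LinearMap.smul_apply, hx, smul_zero]
  have hScard : (univ.filter (fun m => m ∈ S)).card ≤ 4 ^ k := by
    have h1 := iso_card S hiso
    have h2 : (16 : ℕ) ^ k = (4 ^ k) ^ 2 := by rw [← pow_mul, mul_comm k 2, pow_mul]; norm_num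
    rw [h2] at h1
    exact (Nat.pow_le_pow_iff_left two_ne_zero).1 h1
  set x : Fin 3 → ℕ := fun j => (univ.filter (fun m => m ∈ S ∧ inV (clsK j) m)).card with hx
  set u : Fin 3 → ℕ := fun j => (U.filter (fun i => i.1.1 = j)).card with hu
  have hprod : ∀ i j : Fin 3, i ≠ j → x i * x j ≤ 4 ^ k := by
    intro i j hij
    refine (piece_card S (inV (clsK i)) (inV (clsK j)) (inV_sub _) (inV_sub _)
      (fun m hm hm' => inV_zero (clsK_ne i) (clsK_ne j) (clsK_inj i j hij) m hm hm')).trans hScard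
  have hx1 : ∀ j, 1 ≤ x j := by
    intro j
    apply card_pos.2
    refine ⟨0, ?_⟩
    rw [mem_filter]
    exact ⟨mem_univ _, S.zero_mem, fun r => ⟨Or.inl rfl, Or.inl rfl⟩⟩
  have hxle : ∀ j, x j ≤ 4 ^ k := fun j => by
    refine le_trans (card_le_card ?_) hScard
    intro m hm
    rw [mem_filter] at hm ⊢
    exact ⟨hm.1, hm.2.1⟩
  have h4 : (4 : ℕ) ^ k = 2 ^ (2 * k) := by rw [pow_mul]; norm_num
  have hx2 : ∀ j, x j = 4 ^ k ∨ 2 * x j ≤ 4 ^ k := by
    intro j
    obtain ⟨d, hd⟩ := pow_card S (clsK j)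
    have h1 : x j = 2 ^ d := by
      rw [← hd]
    have h2 := hxle j
    rw [h1, h4] at h2 ⊢
    have h3 : d ≤ 2 * k := (Nat.pow_le_pow_iff_right (by norm_num)).1 h2
    rcases Nat.lt_or_ge d (2 * k) with h5 | h5
    · right
      rw [← pow_succ']
      exact Nat.pow_le_pow_right (by norm_num) h5
    · left
      rw [le_antisymm h3 h5]
  have hux : ∀ j, u j ≤ x j := by
    intro j
    apply Finset.card_le_card_of_injOn (fun i : IK (PK k) => i.1.2)
    · intro i hi
      rw [mem_coe, mem_filter] at hi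
      rw [mem_coe, mem_filter]
      refine ⟨mem_univ _, Submodule.subset_span (mem_coe.2 (mem_image_of_mem _ hi.1)), ?_⟩
      intro r
      have h1 := PK_A4 i.2 r
      rw [hi.2] at h1
      exact A4_inV _ _ _ (clsK_ne j) h1
    · intro i hi i' hi' h
      rw [mem_coe, mem_filter] at hi hi'
      apply Subtype.ext
      exact Prod.ext (hi.2.trans hi'.2.symm) h
  have huN : ∀ j, u j ≤ (Tq k).card := fun j =>
    (card_le_card (filter_subset_filter _ (subset_univ U))).trans (card_class j)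
  have hsum : U.card = u 0 + u 1 + u 2 := by
    have h1 : U.card = ∑ j : Fin 3, (U.filter (fun i => i.1.1 = j)).card :=
      card_eq_sum_card_fiberwise (fun i _ => mem_univ i.1.1)
    rw [h1, Fin.sum_univ_three]
  have htt : 2 ^ k * 2 ^ k = 4 ^ k := by
    rw [← mul_pow]
    norm_num
  have ht4 : 4 ≤ 2 ^ k := by
    calc 4 = 2 ^ 2 := by norm_num
      _ ≤ 2 ^ k := Nat.pow_le_pow_right (by norm_num) hk
  have hN := Tq_card k
  rw [hsum, ← htt]
  rw [← htt] at hN
  have e := fun i j (h : i ≠ j) => (hprod i j h).trans_eq htt.symm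
  have e2 : ∀ j, x j = 2 ^ k * 2 ^ k ∨ 2 * x j ≤ 2 ^ k * 2 ^ k := by
    rw [htt]
    exact hx2
  exact arith3 ht4 hN (hx1 0) (hx1 1) (hx1 2) (e 0 1 (by decide)) (e 0 2 (by decide))
    (e 1 2 (by decide)) (e2 0) (e2 1) (e2 2) (hux 0) (hux 1) (hux 2) (huN 0) (huN 1) (huN 2)

end Pool.Agent.H514
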