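import Pool.Agent.H514.Defs
import Pool.Graph.R_seed8.W762.RK2.EXP4b

/-!
# Second moment: expansion into symbols
-/

set_option autoImplicit false

namespace Pool.Agent.H514

open Finset Pool.Agent.W262.RK Pool.Agent.W307.RT Pool.Agent.W762.RK2 Pool.Agent.W108.RK

/-- four bits -/
abbrev B4 : Type := (Bool × Bool) × (Bool × Bool)

section local_identity

/-- the character of the class -/
noncomputable def Xc (c : Fin 3) (h g : Bool) : ℝ :=
  if c = 0 then sg h * sg g else if c = 1 then sg g else sg h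

/-- Boolean form of the local condition -/
def LOb (c : Fin 3) (neg : Bool) (v w h g : Bool) : Bool :=
  if c = 0 then decide (v = w) && decide (xor h g = (v && neg))
  else if c = 1 then decide (w = false) && decide (g = (v && neg))
  else decide (v = false) && decide (h = (w && neg))

lemma LO_iff (c : Fin 3) (neg v w h g : Bool) : LO c neg v w h g ↔ LOb c neg v w h g = true := by
  unfold LO LOb
  split_ifs <;> simp

/-- integer sign -/
def sgi (b : Bool) : ℤ := if b = true then -1 else 1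

/-- integer character -/
def Xi (c : Fin 3) (h g : Bool) : ℤ :=
  if c = 0 then sgi h * sgi g else if c = 1 then sgi g else sgi h

/-- integer indicator -/
def ib (b : Bool) : ℤ := if b = true then 1 else 0

/-- one term of the sum -/
def tmi (c : Fin 3) (u1 u2 : Bool × Bool) (h1 g1 h2 g2 : Bool) (a S : Bool × Bool) : ℤ :=
  if u1 = dir c a.1 ∧ u2 = dir c a.2 ∧ orth S a = false then
    (if S.1 = true then Xi c h1 g1 else 1) * (if S.2 = true then Xi c h2 g2 else 1) else 0

/-- sum over two bits -/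
def s4 (f : Bool × Bool → ℤ) : ℤ :=
  f (true, true) + f (true, false) + f (false, true) + f (false, false)

lemma loc_int : ∀ (c : Fin 3) (u1 u2 : Bool × Bool) (h1 g1 h2 g2 : Bool),
    2 * (ib (LOb c true u1.1 u1.2 h1 g1) * ib (LOb c true u2.1 u2.2 h2 g2) +
      ib (LOb c false u1.1 u1.2 h1 g1) * ib (LOb c false u2.1 u2.2 h2 g2)) =
    s4 (fun a => s4 (fun S => tmi c u1 u2 h1 g1 h2 g2 a S)) := by
  decide

lemma sum_bb (f : Bool × Bool → ℤ) : s4 f = ∑ x, f x := by
  rw [Fintype.sum_prod_type, Fintype.sum_bool, Fintype.sum_bool, Fintype.sum_bool]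
  unfold s4
  ring

lemma sg_cast (b : Bool) : sg b = ((sgi b : ℤ) : ℝ) := by
  cases b <;> simp [sg, sgi]

lemma Xc_cast (c : Fin 3) (h g : Bool) : Xc c h g = ((Xi c h g : ℤ) : ℝ) := by
  unfold Xc Xi
  split_ifs <;> simp [sg_cast]

lemma ind_cast (c : Fin 3) (neg v w h g : Bool) :
    ind (LO c neg v w h g) = ((ib (LOb c neg v w h g) : ℤ) : ℝ) := by
  unfold ind ib
  simp only [LO_iff]
  split_ifs <;> simp

lemma loc_id2 (c : Fin 3) (u : B4) (h1 g1 h2 g2 : Bool) :
    (ind (LO c true u.1.1 u.1.2 h1 g1) * ind (LO c true u.2.1 u.2.2 h2 g2) +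
      ind (LO c false u.1.1 u.1.2 h1 g1) * ind (LO c false u.2.1 u.2.2 h2 g2)) / 2 =
    ∑ a : Bool × Bool, ∑ S : Bool × Bool,
      if u = (dir c a.1, dir c a.2) ∧ orth S a = false then
        1 / 4 * ((if S.1 = true then Xc c h1 g1 else 1) *
          (if S.2 = true then Xc c h2 g2 else 1)) else 0 := by
  have h := loc_int c u.1 u.2 h1 g1 h2 g2
  rw [sum_bb] at h
  simp only [sum_bb] at h
  have h' : (((2 : ℤ) * (ib (LOb c true u.1.1 u.1.2 h1 g1) * ib (LOb c true u.2.1 u.2.2 h2 g2) +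
      ib (LOb c false u.1.1 u.1.2 h1 g1) * ib (LOb c false u.2.1 u.2.2 h2 g2)) : ℤ) : ℝ) =
      ((∑ a : Bool × Bool, ∑ S : Bool × Bool, tmi c u.1 u.2 h1 g1 h2 g2 a S : ℤ) : ℝ) := by
    rw [h]
  push_cast at h'
  simp only [ind_cast]
  have h2 : ∀ a S : Bool × Bool, (if u = (dir c a.1, dir c a.2) ∧ orth S a = false then
        (1 : ℝ) / 4 * ((if S.1 = true then Xc c h1 g1 else 1) *
          (if S.2 = true then Xc c h2 g2 else 1)) else 0) =
      1 / 4 * ((tmi c u.1 u.2 h1 g1 h2 g2 a S : ℤ) : ℝ) := by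
    intro a S
    unfold tmi
    have e : (u = (dir c a.1, dir c a.2) ∧ orth S a = false) ↔
        (u.1 = dir c a.1 ∧ u.2 = dir c a.2 ∧ orth S a = false) := by
      rw [Prod.ext_iff]
      tauto
    simp only [e]
    split_ifs <;> simp [Xc_cast]
  simp only [h2]
  simp only [← Finset.mul_sum]
  linarith

end local_identity

section big

variable {z y : ℕ}

/-- the labels -/
abbrev Lb : Type := Option (Fin 3 × B4)

/-- a bit -/
def bt (f : B4 → Bool) (x : Lb) : Bool := x.elim false fun a => f a.2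

/-- a divisor -/
def DD (f : B4 → Bool) (ξ : Pr z y → Lb) : ℕ := nb fun p => bt f (ξ p)

/-- the four divisors -/
def DQ (ξ : Pr z y → Lb) : (ℕ × ℕ) × (ℕ × ℕ) :=
  ((DD (fun u => u.1.1) ξ, DD (fun u => u.1.2) ξ), (DD (fun u => u.2.1) ξ, DD (fun u => u.2.2) ξ))

/-- the tuple -/
def ST (ξ : Pr z y → Lb) : Fin 3 → ℕ := Dl fun p => (ξ p).map Prod.fst

lemma DD_dvd (f : B4 → Bool) (ξ : Pr z y → Lb) : DD f ξ ∣ ∏ j, ST ξ j := by
  unfold ST DD
  rw [prod_Dl]
  refine nb_dvd fun p hp => ?_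
  cases h : ξ p with
  | none => rw [h] at hp; exact absurd hp (by simp [bt])
  | some a => rfl

lemma prod_ST_ne (ξ : Pr z y → Lb) : ∏ j, ST ξ j ≠ 0 := by
  unfold ST
  rw [prod_Dl]
  exact nb_ne_zero _

/-- the set of the quadruples -/
noncomputable def QQ (m : ℕ) : Finset ((ℕ × ℕ) × (ℕ × ℕ)) :=
  (m.divisors ×ˢ m.divisors) ×ˢ (m.divisors ×ˢ m.divisors)

lemma sum_big2 (F : (Fin 3 → ℕ) → (ℕ × ℕ) × (ℕ × ℕ) → ℝ) :
    ∑ s ∈ Tup (Fin 3) z y, ∑ d ∈ QQ (∏ j, s j), F s d =
      ∑ ξ : Pr z y → Lb, F (ST ξ) (DQ ξ) := by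
  rw [Finset.sum_sigma']
  symm
  refine Finset.sum_bij (fun ξ _ => (⟨ST ξ, DQ ξ⟩ : (_ : Fin 3 → ℕ) × ((ℕ × ℕ) × (ℕ × ℕ))))
    ?_ ?_ ?_ (fun _ _ => rfl)
  · intro ξ _
    rw [Finset.mem_sigma]
    unfold QQ
    simp only [Finset.mem_product, Nat.mem_divisors]
    exact ⟨Dl_mem _, ⟨⟨DD_dvd _ ξ, prod_ST_ne ξ⟩, ⟨DD_dvd _ ξ, prod_ST_ne ξ⟩⟩,
      ⟨⟨DD_dvd _ ξ, prod_ST_ne ξ⟩, ⟨DD_dvd _ ξ, prod_ST_ne ξ⟩⟩⟩
  · intro ξ _ ξ' _ h
    have h1 : ST ξ = ST ξ' := congrArg Sigma.fst h
    have h2 : DQ ξ = DQ ξ' := congrArg Sigma.snd h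
    have h3 : DD (fun u => u.1.1) ξ = DD (fun u => u.1.1) ξ' := congrArg (fun d => d.1.1) h2
    have h4 : DD (fun u => u.1.2) ξ = DD (fun u => u.1.2) ξ' := congrArg (fun d => d.1.2) h2
    have h5 : DD (fun u => u.2.1) ξ = DD (fun u => u.2.1) ξ' := congrArg (fun d => d.2.1) h2
    have h6 : DD (fun u => u.2.2) ξ = DD (fun u => u.2.2) ξ' := congrArg (fun d => d.2.2) h2
    funext p
    have e1 : (ξ p).map Prod.fst = (ξ' p).map Prod.fst := congrFun (Dl_inj h1) p
    have e3 := congrFun (nb_inj h3) p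
    have e4 := congrFun (nb_inj h4) p
    have e5 := congrFun (nb_inj h5) p
    have e6 := congrFun (nb_inj h6) p
    cases hx : ξ p with
    | none =>
      cases hx' : ξ' p with
      | none => rfl
      | some a' => rw [hx, hx'] at e1; exact absurd e1 (by simp)
    | some a =>
      cases hx' : ξ' p with
      | none => rw [hx, hx'] at e1; exact absurd e1 (by simp)
      | some a' =>
        rw [hx, hx'] at e1 e3 e4 e5 e6
        obtain ⟨j, ⟨v, w⟩, ⟨v2, w2⟩⟩ := a
        obtain ⟨j', ⟨v', w'⟩, ⟨v2', w2'⟩⟩ := a'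
        have f1 : j = j' := by simpa using e1
        have f3 : v = v' := e3
        have f4 : w = w' := e4
        have f5 : v2 = v2' := e5
        have f6 : w2 = w2' := e6
        rw [f1, f3, f4, f5, f6]
  · rintro ⟨s, ⟨d1, d2⟩, ⟨d3, d4⟩⟩ hs
    rw [Finset.mem_sigma] at hs
    unfold QQ at hs
    simp only [Finset.mem_product] at hs
    obtain ⟨hs, ⟨hd1, hd2⟩, ⟨hd3, hd4⟩⟩ := hs
    have hPP : ∏ j, s j ∣ PP z y := by
      rw [← Dl_lab hs, prod_Dl]
      exact nb_dvd_PP _
    have hn : ∀ p : Pr z y, lab s p = none → ¬ (p : ℕ) ∣ ∏ j, s j := by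
      intro p hp h
      rw [← Dl_lab hs, prod_Dl, dvd_nb, hp] at h
      exact absurd h (by simp)
    set ξ : Pr z y → Lb := fun p => (lab s p).map fun j =>
      (j, ((decide ((p : ℕ) ∣ d1), decide ((p : ℕ) ∣ d2)),
        (decide ((p : ℕ) ∣ d3), decide ((p : ℕ) ∣ d4)))) with hξ
    refine ⟨ξ, Finset.mem_univ _, ?_⟩
    have e1 : ST ξ = s := by
      unfold ST
      conv_rhs => rw [← Dl_lab hs]
      congr 1
      funext p
      rw [hξ]
      simp only
      cases lab s p <;> rfl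
    have e2 : ∀ (f : B4 → Bool) (d : ℕ), d ∣ ∏ j, s j →
        (∀ p : Pr z y, f ((decide ((p : ℕ) ∣ d1), decide ((p : ℕ) ∣ d2)),
        (decide ((p : ℕ) ∣ d3), decide ((p : ℕ) ∣ d4))) = decide ((p : ℕ) ∣ d)) →
        DD f ξ = d := by
      intro f d hd hf
      unfold DD
      conv_rhs => rw [← nb_eq (hd.trans hPP)]
      congr 1
      funext p
      rw [hξ]
      simp only
      cases hp : lab s p with
      | none =>
        have : ¬ (p : ℕ) ∣ d := fun h => hn p hp (h.trans hd)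
        simp [bt, this]
      | some j => simp [bt, hf]
    have q1 := e2 (fun u => u.1.1) d1 (Nat.mem_divisors.1 hd1).1 (fun _ => rfl)
    have q2 := e2 (fun u => u.1.2) d2 (Nat.mem_divisors.1 hd2).1 (fun _ => rfl)
    have q3 := e2 (fun u => u.2.1) d3 (Nat.mem_divisors.1 hd3).1 (fun _ => rfl)
    have q4 := e2 (fun u => u.2.2) d4 (Nat.mem_divisors.1 hd4).1 (fun _ => rfl)
    unfold DQ
    rw [e1, q1, q2, q3, q4]

end big

section average

variable {z y : ℕ}

/-- the local indicator -/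
noncomputable def Ila (s : Fin 3 → ℕ) (d : ℕ × ℕ) (neg : Bool) (p : ℕ) : ℝ :=
  ind (∀ j, p ∣ s j → LO j neg (dv p d.1) (dv p d.2) (sgn p d.1) (sgn p d.2))

lemma NB2_eq {s : Fin 3 → ℕ} :
    NB2 s = ∑ d ∈ QQ (∏ j, s j), ∏ p ∈ (∏ j, s j).primeFactors,
      (Ila s d.1 true p * Ila s d.2 true p + Ila s d.1 false p * Ila s d.2 false p) / 2 := by
  classical
  have h1 : ∀ E : Finset ℕ, (NL (∏ j, s j) (LO2 s E) : ℝ) =
      ∑ d ∈ (∏ j, s j).divisors ×ˢ (∏ j, s j).divisors,
        ∏ p ∈ (∏ j, s j).primeFactors, Ila s d (decide (p ∈ E)) p := by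
    intro E
    unfold NL
    rw [Finset.card_filter]
    push_cast
    refine Finset.sum_congr rfl fun d _ => ?_
    unfold Ila
    rw [prod_ind]
    unfold ind LO2
    congr
  have h2 : ∀ E : Finset ℕ, (NL (∏ j, s j) (LO2 s E) : ℝ) ^ 2 =
      ∑ d ∈ QQ (∏ j, s j), ∏ p ∈ (∏ j, s j).primeFactors,
        (Ila s d.1 (decide (p ∈ E)) p * Ila s d.2 (decide (p ∈ E)) p) := by
    intro E
    unfold QQ
    rw [h1 E, sq, Finset.sum_mul_sum, Finset.sum_product
      ((∏ j, s j).divisors ×ˢ (∏ j, s j).divisors)]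
    refine Finset.sum_congr rfl fun d _ => Finset.sum_congr rfl fun d' _ => ?_
    rw [Finset.prod_mul_distrib]
  unfold NB2
  rw [Finset.sum_congr rfl fun E _ => h2 E, Finset.sum_comm, Finset.mul_sum]
  refine Finset.sum_congr rfl fun d _ => ?_
  exact avg (∏ j, s j).primeFactors (∏ j, s j).primeFactors subset_rfl
    (fun neg p => Ila s d.1 neg p * Ila s d.2 neg p) (fun p hp hpA => absurd hp hpA)

end average

section final

variable {z y : ℕ}

/-- the local term -/
noncomputable def Tn (c : ℕ) (ξ : Pr z y → Lb) (p : Pr z y) : ℝ :=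
  (ξ p).elim 1 fun a => 1 / ((p : ℝ) - c) *
    ((ind (LO a.1 true a.2.1.1 a.2.1.2 (sgn p (DQ ξ).1.1) (sgn p (DQ ξ).1.2)) *
      ind (LO a.1 true a.2.2.1 a.2.2.2 (sgn p (DQ ξ).2.1) (sgn p (DQ ξ).2.2)) +
      ind (LO a.1 false a.2.1.1 a.2.1.2 (sgn p (DQ ξ).1.1) (sgn p (DQ ξ).1.2)) *
      ind (LO a.1 false a.2.2.1 a.2.2.2 (sgn p (DQ ξ).2.1) (sgn p (DQ ξ).2.2))) / 2)

lemma dv_DD (f : B4 → Bool) (ξ : Pr z y → Lb) (p : Pr z y) :
    dv p (DD f ξ : ℤ) = bt f (ξ p) := by
  unfold dv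
  rw [Bool.eq_iff_iff, decide_eq_true_iff, Int.natCast_dvd_natCast]
  exact dvd_nb _ p

lemma lhs_eq2 (c : ℕ) :
    ∑ s ∈ Tup (Fin 3) z y, NB2 s * ∏ j, gw 1 c (s j) =
      ∑ ξ : Pr z y → Lb, ∏ p, Tn c ξ p := by
  have h1 : ∀ s ∈ Tup (Fin 3) z y, NB2 s * ∏ j, gw 1 c (s j) =
      ∑ d ∈ QQ (∏ j, s j),
        (∏ p ∈ (∏ j, s j).primeFactors, (Ila s d.1 true p * Ila s d.2 true p +
          Ila s d.1 false p * Ila s d.2 false p) / 2) * ∏ j, gw 1 c (s j) := by
    intro s hs
    rw [NB2_eq, Finset.sum_mul]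
  rw [Finset.sum_congr rfl h1, sum_big2 fun s d =>
    (∏ p ∈ (∏ j, s j).primeFactors, (Ila s d.1 true p * Ila s d.2 true p +
          Ila s d.1 false p * Ila s d.2 false p) / 2) * ∏ j, gw 1 c (s j)]
  refine Finset.sum_congr rfl fun ξ _ => ?_
  have h2 : ∏ j, gw 1 c (ST ξ j) = ∏ p : Pr z y, ((ξ p).map Prod.fst).elim 1
      fun _ => 1 / ((p : ℝ) - c) := prod_gw (fun _ => 1) c _
  have h3 : ∏ j, ST ξ j = nb fun p => ((ξ p).map Prod.fst).isSome := prod_Dl _
  rw [h2, h3, prod_pf _ fun p => (Ila (ST ξ) (DQ ξ).1 true p * Ila (ST ξ) (DQ ξ).2 true p +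
    Ila (ST ξ) (DQ ξ).1 false p * Ila (ST ξ) (DQ ξ).2 false p) / 2, ← Finset.prod_mul_distrib]
  refine Finset.prod_congr rfl fun p _ => ?_
  unfold Tn
  cases hx : ξ p with
  | none => simp
  | some a =>
    have e3 : ∀ j, (p : ℕ) ∣ ST ξ j ↔ j = a.1 := by
      intro j
      unfold ST Dl
      rw [dvd_nb, decide_eq_true_iff]
      show (ξ p).map Prod.fst = some j ↔ j = a.1
      rw [hx]
      simp [eq_comm]
    have h4 : ∀ neg, Ila (ST ξ) (DQ ξ).1 neg p =
        ind (LO a.1 neg a.2.1.1 a.2.1.2 (sgn p (DQ ξ).1.1) (sgn p (DQ ξ).1.2)) := by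
      intro neg
      unfold Ila
      have e1 : dv p ((DQ ξ).1.1 : ℤ) = a.2.1.1 := by
        unfold DQ
        rw [dv_DD, hx]
        rfl
      have e2 : dv p ((DQ ξ).1.2 : ℤ) = a.2.1.2 := by
        unfold DQ
        rw [dv_DD, hx]
        rfl
      congr 1
      simp only [e1, e2, e3, forall_eq]
    have h5 : ∀ neg, Ila (ST ξ) (DQ ξ).2 neg p =
        ind (LO a.1 neg a.2.2.1 a.2.2.2 (sgn p (DQ ξ).2.1) (sgn p (DQ ξ).2.2)) := by
      intro neg
      unfold Ila
      have e1 : dv p ((DQ ξ).2.1 : ℤ) = a.2.2.1 := by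
        unfold DQ
        rw [dv_DD, hx]
        rfl
      have e2 : dv p ((DQ ξ).2.2 : ℤ) = a.2.2.2 := by
        unfold DQ
        rw [dv_DD, hx]
        rfl
      congr 1
      simp only [e1, e2, e3, forall_eq]
    simp only [h4, h5]
    simp only [Option.map_some, Option.isSome_some, if_true, Option.elim]
    ring

lemma sum_I2 (F : Fin 3 × (Bool × Bool) × (Bool × Bool) → ℝ) :
    ∑ i : I2, F i.1 = ∑ r, if orth r.2.2 r.2.1 = false then F r else 0 := by
  rw [← Finset.sum_filter]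
  exact (Finset.sum_subtype (univ.filter fun r : Fin 3 × (Bool × Bool) × (Bool × Bool) =>
    orth r.2.2 r.2.1 = false) (fun x => by simp) F).symm

/-- forget the character -/
def fg2 (x : Option I2) : Lb :=
  x.map fun i => (i.1.1, (dir i.1.1 i.1.2.1.1, dir i.1.1 i.1.2.1.2))

/-- the local factor -/
noncomputable def G2 (c : ℕ) (ξ : Pr z y → Lb) (p : Pr z y) (x : Option I2) : ℝ :=
  x.elim 1 fun i => 1 / ((p : ℝ) - c) * (1 / 4 *
    ((if i.1.2.2.1 = true then Xc i.1.1 (sgn p (DQ ξ).1.1) (sgn p (DQ ξ).1.2) else 1) *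
      (if i.1.2.2.2 = true then Xc i.1.1 (sgn p (DQ ξ).2.1) (sgn p (DQ ξ).2.2) else 1)))

lemma sum_G2 (c : ℕ) (ξ : Pr z y → Lb) (p : Pr z y) :
    ∑ x ∈ univ.filter (fun x : Option I2 => fg2 x = ξ p), G2 c ξ p x = Tn c ξ p := by
  rw [Finset.sum_filter, Fintype.sum_option]
  unfold Tn
  cases hx : ξ p with
  | none => simp [fg2, G2]
  | some a =>
    obtain ⟨j, u⟩ := a
    have h0 : (if fg2 (none : Option I2) = some (j, u) then G2 c ξ p none else 0) = 0 := by
      rw [if_neg]
      simp [fg2]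
    rw [h0, zero_add]
    set F : Fin 3 × (Bool × Bool) × (Bool × Bool) → ℝ := fun r =>
          if r.1 = j ∧ (dir r.1 r.2.1.1, dir r.1 r.2.1.2) = u then 1 / ((p : ℝ) - c) * (1 / 4 *
            ((if r.2.2.1 = true then Xc r.1 (sgn p (DQ ξ).1.1) (sgn p (DQ ξ).1.2) else 1) *
            (if r.2.2.2 = true then Xc r.1 (sgn p (DQ ξ).2.1) (sgn p (DQ ξ).2.2) else 1)))
            else 0 with hF
    have h1 : ∀ i : I2, (if fg2 (some i) = some (j, u) then G2 c ξ p (some i) else 0) =
        F i.1 := by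
      intro i
      refine if_congr ?_ rfl rfl
      simp only [fg2, Option.map_some, Option.some.injEq, Prod.mk.injEq]
    refine (Finset.sum_congr rfl fun i _ => h1 i).trans ((sum_I2 F).trans ?_)
    rw [Fintype.sum_prod_type, Finset.sum_eq_single j]
    · rw [Fintype.sum_prod_type]
      show _ = 1 / ((p : ℝ) - c) * _
      rw [loc_id2 j u, Finset.mul_sum]
      refine Finset.sum_congr rfl fun a _ => ?_
      rw [Finset.mul_sum]
      refine Finset.sum_congr rfl fun S _ => ?_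
      simp only [hF, true_and]
      by_cases h1 : u = (dir j a.1, dir j a.2)
      · by_cases h2 : orth S a = false
        · rw [if_pos h2, if_pos h1.symm,
            if_pos (show u = (dir j a.1, dir j a.2) ∧ orth S a = false from ⟨h1, h2⟩)]
        · rw [if_neg h2, if_neg (show ¬ (u = (dir j a.1, dir j a.2) ∧ orth S a = false) from
            fun h => h2 h.2), mul_zero]
      · rw [if_neg (show ¬ (u = (dir j a.1, dir j a.2) ∧ orth S a = false) from
            fun h => h1 h.1), if_neg (show ¬ ((dir j a.1, dir j a.2) = u) from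
            fun h => h1 h.symm), ite_self, mul_zero]
    · intro j' _ hj'
      refine Finset.sum_eq_zero fun x _ => ?_
      simp [hF, hj']
    · intro h
      exact absurd (Finset.mem_univ _) h

/-- bit of the numerator that matters for the class `c` of the denominator -/
def rel (c c' : Fin 3) : Bool := decide (c' ≠ c)

/-- the bit of `q` that matters at a prime of the class `c` -/
def eb (c : Fin 3) (u : Bool × Bool) : Bool :=
  if c = 0 then xor u.1 u.2 else if c = 1 then u.2 else u.1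

lemma eb_dir : ∀ (c c' : Fin 3) (a : Bool), eb c (dir c' a) = (decide (c' ≠ c) && a) := by
  decide

lemma Jr_sq {q p : Pr z y} (hqp : q ≠ p) : Jr (q : ℕ) p * Jr (q : ℕ) p = 1 := by
  have hnd : ¬ ((p : ℕ) : ℤ) ∣ ((q : ℕ) : ℤ) := by
    rw [Int.natCast_dvd_natCast]
    intro hd
    exact hqp (Subtype.ext ((Nat.prime_dvd_prime_iff_eq (Pr_prime p) (Pr_prime q)).1 hd).symm)
  rw [← sg_sg0 (Pr_prime p) hnd]
  unfold sg
  split_ifs <;> norm_num

/-- the character of the class as a product over primes -/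
lemma Xc_prod (c : Fin 3) (f : B4 → Bool × Bool) (ξ : Pr z y → Lb) (p : Pr z y) :
    Xc c (sgn p (DD (fun u => (f u).1) ξ : ℕ)) (sgn p (DD (fun u => (f u).2) ξ : ℕ)) =
      ∏ q : Pr z y, if q ≠ p ∧ (ξ q).elim false (fun a => eb c (f a.2)) = true then
        Jr (q : ℕ) p else 1 := by
  unfold Xc DD
  by_cases h0 : c = 0
  · rw [if_pos h0, sgn_nb, sgn_nb, ← Finset.prod_mul_distrib]
    refine Finset.prod_congr rfl fun q _ => ?_
    subst h0
    by_cases hqp : q = p
    · simp [hqp]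
    · have hJ := Jr_sq hqp
      cases hq : ξ q with
      | none => simp [bt]
      | some a =>
        simp only [bt, Option.elim, eb, if_true]
        rcases Bool.eq_false_or_eq_true (f a.2).1 with h3 | h3 <;>
          rcases Bool.eq_false_or_eq_true (f a.2).2 with h4 | h4 <;> simp [hqp, hJ, h3, h4]
  · rw [if_neg h0]
    by_cases h1 : c = 1
    · rw [if_pos h1, sgn_nb]
      refine Finset.prod_congr rfl fun q _ => ?_
      subst h1
      cases hq : ξ q with
      | none => simp [bt]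
      | some a => simp [bt, eb]
    · rw [if_neg h1, sgn_nb]
      refine Finset.prod_congr rfl fun q _ => ?_
      cases hq : ξ q with
      | none => simp [bt]
      | some a => simp [bt, eb, h0, h1]

lemma rhs_term2 (c : ℕ) (ξ : Pr z y → Lb) (l : Pr z y → Option I2) (h : ∀ p, fg2 (l p) = ξ p) :
    (∏ i, gw (1 / 4) c (Dl l i)) * Pool.Agent.W262.RK.Sym L2 (fun _ => 1) (Dl l) =
      ∏ p, G2 c ξ p (l p) := by
  rw [prod_gw (fun _ => 1 / 4), Sym_Dl, ← Finset.prod_mul_distrib, ← Finset.prod_mul_distrib]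
  refine Finset.prod_congr rfl fun p _ => ?_
  cases hl : l p with
  | none =>
    have h0 : ∀ q, lk L2 (l q) none = false := by
      intro q
      cases l q <;> rfl
    simp [h0, G2]
  | some i =>
    have h1 : ∀ q, lk L2 (l q) (some i) =
        xor (i.1.2.2.1 && (ξ q).elim false (fun a => eb i.1.1 a.2.1))
          (i.1.2.2.2 && (ξ q).elim false (fun a => eb i.1.1 a.2.2)) := by
      intro q
      rw [← h q]
      cases hq : l q with
      | none => simp [lk, fg2]
      | some i' =>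
        simp only [lk, fg2, Option.elim, Option.map_some, L2, orth, eb_dir]
        generalize decide (i'.1.1 ≠ i.1.1) = b0
        generalize i.1.2.2.1 = b1
        generalize i.1.2.2.2 = b2
        generalize i'.1.2.1.1 = b3
        generalize i'.1.2.1.2 = b4
        cases b0 <;> cases b1 <;> cases b2 <;> cases b3 <;> cases b4 <;> rfl
    have h2 : ∏ q : Pr z y, (if lk L2 (l q) (some i) = true then Jr (q : ℕ) p else 1) =
        ((if i.1.2.2.1 = true then Xc i.1.1 (sgn p (DQ ξ).1.1) (sgn p (DQ ξ).1.2) else 1) *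
      (if i.1.2.2.2 = true then Xc i.1.1 (sgn p (DQ ξ).2.1) (sgn p (DQ ξ).2.2) else 1)) := by
      have k1 := Xc_prod i.1.1 (fun u => u.1) ξ p
      have k2 := Xc_prod i.1.1 (fun u => u.2) ξ p
      unfold DQ
      simp only
      rw [k1, k2]
      have h3 : ∀ (a : Bool) (b : Pr z y → Bool), (if a = true then
          (∏ q : Pr z y, if q ≠ p ∧ b q = true then Jr (q : ℕ) p else 1) else 1) =
          ∏ q : Pr z y, if a = true then (if q ≠ p ∧ b q = true then Jr (q : ℕ) p else 1)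
            else 1 := by
        intro a b
        cases a <;> simp
      rw [h3, h3, ← Finset.prod_mul_distrib]
      refine Finset.prod_congr rfl fun q _ => ?_
      rw [h1]
      by_cases hqp : q = p
      · have hb : ∀ (k : B4 → Bool × Bool), (k = (fun u => u.1) ∨ k = (fun u => u.2)) →
            (ξ q).elim false (fun a => eb i.1.1 (k a.2)) = false := by
          intro k hk
          rw [hqp, ← h p, hl]
          simp only [fg2, Option.map_some, Option.elim]
          rcases hk with hk | hk <;> rw [hk] <;> simp [eb_dir]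
        have q1 : (ξ q).elim false (fun a => eb i.1.1 a.2.1) = false :=
          hb (fun u => u.1) (Or.inl rfl)
        have q2 : (ξ q).elim false (fun a => eb i.1.1 a.2.2) = false :=
          hb (fun u => u.2) (Or.inr rfl)
        rw [q1, q2]
        simp
      · have hJ := Jr_sq hqp
        generalize (ξ q).elim false (fun a => eb i.1.1 a.2.1) = x1
        generalize (ξ q).elim false (fun a => eb i.1.1 a.2.2) = x2
        cases i.1.2.2.1 <;> cases i.1.2.2.2 <;> cases x1 <;> cases x2 <;> simp [hqp, hJ]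
    rw [h2]
    simp only [G2, Option.elim, Jr_one_left]
    ring

end final

theorem exp2 : EXP2 := by
  intro c z y _
  classical
  rw [lhs_eq2, sum_Tup, ← Finset.sum_fiberwise univ
    (fun (l : Pr z y → Option I2) => fun p => fg2 (l p))]
  refine Finset.sum_congr rfl fun ξ _ => ?_
  have h1 : (univ.filter fun l : Pr z y → Option I2 => (fun p => fg2 (l p)) = ξ) =
      Fintype.piFinset (fun p => univ.filter (fun x : Option I2 => fg2 x = ξ p)) := by
    ext l
    simp only [Finset.mem_filter, Finset.mem_univ, true_and, Fintype.mem_piFinset, funext_iff]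
  rw [h1, Finset.prod_congr rfl fun p _ => (sum_G2 c ξ p).symm, Finset.prod_univ_sum]
  refine Finset.sum_congr rfl fun l hl => ?_
  rw [Fintype.mem_piFinset] at hl
  exact (rhs_term2 c ξ l fun p => (Finset.mem_filter.1 (hl p)).2).symm

end Pool.Agent.H514
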