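import Mathlib
import Pool.Graph.R_seed8.W605.RT.PAR4
import Pool.Graph.R_seed8.W261.RT.Iso

/-!
# Parametrisation of the curves with full rational 2-torsion
-/

set_option autoImplicit false

namespace Pool.Agent.H514

open Finset Pool.Agent.W262.RK Pool.Agent.W307.RT WeierstrassCurve.Affine Pool.Agent.W605.RT

/-- the relation between a curve and its parameters -/
def Rel2 (c ab : ℤ × ℤ) : Prop := ∃ e1 e2 : ℤ, ab = (e2 - e1, -2 * e1 - e2) ∧ e1 ≠ e2 ∧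
  2 * e1 + e2 ≠ 0 ∧ e1 + 2 * e2 ≠ 0 ∧ c.1 = -(e1 ^ 2 + e1 * e2 + e2 ^ 2) ∧
  c.2 = e1 * e2 * (e1 + e2)

theorem core2 {A B : ℤ} (hD : 4 * A ^ 3 + 27 * B ^ 2 ≠ 0) (hT : HasT 2 (Sh A B)) :
    ∃ ab, Rel2 (A, B) ab := by
  obtain ⟨P, Q, hP, hQ, hPQ⟩ := hT
  obtain ⟨e1, h1, rfl⟩ := two_tors hP
  obtain ⟨e2, h2, rfl⟩ := two_tors hQ
  have hne : e1 ≠ e2 := by
    intro h
    subst h
    exact hPQ (AddSubgroup.mem_zmultiples _)
  have r1 := sh_eq.mp h1.1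
  have r2 := sh_eq.mp h2.1
  have r1' : e1 ^ 3 + A * e1 + B = 0 := by linarith
  have r2' : e2 ^ 3 + A * e2 + B = 0 := by linarith
  have hs : e1 ^ 2 + e1 * e2 + e2 ^ 2 + A = 0 := by
    have : (e1 - e2) * (e1 ^ 2 + e1 * e2 + e2 ^ 2 + A) = 0 := by linear_combination r1' - r2'
    exact (mul_eq_zero.mp this).resolve_left (sub_ne_zero.mpr hne)
  obtain ⟨E1, hE1⟩ := int_root r1'
  obtain ⟨E2, hE2⟩ := int_root r2'
  have t3 : E1 ^ 2 + E1 * E2 + E2 ^ 2 + A = 0 := by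
    have : ((E1 ^ 2 + E1 * E2 + E2 ^ 2 + A : ℤ) : ℚ) = ((0 : ℤ) : ℚ) := by
      push_cast; rw [hE1, hE2]; exact hs
    exact_mod_cast this
  have t4 : E1 ^ 3 + A * E1 + B = 0 := by
    have : ((E1 ^ 3 + A * E1 + B : ℤ) : ℚ) = ((0 : ℤ) : ℚ) := by
      push_cast; rw [hE1]; exact r1'
    exact_mod_cast this
  have hA : A = -(E1 ^ 2 + E1 * E2 + E2 ^ 2) := by linarith
  have hB : B = E1 * E2 * (E1 + E2) := by
    rw [hA] at t4
    linear_combination t4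
  refine ⟨(E2 - E1, -2 * E1 - E2), E1, E2, rfl, ?_, ?_, ?_, hA, hB⟩
  · intro h
    apply hne
    rw [← hE1, ← hE2, h]
  · intro h
    apply hD
    have : E2 = -2 * E1 := by linarith
    rw [hA, hB, this]
    ring
  · intro h
    apply hD
    have : E1 = -2 * E2 := by linarith
    rw [hA, hB, this]
    ring

open Classical in
/-- the parameters -/
noncomputable def F2 (c : ℤ × ℤ) : ℤ × ℤ := if h : ∃ ab, Rel2 c ab then h.choose else (0, 0)

theorem F2_rel {c : ℤ × ℤ} (h : ∃ ab, Rel2 c ab) : Rel2 c (F2 c) := by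
  unfold F2
  rw [dif_pos h]
  exact h.choose_spec

theorem rel2_unique {c c' ab : ℤ × ℤ} (h : Rel2 c ab) (h' : Rel2 c' ab) : c = c' := by
  obtain ⟨e1, e2, h1, -, -, -, hA, hB⟩ := h
  obtain ⟨e1', e2', h1', -, -, -, hA', hB'⟩ := h'
  rw [h1, Prod.mk.injEq] at h1'
  obtain ⟨k1, k2⟩ := h1'
  have s1 : e1 = e1' := by linarith
  have s2 : e2 = e2' := by linarith
  subst s1
  subst s2
  exact Prod.ext (hA.trans hA'.symm) (hB.trans hB'.symm)

theorem rel2_bound {A B : ℤ} {ab : ℤ × ℤ} (h : Rel2 (A, B) ab) {H : ℕ} (hH : 4 * |A| ^ 3 ≤ H) :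
    ab.1.natAbs ^ 6 ≤ 54 * H ∧ ab.2.natAbs ^ 6 ≤ 54 * H := by
  obtain ⟨e1, e2, h1, -, -, -, hA, -⟩ := h
  change A = _ at hA
  have hP : 0 ≤ e1 ^ 2 + e1 * e2 + e2 ^ 2 := by nlinarith [sq_nonneg (e1 + e2), sq_nonneg (e1 - e2)]
  have hAA : |A| = e1 ^ 2 + e1 * e2 + e2 ^ 2 := by
    rw [hA, abs_neg, abs_of_nonneg hP]
  have key : ∀ x : ℤ, x ^ 2 ≤ 6 * |A| → x.natAbs ^ 6 ≤ 54 * H := by
    intro x hx
    have h3 : (x ^ 2) ^ 3 ≤ (6 * |A|) ^ 3 := pow_le_pow_left₀ (by positivity) hx 3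
    have h4 : ((x.natAbs ^ 6 : ℕ) : ℤ) ≤ ((54 * H : ℕ) : ℤ) := by
      have e2 : ((x.natAbs ^ 6 : ℕ) : ℤ) = (x ^ 2) ^ 3 := by
        push_cast
        rw [← pow_mul]
        have : |x| ^ 6 = x ^ 6 := Even.pow_abs (by decide) x
        exact this
      rw [e2]
      push_cast
      have e3 : (6 * |A|) ^ 3 = 54 * (4 * |A| ^ 3) := by ring
      rw [e3] at h3
      linarith
    exact_mod_cast h4
  rw [h1]
  refine ⟨key _ ?_, key _ ?_⟩
  · simp only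
    rw [hAA]
    nlinarith [sq_nonneg (e1 + e2), sq_nonneg (e1 - e2), sq_nonneg (e1 + 2 * e2),
      sq_nonneg (2 * e1 + e2)]
  · simp only
    rw [hAA]
    nlinarith [sq_nonneg (e1 + e2), sq_nonneg (e1 - e2), sq_nonneg (e1 + 2 * e2),
      sq_nonneg (2 * e1 + e2)]

/-- the parametrisation -/
theorem par2 : ∃ (C : ℕ) (F : ℤ × ℤ → ℤ × ℤ), ∀ H : ℕ,
    Set.InjOn F (Cv 2 H : Set (ℤ × ℤ)) ∧
    ∀ c ∈ Cv 2 H, (F c).1 ≠ 0 ∧ (F c).2 ≠ 0 ∧ (F c).1 ≠ (F c).2 ∧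
      (F c).1.natAbs ^ 6 ≤ C * H ∧ (F c).2.natAbs ^ 6 ≤ C * H ∧
      Module.finrank ℤ (Sh c.1 c.2).toAffine.Point =
        Module.finrank ℤ (EAB (F c).1 (F c).2).toAffine.Point := by
  refine ⟨54, F2, fun H => ⟨?_, ?_⟩⟩
  · intro c hc c' hc' hcc
    rw [Finset.mem_coe] at hc hc'
    simp only [Cv, Finset.mem_filter] at hc hc'
    obtain ⟨-, hD, -, -, hmin, hT⟩ := hc
    obtain ⟨-, hD', -, -, hmin', hT'⟩ := hc'
    have r := F2_rel (core2 hD hT)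
    have r' := F2_rel (core2 hD' hT')
    change Rel2 c (F2 c) at r
    change Rel2 c' (F2 c') at r'
    rw [← hcc] at r'
    exact rel2_unique r r'
  · intro c hc
    simp only [Cv, Finset.mem_filter] at hc
    obtain ⟨-, hD, hH, -, hmin, hT⟩ := hc
    have r := F2_rel (core2 hD hT)
    change Rel2 c (F2 c) at r
    obtain ⟨hb1, hb2⟩ := rel2_bound (A := c.1) (B := c.2) r hH
    set ab := F2 c with hab
    clear_value ab
    obtain ⟨A, B⟩ := c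
    obtain ⟨e1, e2, h1, n12, n13, n23, hA, hB⟩ := r
    change A = _ at hA
    change B = _ at hB
    subst h1
    refine ⟨?_, ?_, ?_, hb1, hb2, ?_⟩
    · simp only
      intro h
      apply n12
      linarith
    · simp only
      intro h
      apply n13
      linarith
    · simp only
      intro h
      apply n23
      linarith
    · obtain ⟨φ⟩ := Pool.Agent.W261.RT.iso 0 A B e1 1 one_ne_zero
      have hW : (⟨0, ((0 : ℚ) + 3 * e1) / (1 : ℚ) ^ 2, 0,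
          ((A : ℚ) + 2 * e1 * 0 + 3 * (e1 : ℚ) ^ 2) / (1 : ℚ) ^ 4,
          ((B : ℚ) + e1 * A + (e1 : ℚ) ^ 2 * 0 + (e1 : ℚ) ^ 3) / (1 : ℚ) ^ 6⟩ :
          WeierstrassCurve ℚ) = EAB (e2 - e1) (-2 * e1 - e2) := by
        unfold EAB
        simp only [WeierstrassCurve.mk.injEq, true_and]
        refine ⟨?_, ?_, ?_⟩
        · push_cast; ring
        · rw [hA]; push_cast; ring
        · rw [hA, hB]; push_cast; ring
      rw [hW] at φ
      change Module.finrank ℤ (Sh A B).toAffine.Point =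
        Module.finrank ℤ (EAB (e2 - e1) (-2 * e1 - e2)).toAffine.Point
      exact LinearEquiv.finrank_eq φ.toIntLinearEquiv

end Pool.Agent.H514
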