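import Pool.Agent.H514.BoxK
import Pool.Agent.H514.LowTwo
import Pool.Agent.H514.ParTwo
import Pool.Agent.H905.SH.MainS

/-!
# The moments over the curves with full 2-torsion
-/

set_option autoImplicit false

namespace Pool.Agent.H514

open Finset Pool.Agent.W262.RK Pool.Agent.W307.RT

/-- the parametrisation, with the change of variables -/
theorem parv2 : ∃ (C : ℕ) (F : ℤ × ℤ → ℤ × ℤ), ∀ H : ℕ,
    Set.InjOn F (Cv 2 H : Set (ℤ × ℤ)) ∧
    ∀ c ∈ Cv 2 H, (F c).1 ≠ 0 ∧ (F c).2 ≠ 0 ∧ (F c).1 ≠ (F c).2 ∧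
      (F c).1.natAbs ^ 6 ≤ C * H ∧ (F c).2.natAbs ^ 6 ≤ C * H ∧
      ∃ u r : ℚ, Pool.Agent.H905.SH.VC (Sh c.1 c.2)
        (Pool.Agent.W262.SH.E (F c).1 (F c).2) u r := by
  refine ⟨54, F2, fun H => ⟨?_, ?_⟩⟩
  · intro c hc c' hc' hcc
    rw [Finset.mem_coe] at hc hc'
    simp only [Cv, Finset.mem_filter] at hc hc'
    obtain ⟨-, hD, -, -, hmin, hT⟩ := hc
    obtain ⟨-, hD', -, -, hmin', hT'⟩ := hc'
    have r := F2_rel (core2 hD hT)
    have r' := F2_rel (core2 hD' hT')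
    change Rel2 c (F2 c) at r
    change Rel2 c' (F2 c') at r'
    rw [← hcc] at r'
    exact rel2_unique r r'
  · intro c hc
    simp only [Cv, Finset.mem_filter] at hc
    obtain ⟨-, hD, hH, -, hmin, hT⟩ := hc
    have r := F2_rel (core2 hD hT)
    change Rel2 c (F2 c) at r
    obtain ⟨hb1, hb2⟩ := rel2_bound (A := c.1) (B := c.2) r hH
    set ab := F2 c with hab
    clear_value ab
    obtain ⟨A, B⟩ := c
    obtain ⟨e1, e2, h1, n12, n13, n23, hA, hB⟩ := r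
    change A = _ at hA
    change B = _ at hB
    subst h1
    refine ⟨?_, ?_, ?_, hb1, hb2, ?_⟩
    · simp only
      intro h
      apply n12
      linarith
    · simp only
      intro h
      apply n13
      linarith
    · simp only
      intro h
      apply n23
      linarith
    · refine ⟨1, e1, one_ne_zero, rfl, rfl, rfl, rfl, ?_, ?_, ?_⟩
      · simp only [Pool.Agent.W262.SH.E, Sh]
        push_cast
        ring
      · simp only [Pool.Agent.W262.SH.E, Sh]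
        rw [hA]
        push_cast
        ring
      · simp only [Pool.Agent.W262.SH.E, Sh]
        rw [hA, hB]
        push_cast
        ring

/-- the power of the logarithm of the height -/
lemma LgK_H {m : ℕ} (hm : 2 ≤ m) (C0 : ℕ) : ∃ D : ℝ, 1 ≤ D ∧ ∀ T H : ℕ, 1 ≤ H → T ≤ C0 * H →
    LgK m (3 * T) ≤ D * LgK m H := by
  have ht := th_nn hm
  have hl0 := logn (3 * C0)
  refine ⟨(1 + Real.log ((3 * C0 : ℕ) : ℝ)) ^ th m, Real.one_le_rpow (by linarith) ht,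
    fun T H hH hT => ?_⟩
  unfold LgK
  have hlH := logn H
  rw [← Real.mul_rpow (by linarith) (by linarith)]
  apply Real.rpow_le_rpow (by linarith [logn (3 * T)]) _ ht
  have h1 : Real.log ((3 * T : ℕ) : ℝ) ≤ Real.log ((3 * C0 : ℕ) : ℝ) + Real.log H := by
    rcases Nat.eq_zero_or_pos T with h0 | h0
    · rw [h0, mul_zero, Nat.cast_zero, Real.log_zero]
      linarith
    · have hC : 0 < C0 := by
        by_contra h
        have : C0 = 0 := by omega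
        rw [this] at hT
        omega
      have hC' : ((3 * C0 : ℕ) : ℝ) ≠ 0 := by
        have : 3 * C0 ≠ 0 := by omega
        exact_mod_cast this
      have hH' : (H : ℝ) ≠ 0 := by
        have : H ≠ 0 := by omega
        exact_mod_cast this
      rw [← Real.log_mul hC' hH']
      apply Real.log_le_log
      · exact_mod_cast (by omega : 0 < 3 * T)
      · have : 3 * T ≤ 3 * C0 * H := by nlinarith
        exact_mod_cast this
  nlinarith

/-- a function on the curves that is bounded by a function of the parameters -/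
theorem fin_ofL {m : ℕ} (hm : 2 ≤ m) (R : ℤ × ℤ → ℝ) (Q : ℤ × ℤ → ℝ) (hQ : ∀ t, 0 ≤ Q t)
    (hP : ∃ (C : ℕ) (F : ℤ × ℤ → ℤ × ℤ), ∀ H : ℕ,
      Set.InjOn F (Cv 2 H : Set (ℤ × ℤ)) ∧
      ∀ c ∈ Cv 2 H, (F c).1 ≠ 0 ∧ (F c).2 ≠ 0 ∧ (F c).1 ≠ (F c).2 ∧
        (F c).1.natAbs ^ 6 ≤ C * H ∧ (F c).2.natAbs ^ 6 ≤ C * H ∧ R c ≤ Q (F c))
    (hbox : ∃ C : ℝ, 0 ≤ C ∧ ∀ T : ℕ, 1 ≤ T →
      ∑ t ∈ (Box T).filter (fun t : ℤ × ℤ => t.1 ≠ 0 ∧ t.2 ≠ 0 ∧ t.1 ≠ t.2), Q t ≤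
        C * LgK m (3 * T) * (T : ℝ) ^ 2) :
    ∃ C : ℝ, ∀ H : ℕ, ∑ c ∈ Cv 2 H, R c ≤ C * LgK m H * (Cv 2 H).card := by
  classical
  obtain ⟨C0', F, hF⟩ := hP
  obtain ⟨c, C1, T0, hc, hlow⟩ := low2
  obtain ⟨C, hC, hb⟩ := hbox
  set C0 := C0' + 1 with hC0
  have hF' : ∀ H : ℕ, ∀ x ∈ Cv 2 H, (F x).1.natAbs ^ 6 ≤ C0 * H ∧ (F x).2.natAbs ^ 6 ≤ C0 * H := by
    intro H x hx
    obtain ⟨_, _, _, h1, h2, _⟩ := (hF H).2 x hx
    have : C0' * H ≤ C0 * H := Nat.mul_le_mul_right _ (by omega)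
    exact ⟨h1.trans this, h2.trans this⟩
  set D := C0 * C1 + 1 with hD
  have hD1 : 1 ≤ D := by omega
  -- the sum is at most `C L T ^ 2`
  have hsum : ∀ H T : ℕ, 1 ≤ T → (∀ x ∈ Cv 2 H, (F x).1.natAbs ≤ T ∧ (F x).2.natAbs ≤ T) →
      ∑ x ∈ Cv 2 H, R x ≤ C * LgK m (3 * T) * (T : ℝ) ^ 2 := by
    intro H T hT hx
    refine le_trans ?_ (hb T hT)
    obtain ⟨hinj, h2⟩ := hF H
    have h3 : ∑ x ∈ Cv 2 H, R x ≤ ∑ t ∈ (Cv 2 H).image F, Q t := by
      rw [sum_image hinj]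
      apply sum_le_sum
      intro x hx'
      exact (h2 x hx').2.2.2.2.2
    refine h3.trans ?_
    apply sum_le_sum_of_subset_of_nonneg
    · intro t ht
      obtain ⟨x, hx', rfl⟩ := mem_image.1 ht
      obtain ⟨a1, a2, a3, _, _, _⟩ := h2 x hx'
      rw [mem_filter, mem_Box]
      exact ⟨hx x hx', a1, a2, a3⟩
    · intro t _ _
      exact hQ t
  set T9 := D * (T0 + 1) with hT9
  have hT91 : 1 ≤ T9 := Nat.mul_pos hD1 (Nat.succ_pos _)
  obtain ⟨D1, hD11, hLH⟩ := LgK_H hm C0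
  have hL9 := LgK_one hm (3 * T9)
  refine ⟨C * LgK m (3 * T9) * (T9 : ℝ) ^ 2 + C * D1 * (2 * (D : ℝ)) ^ 2 / c, fun H => ?_⟩
  have hLg := LgK_one hm H
  have hLg0 : 0 ≤ LgK m H := by linarith
  set K := (Cv 2 H).card with hK
  by_cases hK0 : K = 0
  · have : Cv 2 H = ∅ := card_eq_zero.1 hK0
    rw [this, sum_empty, hK0]
    simp
  have hK1 : (1 : ℝ) ≤ K := by exact_mod_cast Nat.one_le_iff_ne_zero.2 hK0
  have hLK : (1 : ℝ) ≤ LgK m H * K := one_le_mul_of_one_le_of_one_le hLg hK1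
  have hq0 : 0 ≤ C * D1 * (2 * (D : ℝ)) ^ 2 / c := by positivity
  have hr0 : 0 ≤ C * LgK m (3 * T9) * (T9 : ℝ) ^ 2 := by
    apply mul_nonneg (mul_nonneg hC (by linarith)) (by positivity)
  have hH1 : 1 ≤ H := by
    obtain ⟨x, hx⟩ := card_pos.1 (Nat.pos_of_ne_zero hK0)
    by_contra h
    have h0 : H = 0 := by omega
    obtain ⟨a1, _, _, a4, _⟩ := (hF H).2 x hx
    rw [h0, mul_zero] at a4
    have h5 : (F x).1.natAbs ^ 6 = 0 := by omega
    have h6 : (F x).1.natAbs = 0 := pow_eq_zero_iff (by norm_num) |>.1 h5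
    exact a1 (Int.natAbs_eq_zero.1 h6)
  set T := Nat.findGreatest (fun t => t ^ 6 ≤ C0 * H) (C0 * H) with hT
  have hle : ∀ x : ℕ, x ^ 6 ≤ C0 * H → x ≤ T := by
    intro x hx
    apply Nat.le_findGreatest
    · exact (Nat.le_self_pow (by omega) x).trans hx
    · exact hx
  have hTk : T ^ 6 ≤ C0 * H := by
    have : (fun t => t ^ 6 ≤ C0 * H) T :=
      Nat.findGreatest_spec (P := fun t => t ^ 6 ≤ C0 * H) (Nat.zero_le _)
        (by rw [zero_pow (by omega)]; exact Nat.zero_le _)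
    exact this
  have hTC : T ≤ C0 * H := (Nat.le_self_pow (by omega) T).trans hTk
  have hxT : ∀ x ∈ Cv 2 H, (F x).1.natAbs ≤ T ∧ (F x).2.natAbs ≤ T := fun x hx =>
    ⟨hle _ (hF' H x hx).1, hle _ (hF' H x hx).2⟩
  rcases Nat.lt_or_ge T T9 with hlt | hge
  · have h1 := hsum H T9 hT91 fun x hx =>
      ⟨(hxT x hx).1.trans hlt.le, (hxT x hx).2.trans hlt.le⟩
    calc _ ≤ C * LgK m (3 * T9) * (T9 : ℝ) ^ 2 := h1
      _ ≤ C * LgK m (3 * T9) * (T9 : ℝ) ^ 2 * (LgK m H * K) := le_mul_of_one_le_right hr0 hLK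
      _ = C * LgK m (3 * T9) * (T9 : ℝ) ^ 2 * LgK m H * K := by ring
      _ ≤ _ := by
        apply mul_le_mul_of_nonneg_right _ (by linarith)
        apply mul_le_mul_of_nonneg_right _ hLg0
        linarith
  · have hT1 : 1 ≤ T := hT91.trans hge
    have h1 := hsum H T hT1 hxT
    set T' := T / D with hT'
    have hT'0 : T0 + 1 ≤ T' := by
      rw [hT', Nat.le_div_iff_mul_le hD1, mul_comm]
      exact hge
    have h2 : T' * D ≤ T := Nat.div_mul_le_self T D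
    have h3 : C1 * T' ^ 6 ≤ H := by
      have a1 : (T' * D) ^ 6 ≤ C0 * H := (Nat.pow_le_pow_left h2 6).trans hTk
      rw [mul_pow] at a1
      have a2 : D ≤ D ^ 6 := Nat.le_self_pow (by omega) D
      have a3 : T' ^ 6 * (C0 * C1) ≤ C0 * H :=
        (Nat.mul_le_mul_left _ (by omega : C0 * C1 ≤ D ^ 6)).trans a1
      have a4 : C0 * (C1 * T' ^ 6) ≤ C0 * H := by
        calc C0 * (C1 * T' ^ 6) = T' ^ 6 * (C0 * C1) := by ring
          _ ≤ _ := a3
      exact Nat.le_of_mul_le_mul_left a4 (by omega)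
    have h4 := hlow T' H (by omega) h3
    have h5 : T ≤ 2 * D * T' := by
      have a1 : T < D * (T' + 1) := by
        rw [mul_comm]
        exact Nat.lt_mul_of_div_lt (by rw [← hT']; omega) hD1
      have a2 : D * (T' + 1) ≤ 2 * D * T' := by nlinarith
      omega
    have h6 : (T : ℝ) ≤ 2 * D * T' := by exact_mod_cast h5
    have h7 := hLH T H hH1 hTC
    calc _ ≤ C * LgK m (3 * T) * (T : ℝ) ^ 2 := h1
      _ ≤ C * (D1 * LgK m H) * (2 * D * T') ^ 2 := by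
        apply mul_le_mul (mul_le_mul_of_nonneg_left h7 hC) _ (by positivity) (by positivity)
        exact pow_le_pow_left₀ (Nat.cast_nonneg T) h6 2
      _ = C * D1 * (2 * (D : ℝ)) ^ 2 / c * LgK m H * (c * (T' : ℝ) ^ 2) := by
        field_simp
      _ ≤ C * D1 * (2 * (D : ℝ)) ^ 2 / c * LgK m H * K :=
        mul_le_mul_of_nonneg_left h4 (by positivity)
      _ ≤ _ := by
        apply mul_le_mul_of_nonneg_right _ (by linarith)
        apply mul_le_mul_of_nonneg_right _ hLg0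
        linarith

/-- the moments of `2 ^ rank * #Ш[2]` -/
theorem main_sha (m : ℕ) (hm : 2 ≤ m) : ∃ C : ℝ, ∀ H : ℕ, ∑ c ∈ Cv 2 H,
    (Pool.Agent.H905.SH.wtW (Sh c.1 c.2)) ^ m ≤ C * LgK m H * (Cv 2 H).card := by
  refine fin_ofL hm _ (fun t => (QS t.1 t.2 : ℝ) ^ m) (fun t => by positivity) ?_
    (box_q rbd_sel m hm)
  obtain ⟨C, F, h⟩ := parv2
  refine ⟨C, F, fun H => ⟨(h H).1, fun c hc => ?_⟩⟩
  obtain ⟨h1, h2, h3, h4, h5, u, r, h6⟩ := (h H).2 c hc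
  refine ⟨h1, h2, h3, h4, h5, ?_⟩
  rw [h6.wtW_eq]
  apply pow_le_pow_left₀ (Pool.Agent.W262.SH.wt_nonneg _ _)
  exact Pool.Agent.W262.SH.wt_le Pool.Agent.H905.SH.desc5 Pool.Agent.H905.SH.sh1
    Pool.Agent.H905.SH.sh2 h1 h2 h3

open scoped Classical in
/-- the `2`-torsion of the Tate-Shafarevich group is finite -/
theorem fin_sha {H : ℕ} {c : ℤ × ℤ} (hc : c ∈ Cv 2 H) :
    Finite {x : Pool.Agent.W262.SH.Sha (Sh c.1 c.2) // x + x = 0} := by
  obtain ⟨_, F, hF⟩ := parv2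
  obtain ⟨hA, hB, hAB, _, _, u, r, h⟩ := (hF H).2 c hc
  have h1 := (Pool.Agent.H905.SH.sh1 _ _ hA hB hAB
    (Pool.Agent.W262.SH.selS_finite Pool.Agent.H905.SH.desc5 hA hB hAB)).1
  have h2 := (Pool.Agent.H905.SH.sh2 _ _ hA hB hAB h1).1
  obtain ⟨e⟩ := h.two_equiv
  exact Finite.of_equiv _ e

end Pool.Agent.H514
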