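import Pool.Agent.H514.BoxG
import Pool.Agent.H514.LowTwo
import Pool.Agent.H514.ParTwo

/-!
# From the box to the curves
-/

set_option autoImplicit false

namespace Pool.Agent.H514

open Finset Pool.Agent.W262.RK Pool.Agent.W307.RT

/-- a function on the curves that is bounded by a function of the parameters -/
theorem fin_of (R : ℤ × ℤ → ℝ) (Q : ℤ × ℤ → ℝ) (hQ : ∀ t, 0 ≤ Q t)
    (hP : ∃ (C : ℕ) (F : ℤ × ℤ → ℤ × ℤ), ∀ H : ℕ,
      Set.InjOn F (Cv 2 H : Set (ℤ × ℤ)) ∧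
      ∀ c ∈ Cv 2 H, (F c).1 ≠ 0 ∧ (F c).2 ≠ 0 ∧ (F c).1 ≠ (F c).2 ∧
        (F c).1.natAbs ^ 6 ≤ C * H ∧ (F c).2.natAbs ^ 6 ≤ C * H ∧ R c ≤ Q (F c))
    (hbox : ∃ C : ℝ, 0 ≤ C ∧ ∀ T : ℕ, 1 ≤ T →
      ∑ t ∈ (Box T).filter (fun t : ℤ × ℤ => t.1 ≠ 0 ∧ t.2 ≠ 0 ∧ t.1 ≠ t.2), Q t ≤
        C * (T : ℝ) ^ 2) :
    ∃ C : ℝ, ∀ H : ℕ, ∑ c ∈ Cv 2 H, R c ≤ C * (Cv 2 H).card := by
  classical
  obtain ⟨C0', F, hF⟩ := hP
  obtain ⟨c, C1, T0, hc, hlow⟩ := low2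
  obtain ⟨C, hC, hb⟩ := hbox
  set C0 := C0' + 1 with hC0
  have hF' : ∀ H : ℕ, ∀ x ∈ Cv 2 H, (F x).1.natAbs ^ 6 ≤ C0 * H ∧ (F x).2.natAbs ^ 6 ≤ C0 * H := by
    intro H x hx
    obtain ⟨_, _, _, h1, h2, _⟩ := (hF H).2 x hx
    have : C0' * H ≤ C0 * H := Nat.mul_le_mul_right _ (by omega)
    exact ⟨h1.trans this, h2.trans this⟩
  set D := C0 * C1 + 1 with hD
  have hD1 : 1 ≤ D := by omega
  -- the sum is at most `C T ^ 2`
  have hsum : ∀ H T : ℕ, 1 ≤ T → (∀ x ∈ Cv 2 H, (F x).1.natAbs ≤ T ∧ (F x).2.natAbs ≤ T) →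
      ∑ x ∈ Cv 2 H, R x ≤ C * (T : ℝ) ^ 2 := by
    intro H T hT hx
    refine le_trans ?_ (hb T hT)
    obtain ⟨hinj, h2⟩ := hF H
    have h3 : ∑ x ∈ Cv 2 H, R x ≤ ∑ t ∈ (Cv 2 H).image F, Q t := by
      rw [sum_image hinj]
      apply sum_le_sum
      intro x hx'
      exact (h2 x hx').2.2.2.2.2
    refine h3.trans ?_
    apply sum_le_sum_of_subset_of_nonneg
    · intro t ht
      obtain ⟨x, hx', rfl⟩ := mem_image.1 ht
      obtain ⟨a1, a2, a3, _, _, _⟩ := h2 x hx'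
      rw [mem_filter, mem_Box]
      exact ⟨hx x hx', a1, a2, a3⟩
    · intro t _ _
      exact hQ t
  refine ⟨C * ((D * (T0 + 1) : ℕ) : ℝ) ^ 2 + C * (2 * (D : ℝ)) ^ 2 / c, fun H => ?_⟩
  set K := (Cv 2 H).card with hK
  by_cases hK0 : K = 0
  · have : Cv 2 H = ∅ := card_eq_zero.1 hK0
    rw [this, sum_empty, hK0]
    simp
  have hK1 : (1 : ℝ) ≤ K := by exact_mod_cast Nat.one_le_iff_ne_zero.2 hK0
  have hq0 : 0 ≤ C * (2 * (D : ℝ)) ^ 2 / c := by positivity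
  have hr0 : 0 ≤ C * ((D * (T0 + 1) : ℕ) : ℝ) ^ 2 := by positivity
  set T := Nat.findGreatest (fun t => t ^ 6 ≤ C0 * H) (C0 * H) with hT
  have hle : ∀ x : ℕ, x ^ 6 ≤ C0 * H → x ≤ T := by
    intro x hx
    apply Nat.le_findGreatest
    · exact (Nat.le_self_pow (by omega) x).trans hx
    · exact hx
  have hTk : T ^ 6 ≤ C0 * H := by
    have : (fun t => t ^ 6 ≤ C0 * H) T :=
      Nat.findGreatest_spec (P := fun t => t ^ 6 ≤ C0 * H) (Nat.zero_le _)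
        (by rw [zero_pow (by omega)]; exact Nat.zero_le _)
    exact this
  have hxT : ∀ x ∈ Cv 2 H, (F x).1.natAbs ≤ T ∧ (F x).2.natAbs ≤ T := fun x hx =>
    ⟨hle _ (hF' H x hx).1, hle _ (hF' H x hx).2⟩
  rcases Nat.lt_or_ge T (D * (T0 + 1)) with hlt | hge
  · have h1 := hsum H (D * (T0 + 1)) (Nat.mul_pos hD1 (Nat.succ_pos _)) fun x hx =>
      ⟨(hxT x hx).1.trans hlt.le, (hxT x hx).2.trans hlt.le⟩
    calc _ ≤ C * ((D * (T0 + 1) : ℕ) : ℝ) ^ 2 := h1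
      _ ≤ C * ((D * (T0 + 1) : ℕ) : ℝ) ^ 2 * K := le_mul_of_one_le_right hr0 hK1
      _ ≤ _ := by
        apply mul_le_mul_of_nonneg_right _ (by linarith)
        linarith
  · have hT1 : 1 ≤ T := (Nat.mul_pos hD1 (Nat.succ_pos _)).trans_le hge
    have h1 := hsum H T hT1 hxT
    set T' := T / D with hT'
    have hT'0 : T0 + 1 ≤ T' := by
      rw [hT', Nat.le_div_iff_mul_le hD1, mul_comm]
      exact hge
    have h2 : T' * D ≤ T := Nat.div_mul_le_self T D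
    have h3 : C1 * T' ^ 6 ≤ H := by
      have a1 : (T' * D) ^ 6 ≤ C0 * H := (Nat.pow_le_pow_left h2 6).trans hTk
      rw [mul_pow] at a1
      have a2 : D ≤ D ^ 6 := Nat.le_self_pow (by omega) D
      have a3 : T' ^ 6 * (C0 * C1) ≤ C0 * H :=
        (Nat.mul_le_mul_left _ (by omega : C0 * C1 ≤ D ^ 6)).trans a1
      have a4 : C0 * (C1 * T' ^ 6) ≤ C0 * H := by
        calc C0 * (C1 * T' ^ 6) = T' ^ 6 * (C0 * C1) := by ring
          _ ≤ _ := a3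
      exact Nat.le_of_mul_le_mul_left a4 (by omega)
    have h4 := hlow T' H (by omega) h3
    have h5 : T ≤ 2 * D * T' := by
      have a1 : T < D * (T' + 1) := by
        rw [mul_comm]
        exact Nat.lt_mul_of_div_lt (by rw [← hT']; omega) hD1
      have a2 : D * (T' + 1) ≤ 2 * D * T' := by nlinarith
      omega
    have h6 : (T : ℝ) ≤ 2 * D * T' := by exact_mod_cast h5
    calc _ ≤ C * (T : ℝ) ^ 2 := h1
      _ ≤ C * (2 * D * T') ^ 2 := by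
        apply mul_le_mul_of_nonneg_left _ hC
        exact pow_le_pow_left₀ (Nat.cast_nonneg T) h6 2
      _ = C * (2 * (D : ℝ)) ^ 2 / c * (c * (T' : ℝ) ^ 2) := by
        field_simp
      _ ≤ C * (2 * (D : ℝ)) ^ 2 / c * K := mul_le_mul_of_nonneg_left h4 hq0
      _ ≤ _ := by
        apply mul_le_mul_of_nonneg_right _ (by linarith)
        linarith

/-- the average of `4 ^ rank` -/
theorem main2 : ∃ C : ℝ, ∀ H : ℕ, ∑ c ∈ Cv 2 H,
    (4 : ℝ) ^ Module.finrank ℤ (Sh c.1 c.2).toAffine.Point ≤ C * (Cv 2 H).card := by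
  refine fin_of _ (fun t => (4 : ℝ) ^ Module.finrank ℤ (EAB t.1 t.2).toAffine.Point)
    (fun t => by positivity) ?_ box_all
  obtain ⟨C, F, h⟩ := par2
  refine ⟨C, F, fun H => ⟨(h H).1, fun c hc => ?_⟩⟩
  obtain ⟨h1, h2, h3, h4, h5, h6⟩ := (h H).2 c hc
  exact ⟨h1, h2, h3, h4, h5, by rw [h6]⟩

end Pool.Agent.H514
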