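import Pool.Agent.H514.SubB2
import Pool.Graph.R_seed8.W571.RT.LocM
import Pool.Graph.R_seed8.W22.RK.Loc

/-!
# Local conditions with signs; relaxing local conditions
-/

set_option autoImplicit false

namespace Pool.Agent.H514

open Finset Pool.Agent.W262.RK Pool.Agent.W307.RT Pool.Agent.W125.RK2

/-- the partner of the class, with sign -/
def kA (c : Fin 3) (A B : ℤ) : ℤ := if c = 0 then -B else if c = 1 then -A else A

/-- the coefficient of the class -/
def FA (c : Fin 3) (A B : ℤ) : ℤ := if c = 0 then A else if c = 1 then B else A - B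

lemma fin_ne3 : ∀ c : Fin 3, (c.castSucc : Fin 4) ≠ 3 := by decide

lemma fin_0 : ∀ c : Fin 3, (c.castSucc : Fin 4) = 0 ↔ c = 0 := by decide

lemma fin_1 : ∀ c : Fin 3, (c.castSucc : Fin 4) = 1 ↔ c = 1 := by decide

lemma fin_2 : ∀ c : Fin 3, c ≠ 0 → c ≠ 1 → (c.castSucc : Fin 4) = 2 := by decide

lemma fin_2' : ∀ c : Fin 3, c ≠ 0 → c ≠ 1 → c = 2 := by decide

section loc

variable {p : ℕ} [hp : Fact p.Prime]

lemma even_third {A B : ℤ} (hA : (p : ℤ) ∣ A) (hB : ¬ (p : ℤ) ∣ B) (hA0 : A ≠ 0) (x y : ℚ)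
    (hy : y ≠ 0) (hxy : y ^ 2 = x * (x - A) * (x - B)) : Even (padicValRat p (x - B)) := by
  have hy2 : y ^ 2 ≠ 0 := pow_ne_zero 2 hy
  rw [hxy] at hy2
  have hx : x ≠ 0 := left_ne_zero_of_mul (left_ne_zero_of_mul hy2)
  have hxA : x - A ≠ 0 := right_ne_zero_of_mul (left_ne_zero_of_mul hy2)
  have hxB : x - B ≠ 0 := right_ne_zero_of_mul hy2
  have hAq : (-A : ℚ) ≠ 0 := by
    intro h
    apply hA0
    have : (A : ℚ) = 0 := by linarith
    exact_mod_cast this
  have hnB : ¬ (p : ℤ) ∣ -B := fun h => hB ((dvd_neg).1 h)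
  have hBq : (-B : ℚ) ≠ 0 := by
    intro h
    apply hB
    have : B = 0 := by
      have : (B : ℚ) = 0 := by linarith
      exact_mod_cast this
    simp [this]
  have vA : 0 < padicValRat p (-A : ℚ) := by
    rw [Pool.Agent.W22.RK.v_neg, padicValRat.of_int]
    have := (padicValInt_dvd_iff (p := p) 1 A).1 (by simpa using hA)
    rcases this with h12 | h12
    · exact absurd h12 hA0
    · exact_mod_cast h12
  have vB : padicValRat p (-B : ℚ) = 0 := by
    have := Pool.Agent.W22.RK.v_int (p := p) hnB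
    push_cast at this
    exact this
  have hsum := Pool.Agent.W22.RK.v_mul3 (p := p) hx hxA hxB hxy
  rcases lt_trichotomy (padicValRat p x) 0 with h | h | h
  · have e1 : padicValRat p (x - A) = padicValRat p x := by
      have := Pool.Agent.W22.RK.v_add (p := p) (a := x) (b := -(A : ℚ)) hx hAq
        (by rw [← sub_eq_add_neg]; exact hxA) (by omega)
      rw [← sub_eq_add_neg] at this
      exact this
    have e2 : padicValRat p (x - B) = padicValRat p x := by
      have := Pool.Agent.W22.RK.v_add (p := p) (a := x) (b := -(B : ℚ)) hx hBq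
        (by rw [← sub_eq_add_neg]; exact hxB) (by omega)
      rw [← sub_eq_add_neg] at this
      exact this
    rw [Int.even_iff]
    omega
  · have e1 : padicValRat p (x - A) = 0 := by
      have := Pool.Agent.W22.RK.v_add (p := p) (a := x) (b := -(A : ℚ)) hx hAq
        (by rw [← sub_eq_add_neg]; exact hxA) (by omega)
      rw [← sub_eq_add_neg, h] at this
      exact this
    rw [Int.even_iff]
    omega
  · have e2 : padicValRat p (x - B) = 0 := by
      have := Pool.Agent.W22.RK.v_add (p := p) (a := -(B : ℚ)) (b := x) hBq hx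
        (by rw [neg_add_eq_sub]; exact hxB) (by omega)
      rw [neg_add_eq_sub, vB] at this
      exact this
    rw [e2]
    exact Even.zero

/-- the direction -/
lemma loc_dir (c : Fin 3) {A B : ℤ} (hA0 : A ≠ 0) (hB0 : B ≠ 0) (hAB0 : A ≠ B)
    (hF : (p : ℤ) ∣ FA c A B) (hk : ¬ (p : ℤ) ∣ kA c A B) (x y : ℚ)
    (hy : y ≠ 0) (hxy : y ^ 2 = x * (x - A) * (x - B)) (e1 e2 : ℤ) (he1 : Squarefree e1)
    (he2 : Squarefree e2) (hs1 : IsSquare ((x * e1 : ℚ) : ℚ_[p]))
    (hs2 : IsSquare (((x - A) * e2 : ℚ) : ℚ_[p])) :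
    (dv p e1 = false ∧ dv p e2 = false) ∨ (dv p e1 = (e3 c).1 ∧ dv p e2 = (e3 c).2) := by
  have hq1 := Pool.Agent.W342.RK2.not_sq_of_squarefree (p := p) he1
  have hq2 := Pool.Agent.W342.RK2.not_sq_of_squarefree (p := p) he2
  have hy2 : y ^ 2 ≠ 0 := pow_ne_zero 2 hy
  rw [hxy] at hy2
  have hx : x ≠ 0 := left_ne_zero_of_mul (left_ne_zero_of_mul hy2)
  have hxA : x - A ≠ 0 := right_ne_zero_of_mul (left_ne_zero_of_mul hy2)
  have hxB : x - B ≠ 0 := right_ne_zero_of_mul hy2
  have p1 := Pool.Agent.W342.RK2.par hx hq1 hs1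
  have p2 := Pool.Agent.W342.RK2.par hxA hq2 hs2
  have hsum := Pool.Agent.W22.RK.v_mul3 (p := p) hx hxA hxB hxy
  unfold FA at hF
  unfold kA at hk
  unfold e3
  by_cases c0 : c = 0
  · rw [if_pos c0] at hF hk
    have h1 := even_third hF (fun h => hk ((dvd_neg).2 h)) hA0 x y hy hxy
    have h2 : Even (padicValRat p x) ↔ Even (padicValRat p (x - A)) := by
      rw [Int.even_iff] at h1 ⊢
      rw [Int.even_iff]
      omega
    rw [p1, p2] at h2
    rw [if_pos c0]
    revert h2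
    generalize dv p e1 = b1
    generalize dv p e2 = b2
    revert b1 b2
    decide
  · rw [if_neg c0] at hF hk ⊢
    by_cases c1 : c = 1
    · rw [if_pos c1] at hF hk ⊢
      have h1 := even_third hF (fun h => hk ((dvd_neg).2 h)) hB0 x y hy (by rw [hxy]; ring)
      rw [p2] at h1
      rw [h1]
      generalize dv p e1 = b1
      revert b1
      decide
    · rw [if_neg c1] at hF hk ⊢
      have hC' : (p : ℤ) ∣ B - A := by rw [← neg_sub]; exact hF.neg_right
      have hnA : ¬ (p : ℤ) ∣ -A := fun h => hk ((dvd_neg).1 h)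
      have h1 := even_third hC' hnA (sub_ne_zero.2 (Ne.symm hAB0)) (x - A) y hy
        (by rw [hxy]; push_cast; ring)
      have h2 : (x - A - ((-A : ℤ) : ℚ)) = x := by push_cast; ring
      rw [h2, p1] at h1
      rw [h1]
      generalize dv p e2 = b1
      revert b1
      decide

/-- the local conditions with the sign -/
lemma loc_sign (hp2 : p ≠ 2) (c : Fin 3) {A B : ℤ} (hA0 : A ≠ 0) (hB0 : B ≠ 0) (hAB0 : A ≠ B)
    (hF : (p : ℤ) ∣ FA c A B) (hodd : Odd (padicValInt p (FA c A B)))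
    (hk : ¬ (p : ℤ) ∣ kA c A B) (x y : ℚ)
    (hy : y ≠ 0) (hxy : y ^ 2 = x * (x - A) * (x - B)) (e1 e2 : ℤ) (he1 : Squarefree e1)
    (he2 : Squarefree e2) (hs1 : IsSquare ((x * e1 : ℚ) : ℚ_[p]))
    (hs2 : IsSquare (((x - A) * e2 : ℚ) : ℚ_[p])) :
    LO c (sg0 p (kA c A B)) (dv p e1) (dv p e2) (sgn p e1) (sgn p e2) := by
  have hsq : jacobiSym (kA c A B * kA c A B) p = 1 := by
    rw [jacobiSym.mul_left]
    rcases Pool.Agent.W342.RK2.jac_ne hk with h | h <;> rw [h] <;> norm_num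
  have hc3 : (c.castSucc : Fin 4) ≠ 3 := fin_ne3 c
  have hL : LocM c.castSucc (kA c A B) p A B := by
    unfold LocM
    unfold kA at hsq hk ⊢
    unfold FA at hF hodd
    by_cases c0 : c = 0
    · subst c0
      simp only [if_true] at hsq hk hF hodd ⊢
      rw [if_pos (show (Fin.castSucc (0 : Fin 3) : Fin 4) = 0 from rfl)]
      exact ⟨hF, fun h => hk ((dvd_neg).2 h), hsq, Or.inl hodd⟩
    · by_cases c1 : c = 1
      · subst c1
        rw [if_neg (show ¬ ((1 : Fin 3) = 0) by decide), if_pos rfl] at hsq hk hF hodd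
        rw [if_neg (show ¬ (Fin.castSucc (1 : Fin 3) : Fin 4) = 0 by decide),
          if_pos (show (Fin.castSucc (1 : Fin 3) : Fin 4) = 1 from rfl)]
        rw [if_neg (show ¬ ((1 : Fin 3) = 0) by decide), if_pos rfl]
        exact ⟨hF, fun h => hk ((dvd_neg).2 h), hsq, Or.inl hodd⟩
      · have c2 : c = 2 := fin_2' c c0 c1
        subst c2
        rw [if_neg (show ¬ ((2 : Fin 3) = 0) by decide),
          if_neg (show ¬ ((2 : Fin 3) = 1) by decide)] at hsq hk hF hodd
        rw [if_neg (show ¬ (Fin.castSucc (2 : Fin 3) : Fin 4) = 0 by decide),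
          if_neg (show ¬ (Fin.castSucc (2 : Fin 3) : Fin 4) = 1 by decide)]
        rw [if_neg (show ¬ ((2 : Fin 3) = 0) by decide),
          if_neg (show ¬ ((2 : Fin 3) = 1) by decide)]
        exact ⟨hF, hk, hsq, Or.inl hodd⟩
  have h := Pool.Agent.W571.RT.locm c.castSucc (kA c A B) p A B hc3 hp2 hk hA0 hB0 hAB0 hL x y hy
    hxy e1 e2 he1 he2 hs1 hs2
  unfold LL at h
  unfold LO
  have q0 := fin_0 c
  have q1 := fin_1 c
  have q2 := fin_2 c
  by_cases c0 : c = 0
  · rw [if_pos (q0.2 c0)] at h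
    rw [if_pos c0]
    exact h
  · rw [if_neg (fun h' => c0 (q0.1 h'))] at h
    rw [if_neg c0]
    by_cases c1 : c = 1
    · rw [if_pos (q1.2 c1)] at h
      rw [if_pos c1]
      exact h
    · rw [if_neg (fun h' => c1 (q1.1 h')), if_pos (q2 c0 c1)] at h
      rw [if_neg c1]
      exact h

end loc

/-- relaxing the conditions at the primes of `R` -/
theorem relax (m : ℕ) (R : Finset ℕ) (L L' : ℕ → Bool → Bool → Bool → Bool → Prop)
    (hm : Squarefree m) (hXC : ∀ p, p.Prime → p ∣ m → XC (L p))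
    (hXC' : ∀ p, p.Prime → p ∣ m → XC (L' p))
    (hL : ∀ p, p.Prime → p ∣ m → p ∉ R → L p = L' p) :
    NL m L ≤ 16 ^ R.card * NL m L' := by
  classical
  have hm0 : m ≠ 0 := hm.ne_zero
  unfold NL
  set A := (m.divisors ×ˢ m.divisors).filter (fun d : ℕ × ℕ =>
    ∀ p ∈ m.primeFactors, L p (dv p d.1) (dv p d.2) (sgn p d.1) (sgn p d.2)) with hA
  set B := (m.divisors ×ˢ m.divisors).filter (fun d : ℕ × ℕ => ∀ p ∈ m.primeFactors,
    L' p (dv p d.1) (dv p d.2) (sgn p d.1) (sgn p d.2)) with hB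
  have hAm : ∀ d ∈ A, (d.1 ∣ m ∧ d.2 ∣ m) ∧ ∀ p, p.Prime → p ∣ m →
      L p (dv p d.1) (dv p d.2) (sgn p d.1) (sgn p d.2) := by
    intro d hd
    rw [hA, mem_filter, mem_product, Nat.mem_divisors, Nat.mem_divisors] at hd
    exact ⟨⟨hd.1.1.1, hd.1.2.1⟩, fun p hp hpm => hd.2 p (Nat.mem_primeFactors.2
      ⟨hp, hpm, hm0⟩)⟩
  set f : ℕ × ℕ → (R → Bool × Bool × Bool × Bool) := fun d p =>
    (dv p d.1, dv p d.2, sgn p d.1, sgn p d.2) with hf
  have hm1 : Squarefree (m * 1) := by rwa [mul_one]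
  have hfib : ∀ a ∈ A.image f, (A.filter (fun x => f x = a)).card ≤ B.card := by
    intro a ha
    obtain ⟨b, hb, rfl⟩ := mem_image.1 ha
    have hb' := hAm b hb
    have hb1 := hm.squarefree_of_dvd hb'.1.1
    have hb2 := hm.squarefree_of_dvd hb'.1.2
    apply Finset.card_le_card_of_injOn (fun d : ℕ × ℕ => (sig d.1 b.1, sig d.2 b.2))
    · intro d hd
      rw [mem_coe, mem_filter] at hd
      have hd' := hAm d hd.1
      have hd1 := hm.squarefree_of_dvd hd'.1.1
      have hd2 := hm.squarefree_of_dvd hd'.1.2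
      have g1 : sig d.1 b.1 ∣ m := sig_dvd (e := 1) hm1 (by rw [mul_one]; exact hd'.1.1)
        (by rw [mul_one]; exact hb'.1.1) (by simp)
      have g2 : sig d.2 b.2 ∣ m := sig_dvd (e := 1) hm1 (by rw [mul_one]; exact hd'.1.2)
        (by rw [mul_one]; exact hb'.1.2) (by simp)
      rw [mem_coe, hB, mem_filter, mem_product, Nat.mem_divisors, Nat.mem_divisors]
      refine ⟨⟨⟨g1, hm0⟩, ⟨g2, hm0⟩⟩, ?_⟩
      intro p hp
      have hpp := Nat.prime_of_mem_primeFactors hp
      have hpm := Nat.dvd_of_mem_primeFactors hp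
      show L' p (dv p (sig d.1 b.1 : ℕ)) (dv p (sig d.2 b.2 : ℕ)) (sgn p (sig d.1 b.1 : ℕ))
        (sgn p (sig d.2 b.2 : ℕ))
      rw [dv_sig hd1 hb1 hpp, dv_sig hd2 hb2 hpp, sgn_sig hd1 hb1 hpp, sgn_sig hd2 hb2 hpp]
      by_cases hpR : p ∈ R
      · have h1 := congrFun hd.2 ⟨p, hpR⟩
        rw [hf] at h1
        simp only [Prod.mk.injEq] at h1
        obtain ⟨h2, h3, h4, h5⟩ := h1
        rw [h2, h3, h4, h5]
        simp only [Bool.xor_self]
        exact (hXC' p hpp hpm).1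
      · rw [← hL p hpp hpm hpR]
        exact (hXC p hpp hpm).2 _ _ _ _ _ _ _ _ (hd'.2 p hpp hpm) (hb'.2 p hpp hpm)
    · intro d hd d' hd' h
      rw [mem_coe, mem_filter] at hd hd'
      have g := hAm d hd.1
      have g' := hAm d' hd'.1
      have h1 : sig d.1 b.1 = sig d'.1 b.1 := congrArg Prod.fst h
      have h2 : sig d.2 b.2 = sig d'.2 b.2 := congrArg Prod.snd h
      have e : ∀ n, n ∣ m → n ∣ m * 1 := fun n hn => by rwa [mul_one]
      exact Prod.ext
        (sig_inj hm1 (e _ g.1.1) (e _ g'.1.1) (e _ hb'.1.1) (by simp) (by simp) h1)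
        (sig_inj hm1 (e _ g.1.2) (e _ g'.1.2) (e _ hb'.1.2) (by simp) (by simp) h2)
  have h1 := Finset.card_le_mul_card_image A B.card hfib
  have h2 : (A.image f).card ≤ 16 ^ R.card := by
    refine (card_le_univ _).trans (le_of_eq ?_)
    rw [Fintype.card_fun, Fintype.card_coe]
    norm_num
  calc A.card ≤ B.card * (A.image f).card := h1
    _ ≤ B.card * 16 ^ R.card := Nat.mul_le_mul_left _ h2
    _ = 16 ^ R.card * B.card := mul_comm _ _

end Pool.Agent.H514
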