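import Pool.Agent.H514.Loc2
import Pool.Agent.H905.SH.LocS

/-!
# Local conditions with signs for the Selmer pairs
-/

set_option autoImplicit false

namespace Pool.Agent.H514

open Finset Pool.Agent.W262.RK Pool.Agent.W307.RT Pool.Agent.W125.RK2 Pool.Agent.W262.SH

section loc

variable {p : ℕ} [hp : Fact p.Prime]

lemma even_thirdS {A B : ℤ} (hA : (p : ℤ) ∣ A) (hB : ¬ (p : ℤ) ∣ B) (hA0 : A ≠ 0) (x : ℚ) (y : ℚ_[p])
    (hy : y ≠ 0) (hxy : y ^ 2 = ((x * (x - A) * (x - B) : ℚ) : ℚ_[p])) : Even (padicValRat p (x - B)) := by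
  have hy2 : y ^ 2 ≠ 0 := pow_ne_zero 2 hy
  rw [hxy] at hy2
  replace hy2 : x * (x - A) * (x - B) ≠ 0 := fun h => hy2 (by rw [h, Rat.cast_zero])
  have hx : x ≠ 0 := left_ne_zero_of_mul (left_ne_zero_of_mul hy2)
  have hxA : x - A ≠ 0 := right_ne_zero_of_mul (left_ne_zero_of_mul hy2)
  have hxB : x - B ≠ 0 := right_ne_zero_of_mul hy2
  have hAq : (-A : ℚ) ≠ 0 := by
    intro h
    apply hA0
    have : (A : ℚ) = 0 := by linarith
    exact_mod_cast this
  have hnB : ¬ (p : ℤ) ∣ -B := fun h => hB ((dvd_neg).1 h)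
  have hBq : (-B : ℚ) ≠ 0 := by
    intro h
    apply hB
    have : B = 0 := by
      have : (B : ℚ) = 0 := by linarith
      exact_mod_cast this
    simp [this]
  have vA : 0 < padicValRat p (-A : ℚ) := by
    rw [Pool.Agent.W22.RK.v_neg, padicValRat.of_int]
    have := (padicValInt_dvd_iff (p := p) 1 A).1 (by simpa using hA)
    rcases this with h12 | h12
    · exact absurd h12 hA0
    · exact_mod_cast h12
  have vB : padicValRat p (-B : ℚ) = 0 := by
    have := Pool.Agent.W22.RK.v_int (p := p) hnB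
    push_cast at this
    exact this
  have hsum := Pool.Agent.W131.SH.v_mul3' (p := p) hx hxA hxB hxy
  rcases lt_trichotomy (padicValRat p x) 0 with h | h | h
  · have e1 : padicValRat p (x - A) = padicValRat p x := by
      have := Pool.Agent.W22.RK.v_add (p := p) (a := x) (b := -(A : ℚ)) hx hAq
        (by rw [← sub_eq_add_neg]; exact hxA) (by omega)
      rw [← sub_eq_add_neg] at this
      exact this
    have e2 : padicValRat p (x - B) = padicValRat p x := by
      have := Pool.Agent.W22.RK.v_add (p := p) (a := x) (b := -(B : ℚ)) hx hBq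
        (by rw [← sub_eq_add_neg]; exact hxB) (by omega)
      rw [← sub_eq_add_neg] at this
      exact this
    rw [Int.even_iff]
    omega
  · have e1 : padicValRat p (x - A) = 0 := by
      have := Pool.Agent.W22.RK.v_add (p := p) (a := x) (b := -(A : ℚ)) hx hAq
        (by rw [← sub_eq_add_neg]; exact hxA) (by omega)
      rw [← sub_eq_add_neg, h] at this
      exact this
    rw [Int.even_iff]
    omega
  · have e2 : padicValRat p (x - B) = 0 := by
      have := Pool.Agent.W22.RK.v_add (p := p) (a := -(B : ℚ)) (b := x) hBq hx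
        (by rw [neg_add_eq_sub]; exact hxB) (by omega)
      rw [neg_add_eq_sub, vB] at this
      exact this
    rw [e2]
    exact Even.zero

/-- the direction -/
lemma loc_dirS (c : Fin 3) {A B : ℤ} (hA0 : A ≠ 0) (hB0 : B ≠ 0) (hAB0 : A ≠ B)
    (hF : (p : ℤ) ∣ FA c A B) (hk : ¬ (p : ℤ) ∣ kA c A B) (e1 e2 : ℤ) (he1 : Squarefree e1)
    (he2 : Squarefree e2) (hls : LocSol p A B e1 e2) :
    (dv p e1 = false ∧ dv p e2 = false) ∨ (dv p e1 = (e3 c).1 ∧ dv p e2 = (e3 c).2) := by
  obtain ⟨x, hx, hxA, hxB, hs1, hs2, hs3⟩ := hls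
  replace hxA : x - A ≠ 0 := sub_ne_zero.2 hxA
  replace hxB : x - B ≠ 0 := sub_ne_zero.2 hxB
  have hq1 := Pool.Agent.W342.RK2.not_sq_of_squarefree (p := p) he1
  have hq2 := Pool.Agent.W342.RK2.not_sq_of_squarefree (p := p) he2
  have he10 : e1 ≠ 0 := by rintro rfl; exact hq1 (dvd_zero _)
  have he20 : e2 ≠ 0 := by rintro rfl; exact hq2 (dvd_zero _)
  obtain ⟨y, hy, hxy⟩ := Pool.Agent.W131.SH.exists_y (p := p) hx hxA hxB (Int.cast_ne_zero.2 he10)
    (Int.cast_ne_zero.2 he20) hs1 hs2 hs3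
  have p1 := Pool.Agent.W342.RK2.par hx hq1 hs1
  have p2 := Pool.Agent.W342.RK2.par hxA hq2 hs2
  have hsum := Pool.Agent.W131.SH.v_mul3' (p := p) hx hxA hxB hxy
  unfold FA at hF
  unfold kA at hk
  unfold e3
  by_cases c0 : c = 0
  · rw [if_pos c0] at hF hk
    have h1 := even_thirdS hF (fun h => hk ((dvd_neg).2 h)) hA0 x y hy hxy
    have h2 : Even (padicValRat p x) ↔ Even (padicValRat p (x - A)) := by
      rw [Int.even_iff] at h1 ⊢
      rw [Int.even_iff]
      omega
    rw [p1, p2] at h2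
    rw [if_pos c0]
    revert h2
    generalize dv p e1 = b1
    generalize dv p e2 = b2
    revert b1 b2
    decide
  · rw [if_neg c0] at hF hk ⊢
    by_cases c1 : c = 1
    · rw [if_pos c1] at hF hk ⊢
      have h1 := even_thirdS hF (fun h => hk ((dvd_neg).2 h)) hB0 x y hy (by rw [hxy]; congr 1; ring)
      rw [p2] at h1
      rw [h1]
      generalize dv p e1 = b1
      revert b1
      decide
    · rw [if_neg c1] at hF hk ⊢
      have hC' : (p : ℤ) ∣ B - A := by rw [← neg_sub]; exact hF.neg_right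
      have hnA : ¬ (p : ℤ) ∣ -A := fun h => hk ((dvd_neg).1 h)
      have h1 := even_thirdS hC' hnA (sub_ne_zero.2 (Ne.symm hAB0)) (x - A) y hy
        (by rw [hxy]; push_cast; ring)
      have h2 : (x - A - ((-A : ℤ) : ℚ)) = x := by push_cast; ring
      rw [h2, p1] at h1
      rw [h1]
      generalize dv p e2 = b1
      revert b1
      decide

/-- the local conditions with the sign -/
lemma loc_signS (hp2 : p ≠ 2) (c : Fin 3) {A B : ℤ} (hA0 : A ≠ 0) (hB0 : B ≠ 0) (hAB0 : A ≠ B)
    (hF : (p : ℤ) ∣ FA c A B) (hodd : Odd (padicValInt p (FA c A B)))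
    (hk : ¬ (p : ℤ) ∣ kA c A B) (e1 e2 : ℤ) (he1 : Squarefree e1)
    (he2 : Squarefree e2) (hls : LocSol p A B e1 e2) :
    LO c (sg0 p (kA c A B)) (dv p e1) (dv p e2) (sgn p e1) (sgn p e2) := by
  have hsq : jacobiSym (kA c A B * kA c A B) p = 1 := by
    rw [jacobiSym.mul_left]
    rcases Pool.Agent.W342.RK2.jac_ne hk with h | h <;> rw [h] <;> norm_num
  have hc3 : (c.castSucc : Fin 4) ≠ 3 := fin_ne3 c
  have hL : LocM c.castSucc (kA c A B) p A B := by
    unfold LocM
    unfold kA at hsq hk ⊢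
    unfold FA at hF hodd
    by_cases c0 : c = 0
    · subst c0
      simp only [if_true] at hsq hk hF hodd ⊢
      rw [if_pos (show (Fin.castSucc (0 : Fin 3) : Fin 4) = 0 from rfl)]
      exact ⟨hF, fun h => hk ((dvd_neg).2 h), hsq, Or.inl hodd⟩
    · by_cases c1 : c = 1
      · subst c1
        rw [if_neg (show ¬ ((1 : Fin 3) = 0) by decide), if_pos rfl] at hsq hk hF hodd
        rw [if_neg (show ¬ (Fin.castSucc (1 : Fin 3) : Fin 4) = 0 by decide),
          if_pos (show (Fin.castSucc (1 : Fin 3) : Fin 4) = 1 from rfl)]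
        rw [if_neg (show ¬ ((1 : Fin 3) = 0) by decide), if_pos rfl]
        exact ⟨hF, fun h => hk ((dvd_neg).2 h), hsq, Or.inl hodd⟩
      · have c2 : c = 2 := fin_2' c c0 c1
        subst c2
        rw [if_neg (show ¬ ((2 : Fin 3) = 0) by decide),
          if_neg (show ¬ ((2 : Fin 3) = 1) by decide)] at hsq hk hF hodd
        rw [if_neg (show ¬ (Fin.castSucc (2 : Fin 3) : Fin 4) = 0 by decide),
          if_neg (show ¬ (Fin.castSucc (2 : Fin 3) : Fin 4) = 1 by decide)]
        rw [if_neg (show ¬ ((2 : Fin 3) = 0) by decide),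
          if_neg (show ¬ ((2 : Fin 3) = 1) by decide)]
        exact ⟨hF, hk, hsq, Or.inl hodd⟩
  have h := Pool.Agent.H905.SH.locmS c.castSucc (kA c A B) p A B hc3 hp2 hk hA0 hB0 hAB0 hL
    e1 e2 he1 he2 hls
  unfold LL at h
  unfold LO
  have q0 := fin_0 c
  have q1 := fin_1 c
  have q2 := fin_2 c
  by_cases c0 : c = 0
  · rw [if_pos (q0.2 c0)] at h
    rw [if_pos c0]
    exact h
  · rw [if_neg (fun h' => c0 (q0.1 h'))] at h
    rw [if_neg c0]
    by_cases c1 : c = 1
    · rw [if_pos (q1.2 c1)] at h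
      rw [if_pos c1]
      exact h
    · rw [if_neg (fun h' => c1 (q1.1 h')), if_pos (q2 c0 c1)] at h
      rw [if_neg c1]
      exact h

end loc

end Pool.Agent.H514
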