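import Pool.Agent.H514.Loc2
import Pool.Graph.R_seed8.W571.RT.Rank2
import Pool.Graph.R_seed8.W45.RT.ANT

/-!
# The rank bound at a point of a twisted family
-/

set_option autoImplicit false

namespace Pool.Agent.H514

open Finset Pool.Agent.W262.RK Pool.Agent.W307.RT Pool.Agent.W125.RK2

lemma FA_eq {f : Fin 3 → ℤ} (g : ℤ) (h : f 0 - f 1 = f 2) (j : Fin 3) :
    FA j (g * f 0) (g * f 1) = g * f j := by
  unfold FA
  by_cases c0 : j = 0
  · rw [if_pos c0, c0]
  · rw [if_neg c0]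
    by_cases c1 : j = 1
    · rw [if_pos c1, c1]
    · rw [if_neg c1, fin_2' j c0 c1, ← mul_sub, h]

lemma kA_nd {p : ℕ} (hp : p.Prime) {f : Fin 3 → ℤ} {g : ℤ} (hg : ¬ (p : ℤ) ∣ g) (j : Fin 3)
    (h : ∀ l, j ≠ l → ¬ (p : ℤ) ∣ f l) : ¬ (p : ℤ) ∣ kA j (g * f 0) (g * f 1) := by
  have hpi : Prime (p : ℤ) := Nat.prime_iff_prime_int.1 hp
  unfold kA
  by_cases c0 : j = 0
  · rw [if_pos c0, dvd_neg]
    intro hd
    rcases hpi.dvd_or_dvd hd with h1 | h1
    · exact hg h1
    · exact h 1 (by rw [c0]; decide) h1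
  · rw [if_neg c0]
    by_cases c1 : j = 1
    · rw [if_pos c1, dvd_neg]
      intro hd
      rcases hpi.dvd_or_dvd hd with h1 | h1
      · exact hg h1
      · exact h 0 c0 h1
    · rw [if_neg c1]
      intro hd
      rcases hpi.dvd_or_dvd hd with h1 | h1
      · exact hg h1
      · exact h 0 c0 h1

lemma dir_xc_bool : ∀ e1 e2 a b a' b' : Bool, ((a = false ∧ b = false) ∨ (a = e1 ∧ b = e2)) →
    ((a' = false ∧ b' = false) ∨ (a' = e1 ∧ b' = e2)) →
    ((xor a a' = false ∧ xor b b' = false) ∨ (xor a a' = e1 ∧ xor b b' = e2)) := by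
  decide

/-- the conditions at a prime not dividing `g` -/
def Lq (s w : Fin 3 → ℕ) (E : Finset ℕ) (p : ℕ) (a b h g : Bool) : Prop :=
  LO2 s E p a b h g ∧ ∀ j, p ∣ w j → (a = false ∧ b = false) ∨ (a = (e3 j).1 ∧ b = (e3 j).2)

lemma Lq_xc (s w : Fin 3 → ℕ) (E : Finset ℕ) (p : ℕ) : XC (Lq s w E p) := by
  refine ⟨⟨fun j _ => (LO_xc j _).1, fun j _ => Or.inl ⟨rfl, rfl⟩⟩, ?_⟩
  intro a b c d a' b' c' d' h h'
  refine ⟨fun j hj => (LO_xc j _).2 _ _ _ _ _ _ _ _ (h.1 j hj) (h'.1 j hj), fun j hj => ?_⟩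
  exact dir_xc_bool _ _ _ _ _ _ (h.2 j hj) (h'.2 j hj)

/-- the conditions -/
def Lr (g : ℕ) (s w : Fin 3 → ℕ) (E : Finset ℕ) (p : ℕ) (a b h g' : Bool) : Prop :=
  p ∣ g ∨ Lq s w E p a b h g'

lemma Lr_xc (g : ℕ) (s w : Fin 3 → ℕ) (E : Finset ℕ) (p : ℕ) : XC (Lr g s w E p) := by
  refine ⟨Or.inr (Lq_xc s w E p).1, ?_⟩
  intro a b c d a' b' c' d' h h'
  rcases h with h | h
  · exact Or.inl h
  · rcases h' with h' | h'
    · exact Or.inl h'
    · exact Or.inr ((Lq_xc s w E p).2 _ _ _ _ _ _ _ _ h h')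

/-- the number of the primes outside the modulus -/
lemma bad3 {f : Fin 3 → ℤ} {z y X K g : ℕ} (hz : 2 ≤ z) (hg : 1 ≤ g)
    (_hX : 1 ≤ X) (hy : 1 ≤ y) (h0 : ∀ j, f j ≠ 0)
    (hb : ∀ j, (f j).natAbs ≤ X ^ 2) (hK : X < (y + 1) ^ K) (hf : f 0 - f 1 = f 2) :
    ((2 * ((g : ℤ) * f 0) * ((g : ℤ) * f 1) *
      ((g : ℤ) * f 0 - (g : ℤ) * f 1)).natAbs.primeFactors.filter
        (fun q => ¬ q ∣ (∏ j, S1 z y f j) * ∏ j, S2 z y f j)).card ≤
      z + 3 * (2 * K) + g.primeFactors.card := by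
  have hsub : ((2 * ((g : ℤ) * f 0) * ((g : ℤ) * f 1) *
      ((g : ℤ) * f 0 - (g : ℤ) * f 1)).natAbs.primeFactors.filter
        (fun q => ¬ q ∣ (∏ j, S1 z y f j) * ∏ j, S2 z y f j)) ⊆
      ((Icc 1 z) ∪ univ.biUnion (fun j => (f j).natAbs.primeFactors.filter (y < ·))) ∪
        g.primeFactors := by
    intro q hq
    rw [mem_filter] at hq
    have hp := Nat.prime_of_mem_primeFactors hq.1
    have hdv := Nat.dvd_of_mem_primeFactors hq.1
    rw [mem_union, mem_union, mem_Icc]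
    rcases Nat.lt_or_ge z q with h | h
    swap
    · exact Or.inl (Or.inl ⟨hp.one_lt.le, h⟩)
    · have hqi : Prime (q : ℤ) := Nat.prime_iff_prime_int.1 hp
      have hdv2 : (q : ℤ) ∣ 2 * ((g : ℤ) * f 0) * ((g : ℤ) * f 1) *
          ((g : ℤ) * f 0 - (g : ℤ) * f 1) := Int.natCast_dvd.2 hdv
      rw [← mul_sub, hf] at hdv2
      have hk : (q : ℤ) ∣ (g : ℤ) ∨ ∃ k, (q : ℤ) ∣ f k := by
        rcases hqi.dvd_or_dvd hdv2 with h1 | h1
        · rcases hqi.dvd_or_dvd h1 with h2 | h2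
          · rcases hqi.dvd_or_dvd h2 with h3 | h3
            · exfalso
              have h4 : q ∣ 2 := by exact_mod_cast h3
              have h5 := Nat.le_of_dvd (by norm_num) h4
              omega
            · rcases hqi.dvd_or_dvd h3 with h4 | h4
              · exact Or.inl h4
              · exact Or.inr ⟨0, h4⟩
          · rcases hqi.dvd_or_dvd h2 with h4 | h4
            · exact Or.inl h4
            · exact Or.inr ⟨1, h4⟩
        · rcases hqi.dvd_or_dvd h1 with h4 | h4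
          · exact Or.inl h4
          · exact Or.inr ⟨2, h4⟩
      rcases hk with hk | ⟨l, hl⟩
      · right
        rw [Nat.mem_primeFactors]
        exact ⟨hp, Int.natCast_dvd_natCast.1 hk, by omega⟩
      · left
        rcases Nat.lt_or_ge y q with hyq | hyq
        · right
          rw [mem_biUnion]
          refine ⟨l, mem_univ _, ?_⟩
          rw [mem_filter, Nat.mem_primeFactors]
          exact ⟨⟨hp, Int.natCast_dvd.1 hl, Int.natAbs_ne_zero.2 (h0 l)⟩, hyq⟩
        · exfalso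
          have hPS : q ∈ PS z y := mem_PS.2 ⟨⟨h, hyq⟩, hp⟩
          apply hq.2
          by_cases hsq : (q : ℤ) ^ 2 ∣ f l
          · apply Dvd.dvd.mul_left
            refine dvd_trans ?_ (dvd_prod_of_mem _ (mem_univ l))
            exact dvd_prod_of_mem _ (mem_filter.2 ⟨hPS, hsq⟩)
          · apply Dvd.dvd.mul_right
            refine dvd_trans ?_ (dvd_prod_of_mem _ (mem_univ l))
            exact dvd_prod_of_mem _ (mem_filter.2 ⟨hPS, hl, hsq⟩)
  have hone : ∀ j, ((f j).natAbs.primeFactors.filter (y < ·)).card ≤ 2 * K := by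
    intro j
    set S := (f j).natAbs.primeFactors.filter (y < ·) with hS
    have h1 : (y + 1) ^ S.card ≤ ∏ q ∈ S, q :=
      Finset.pow_card_le_prod _ _ _ (fun q hq => by
        have := (mem_filter.1 hq).2
        omega)
    have h2 : ∏ q ∈ S, q ∣ (f j).natAbs :=
      (prod_dvd_prod_of_subset _ _ _ (filter_subset _ _)).trans (Nat.prod_primeFactors_dvd _)
    have h3 : ∏ q ∈ S, q ≤ (f j).natAbs :=
      Nat.le_of_dvd (Nat.pos_of_ne_zero (Int.natAbs_ne_zero.2 (h0 j))) h2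
    have h4 : (y + 1) ^ S.card < (y + 1) ^ (2 * K) := by
      calc (y + 1) ^ S.card ≤ X ^ 2 := h1.trans (h3.trans (hb j))
        _ < ((y + 1) ^ K) ^ 2 := Nat.pow_lt_pow_left hK (by norm_num)
        _ = (y + 1) ^ (2 * K) := by rw [← pow_mul, mul_comm]
    exact ((Nat.pow_lt_pow_iff_right (by omega)).1 h4).le
  refine (card_le_card hsub).trans ((card_union_le _ _).trans (add_le_add
    ((card_union_le _ _).trans (add_le_add ?_ ?_)) le_rfl))
  · simp
  · refine card_biUnion_le.trans ?_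
    refine (sum_le_sum fun j _ => hone j).trans ?_
    rw [sum_const, card_univ, smul_eq_mul, Fintype.card_fin]

theorem rank_g {z y X K g : ℕ} {f : Fin 3 → ℤ} (hz : 2 ≤ z) (hG : Gd z f) (hg : 1 ≤ g)
    (hX : 1 ≤ X) (hy : 1 ≤ y) (hb : ∀ j, (f j).natAbs ≤ X ^ 2) (hK : X < (y + 1) ^ K)
    (hf : f 0 - f 1 = f 2) (E : Finset ℕ)
    (hE : ∀ j, ∀ p : ℕ, p.Prime → p ∣ S1 z y f j → ¬ p ∣ g →
      (p ∈ E ↔ jacobiSym (kA j ((g : ℤ) * f 0) ((g : ℤ) * f 1)) p = -1)) :
    2 ^ Module.finrank ℤ (EAB ((g : ℤ) * f 0) ((g : ℤ) * f 1)).toAffine.Point ≤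
      4 ^ (z + 2) * (4 ^ 6) ^ K * 64 ^ g.primeFactors.card *
        2 ^ (∑ j, (S2 z y f j).primeFactors.card) *
        NL (∏ j, S1 z y f j) (LO2 (S1 z y f) E) := by
  classical
  set s := S1 z y f with hs
  set w := S2 z y f with hw
  have h0 := hG.1
  have hg0 : (g : ℤ) ≠ 0 := by exact_mod_cast (by omega : g ≠ 0)
  have hrp : (∏ j, s j) * ∏ j, w j = ∏ j, rp z y (f j) := by
    rw [← prod_mul_distrib]
    exact prod_congr rfl fun j _ => Pool.Agent.W45.RT.S1_mul_S2 f z y j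
  have hmd : (∏ j, s j) * ∏ j, w j ∣ PP z y := by
    rw [hrp]
    exact Tup_prod_dvd (Pool.Agent.W45.RT.rpG_mem hG le_rfl)
  have hmsq : Squarefree ((∏ j, s j) * ∏ j, w j) := (PP_squarefree z y).squarefree_of_dvd hmd
  have hPSof : ∀ p : ℕ, p.Prime → p ∣ (∏ j, s j) * ∏ j, w j → p ∈ PS z y := fun p hp h =>
    (prime_dvd_PP hp).1 (h.trans hmd)
  have hodd2 : ∀ p : ℕ, p.Prime → p ∣ (∏ j, s j) * ∏ j, w j → p ≠ 2 := by
    intro p hp h
    have h1 := (mem_PS.1 (hPSof p hp h)).1.1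
    omega
  have hdvs : ∀ (p : ℕ), p.Prime → ∀ j, p ∣ s j → (p : ℤ) ∣ f j ∧ ¬ (p : ℤ) ^ 2 ∣ f j ∧ z < p := by
    intro p hp j h
    have h1 := (Pool.Agent.W571.RT.S1_dvd_iff hp).1 h
    exact ⟨h1.2.1, h1.2.2, (mem_PS.1 h1.1).1.1⟩
  have hdvw : ∀ (p : ℕ), p.Prime → ∀ j, p ∣ w j → (p : ℤ) ∣ f j ∧ (p : ℤ) ^ 2 ∣ f j ∧ z < p := by
    intro p hp j h
    rw [hw] at h
    unfold S2 at h
    rw [prime_dvd_prodS (fun q hq => (mem_PS.1 (mem_filter.1 hq).1).2) hp, mem_filter] at h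
    exact ⟨(dvd_pow_self (p : ℤ) two_ne_zero).trans h.2, h.2, (mem_PS.1 h.1).1.1⟩
  have hF2 : (g : ℤ) * f 0 ≠ (g : ℤ) * f 1 := by
    intro h
    have h1 : f 2 = 0 := by
      rw [← hf]
      have := mul_left_cancel₀ hg0 h
      rw [this, sub_self]
    exact h0 2 h1
  have hdesc := Pool.Agent.W214.RK2.desc4 ((∏ j, s j) * ∏ j, w j) (Lr g s w E)
    ((g : ℤ) * f 0) ((g : ℤ) * f 1) (mul_ne_zero hg0 (h0 0)) (mul_ne_zero hg0 (h0 1)) hF2
    (by
      rw [← Nat.not_even_iff_odd, even_iff_two_dvd]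
      intro h
      exact hodd2 2 Nat.prime_two h rfl) hmsq
    (fun p _ _ => Lr_xc g s w E p)
    (fun p hpf hpd x x' hx' hcurve e1 e2 he1 he2 hsq1 hsq2 => by
      have hpp : p.Prime := Fact.out
      by_cases hpg : p ∣ g
      · exact Or.inl hpg
      · right
        have hpgi : ¬ (p : ℤ) ∣ (g : ℤ) := fun h => hpg (Int.natCast_dvd_natCast.1 h)
        have hp2 := hodd2 p hpp hpd
        have hkn : ∀ j, (p : ℤ) ∣ f j → z < p →
            ¬ (p : ℤ) ∣ kA j ((g : ℤ) * f 0) ((g : ℤ) * f 1) := by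
          intro j hj hzp
          exact kA_nd hpp hpgi j fun l hjl hl => hG.2 p hpp hzp j l hjl ⟨hj, hl⟩
        have hFd : ∀ j, (p : ℤ) ∣ f j → (p : ℤ) ∣ FA j ((g : ℤ) * f 0) ((g : ℤ) * f 1) := by
          intro j hj
          rw [FA_eq _ hf]
          exact hj.mul_left _
        refine ⟨fun j hj => ?_, fun j hj => ?_⟩
        · obtain ⟨d1, d2, d3⟩ := hdvs p hpp j hj
          have hk := hkn j d1 d3
          have hval : Odd (padicValInt p (FA j ((g : ℤ) * f 0) ((g : ℤ) * f 1))) := by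
            rw [FA_eq _ hf, padicValInt.mul hg0 (h0 j), padicValInt.eq_zero_of_not_dvd hpgi,
              zero_add]
            have hv1 : padicValInt p (f j) = 1 := by
              apply le_antisymm
              · by_contra h
                push Not at h
                exact d2 ((padicValInt_dvd_iff 2 _).2 (Or.inr (by omega)))
              · rcases (padicValInt_dvd_iff (p := p) 1 (f j)).1 (by simpa using d1) with h | h
                · exact absurd h (h0 j)
                · exact h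
            rw [hv1]
            exact odd_one
          have h := loc_sign hp2 j (mul_ne_zero hg0 (h0 0)) (mul_ne_zero hg0 (h0 1)) hF2
            (hFd j d1) hval hk x x' hx' hcurve e1 e2 he1 he2 hsq1 hsq2
          have hdec : decide (p ∈ E) = sg0 p (kA j ((g : ℤ) * f 0) ((g : ℤ) * f 1)) := by
            unfold sg0
            exact decide_eq_decide.2 (hE j p hpp hj hpg)
          rw [hdec]
          exact h
        · obtain ⟨d1, d2, d3⟩ := hdvw p hpp j hj
          exact loc_dir j (mul_ne_zero hg0 (h0 0)) (mul_ne_zero hg0 (h0 1)) hF2 (hFd j d1)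
            (hkn j d1 d3) x x' hx' hcurve e1 e2 he1 he2 hsq1 hsq2)
  have hrel := relax ((∏ j, s j) * ∏ j, w j) g.primeFactors (Lr g s w E) (Lq s w E) hmsq
    (fun p _ _ => Lr_xc g s w E p) (fun p _ _ => Lq_xc s w E p)
    (fun p hp _ hpg => by
      have h1 : ¬ p ∣ g := fun h => hpg (Nat.mem_primeFactors.2 ⟨hp, h, by omega⟩)
      funext a b c d
      unfold Lr
      apply propext
      constructor
      · intro h
        exact h.resolve_left h1
      · intro h
        exact Or.inr h)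
  have hsub := sub2 (∏ j, s j) (∏ j, w j) (Lq s w E) hmsq (fun p _ _ => Lq_xc s w E p)
    (fun p hp hpw => by
      obtain ⟨j0, _, hj0⟩ := (hp.prime.dvd_finsetProd_iff _).1 hpw
      exact ⟨e3 j0, fun a b c d h => h.2 j0 hj0⟩)
  have hcon : NL (∏ j, s j) (Lq s w E) = NL (∏ j, s j) (LO2 s E) := by
    apply NL_congr
    intro p hp
    have hpp := Nat.prime_of_mem_primeFactors hp
    have hpd := Nat.dvd_of_mem_primeFactors hp
    funext a b c d
    unfold Lq
    apply propext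
    constructor
    · intro h
      exact h.1
    · intro h
      refine ⟨h, fun j hj => ?_⟩
      exfalso
      have h1 : p * p ∣ (∏ j, s j) * ∏ j, w j :=
        mul_dvd_mul hpd (hj.trans (dvd_prod_of_mem w (mem_univ j)))
      exact (Nat.squarefree_iff_prime_squarefree.1 hmsq p hpp) h1
  have hω : (∏ j, w j).primeFactors.card ≤ ∑ j, (w j).primeFactors.card := by
    have hw0 : ∀ j, w j ≠ 0 := by
      intro j
      have h1 := right_ne_zero_of_mul hmsq.ne_zero
      exact (prod_ne_zero_iff.1 h1) j (mem_univ j)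
    have h1 : (∏ j, w j).primeFactors ⊆ univ.biUnion (fun j => (w j).primeFactors) := by
      intro p hp
      rw [mem_biUnion]
      have hpp := Nat.prime_of_mem_primeFactors hp
      obtain ⟨j, _, hj⟩ := (hpp.prime.dvd_finsetProd_iff _).1 (Nat.dvd_of_mem_primeFactors hp)
      exact ⟨j, mem_univ _, Nat.mem_primeFactors.2 ⟨hpp, hj, hw0 j⟩⟩
    exact (Finset.card_le_card h1).trans card_biUnion_le
  have hbad := bad3 (z := z) (y := y) hz hg hX hy h0 hb hK hf
  rw [← hs, ← hw] at hbad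
  rw [hcon] at hsub
  set N := NL (∏ j, s j) (LO2 s E) with hN
  calc 2 ^ Module.finrank ℤ (EAB ((g : ℤ) * f 0) ((g : ℤ) * f 1)).toAffine.Point
      ≤ 4 ^ (((2 * ((g : ℤ) * f 0) * ((g : ℤ) * f 1) *
      ((g : ℤ) * f 0 - (g : ℤ) * f 1)).natAbs.primeFactors.filter
        (fun q => ¬ q ∣ (∏ j, s j) * ∏ j, w j)).card + 2) *
        NL ((∏ j, s j) * ∏ j, w j) (Lr g s w E) := hdesc
    _ ≤ 4 ^ ((z + 3 * (2 * K) + g.primeFactors.card) + 2) *
        (16 ^ g.primeFactors.card * (2 ^ (∑ j, (w j).primeFactors.card) * N)) := by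
        apply Nat.mul_le_mul
        · exact Nat.pow_le_pow_right (by norm_num) (by omega)
        · refine hrel.trans (Nat.mul_le_mul_left _ (hsub.trans ?_))
          exact Nat.mul_le_mul_right _ (Nat.pow_le_pow_right (by norm_num) hω)
    _ = _ := by
        have e1 : (64 : ℕ) ^ g.primeFactors.card = 4 ^ g.primeFactors.card *
            16 ^ g.primeFactors.card := by
          rw [← mul_pow]
          norm_num
        have e2 : ((4 : ℕ) ^ 6) ^ K = 4 ^ (3 * (2 * K)) := by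
          rw [← pow_mul]
          congr 1
          ring
        rw [e1, e2, pow_add, pow_add, pow_add, pow_add]
        ring

end Pool.Agent.H514
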