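import Pool.Agent.H514.RankG
import Pool.Agent.H514.Loc2S
import Pool.Agent.H905.SH.MainS

/-!
# The bound of the number of the Selmer pairs at a point of a twisted family
-/

set_option autoImplicit false

namespace Pool.Agent.H514

open Finset Pool.Agent.W262.RK Pool.Agent.W307.RT Pool.Agent.W125.RK2 Pool.Agent.W262.SH

/-- a function of the curves `y² = x (x - A) (x - B)` that is bounded by the local count -/
def RBd (Q : ℤ → ℤ → ℕ) : Prop := ∀ (z y X K g : ℕ) (f : Fin 3 → ℤ), 2 ≤ z → Gd z f → 1 ≤ g →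
    1 ≤ X → 1 ≤ y → (∀ j, (f j).natAbs ≤ X ^ 2) → X < (y + 1) ^ K →
    f 0 - f 1 = f 2 → ∀ (E : Finset ℕ), (∀ j, ∀ p : ℕ, p.Prime → p ∣ S1 z y f j → ¬ p ∣ g →
      (p ∈ E ↔ jacobiSym (kA j ((g : ℤ) * f 0) ((g : ℤ) * f 1)) p = -1)) →
    Q ((g : ℤ) * f 0) ((g : ℤ) * f 1) ≤
      4 ^ (z + 2) * (4 ^ 6) ^ K * 64 ^ g.primeFactors.card *
        2 ^ (∑ j, (S2 z y f j).primeFactors.card) *
        NL (∏ j, S1 z y f j) (LO2 (S1 z y f) E)

theorem rbd_rank : RBd (fun A B => 2 ^ Module.finrank ℤ (EAB A B).toAffine.Point) :=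
  fun _ _ _ _ _ _ hz hG hg hX hy hb hK hf E hE => rank_g hz hG hg hX hy hb hK hf E hE

/-- the number of the Selmer pairs -/
noncomputable def QS (A B : ℤ) : ℕ := (SelS A B).ncard

theorem rbd_sel : RBd QS := by
  intro z y X K g f hz hG hg hX hy hb hK hf E hE
  classical
  set s := S1 z y f with hs
  set w := S2 z y f with hw
  have h0 := hG.1
  have hg0 : (g : ℤ) ≠ 0 := by exact_mod_cast (by omega : g ≠ 0)
  have hrp : (∏ j, s j) * ∏ j, w j = ∏ j, rp z y (f j) := by
    rw [← prod_mul_distrib]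
    exact prod_congr rfl fun j _ => Pool.Agent.W45.RT.S1_mul_S2 f z y j
  have hmd : (∏ j, s j) * ∏ j, w j ∣ PP z y := by
    rw [hrp]
    exact Tup_prod_dvd (Pool.Agent.W45.RT.rpG_mem hG le_rfl)
  have hmsq : Squarefree ((∏ j, s j) * ∏ j, w j) := (PP_squarefree z y).squarefree_of_dvd hmd
  have hPSof : ∀ p : ℕ, p.Prime → p ∣ (∏ j, s j) * ∏ j, w j → p ∈ PS z y := fun p hp h =>
    (prime_dvd_PP hp).1 (h.trans hmd)
  have hodd2 : ∀ p : ℕ, p.Prime → p ∣ (∏ j, s j) * ∏ j, w j → p ≠ 2 := by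
    intro p hp h
    have h1 := (mem_PS.1 (hPSof p hp h)).1.1
    omega
  have hdvs : ∀ (p : ℕ), p.Prime → ∀ j, p ∣ s j → (p : ℤ) ∣ f j ∧ ¬ (p : ℤ) ^ 2 ∣ f j ∧ z < p := by
    intro p hp j h
    have h1 := (Pool.Agent.W571.RT.S1_dvd_iff hp).1 h
    exact ⟨h1.2.1, h1.2.2, (mem_PS.1 h1.1).1.1⟩
  have hdvw : ∀ (p : ℕ), p.Prime → ∀ j, p ∣ w j → (p : ℤ) ∣ f j ∧ (p : ℤ) ^ 2 ∣ f j ∧ z < p := by
    intro p hp j h
    rw [hw] at h
    unfold S2 at h
    rw [prime_dvd_prodS (fun q hq => (mem_PS.1 (mem_filter.1 hq).1).2) hp, mem_filter] at h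
    exact ⟨(dvd_pow_self (p : ℤ) two_ne_zero).trans h.2, h.2, (mem_PS.1 h.1).1.1⟩
  have hF2 : (g : ℤ) * f 0 ≠ (g : ℤ) * f 1 := by
    intro h
    have h1 : f 2 = 0 := by
      rw [← hf]
      have := mul_left_cancel₀ hg0 h
      rw [this, sub_self]
    exact h0 2 h1
  have hdesc := Pool.Agent.H905.SH.desc5 ((∏ j, s j) * ∏ j, w j) (Lr g s w E)
    ((g : ℤ) * f 0) ((g : ℤ) * f 1) (mul_ne_zero hg0 (h0 0)) (mul_ne_zero hg0 (h0 1)) hF2
    (by
      rw [← Nat.not_even_iff_odd, even_iff_two_dvd]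
      intro h
      exact hodd2 2 Nat.prime_two h rfl) hmsq
    (fun p _ _ => Lr_xc g s w E p)
    (fun p hpf hpd e1 e2 he1 he2 hls => by
      have hpp : p.Prime := Fact.out
      by_cases hpg : p ∣ g
      · exact Or.inl hpg
      · right
        have hpgi : ¬ (p : ℤ) ∣ (g : ℤ) := fun h => hpg (Int.natCast_dvd_natCast.1 h)
        have hp2 := hodd2 p hpp hpd
        have hkn : ∀ j, (p : ℤ) ∣ f j → z < p →
            ¬ (p : ℤ) ∣ kA j ((g : ℤ) * f 0) ((g : ℤ) * f 1) := by
          intro j hj hzp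
          exact kA_nd hpp hpgi j fun l hjl hl => hG.2 p hpp hzp j l hjl ⟨hj, hl⟩
        have hFd : ∀ j, (p : ℤ) ∣ f j → (p : ℤ) ∣ FA j ((g : ℤ) * f 0) ((g : ℤ) * f 1) := by
          intro j hj
          rw [FA_eq _ hf]
          exact hj.mul_left _
        refine ⟨fun j hj => ?_, fun j hj => ?_⟩
        · obtain ⟨d1, d2, d3⟩ := hdvs p hpp j hj
          have hk := hkn j d1 d3
          have hval : Odd (padicValInt p (FA j ((g : ℤ) * f 0) ((g : ℤ) * f 1))) := by
            rw [FA_eq _ hf, padicValInt.mul hg0 (h0 j), padicValInt.eq_zero_of_not_dvd hpgi,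
              zero_add]
            have hv1 : padicValInt p (f j) = 1 := by
              apply le_antisymm
              · by_contra h
                push Not at h
                exact d2 ((padicValInt_dvd_iff 2 _).2 (Or.inr (by omega)))
              · rcases (padicValInt_dvd_iff (p := p) 1 (f j)).1 (by simpa using d1) with h | h
                · exact absurd h (h0 j)
                · exact h
            rw [hv1]
            exact odd_one
          have h := loc_signS hp2 j (mul_ne_zero hg0 (h0 0)) (mul_ne_zero hg0 (h0 1)) hF2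
            (hFd j d1) hval hk e1 e2 he1 he2 hls
          have hdec : decide (p ∈ E) = sg0 p (kA j ((g : ℤ) * f 0) ((g : ℤ) * f 1)) := by
            unfold sg0
            exact decide_eq_decide.2 (hE j p hpp hj hpg)
          rw [hdec]
          exact h
        · obtain ⟨d1, d2, d3⟩ := hdvw p hpp j hj
          exact loc_dirS j (mul_ne_zero hg0 (h0 0)) (mul_ne_zero hg0 (h0 1)) hF2 (hFd j d1)
            (hkn j d1 d3) e1 e2 he1 he2 hls)
  have hrel := relax ((∏ j, s j) * ∏ j, w j) g.primeFactors (Lr g s w E) (Lq s w E) hmsq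
    (fun p _ _ => Lr_xc g s w E p) (fun p _ _ => Lq_xc s w E p)
    (fun p hp _ hpg => by
      have h1 : ¬ p ∣ g := fun h => hpg (Nat.mem_primeFactors.2 ⟨hp, h, by omega⟩)
      funext a b c d
      unfold Lr
      apply propext
      constructor
      · intro h
        exact h.resolve_left h1
      · intro h
        exact Or.inr h)
  have hsub := sub2 (∏ j, s j) (∏ j, w j) (Lq s w E) hmsq (fun p _ _ => Lq_xc s w E p)
    (fun p hp hpw => by
      obtain ⟨j0, _, hj0⟩ := (hp.prime.dvd_finsetProd_iff _).1 hpw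
      exact ⟨e3 j0, fun a b c d h => h.2 j0 hj0⟩)
  have hcon : NL (∏ j, s j) (Lq s w E) = NL (∏ j, s j) (LO2 s E) := by
    apply NL_congr
    intro p hp
    have hpp := Nat.prime_of_mem_primeFactors hp
    have hpd := Nat.dvd_of_mem_primeFactors hp
    funext a b c d
    unfold Lq
    apply propext
    constructor
    · intro h
      exact h.1
    · intro h
      refine ⟨h, fun j hj => ?_⟩
      exfalso
      have h1 : p * p ∣ (∏ j, s j) * ∏ j, w j :=
        mul_dvd_mul hpd (hj.trans (dvd_prod_of_mem w (mem_univ j)))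
      exact (Nat.squarefree_iff_prime_squarefree.1 hmsq p hpp) h1
  have hω : (∏ j, w j).primeFactors.card ≤ ∑ j, (w j).primeFactors.card := by
    have hw0 : ∀ j, w j ≠ 0 := by
      intro j
      have h1 := right_ne_zero_of_mul hmsq.ne_zero
      exact (prod_ne_zero_iff.1 h1) j (mem_univ j)
    have h1 : (∏ j, w j).primeFactors ⊆ univ.biUnion (fun j => (w j).primeFactors) := by
      intro p hp
      rw [mem_biUnion]
      have hpp := Nat.prime_of_mem_primeFactors hp
      obtain ⟨j, _, hj⟩ := (hpp.prime.dvd_finsetProd_iff _).1 (Nat.dvd_of_mem_primeFactors hp)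
      exact ⟨j, mem_univ _, Nat.mem_primeFactors.2 ⟨hpp, hj, hw0 j⟩⟩
    exact (Finset.card_le_card h1).trans card_biUnion_le
  have hbad := bad3 (z := z) (y := y) hz hg hX hy h0 hb hK hf
  rw [← hs, ← hw] at hbad
  rw [hcon] at hsub
  set N := NL (∏ j, s j) (LO2 s E) with hN
  calc QS ((g : ℤ) * f 0) ((g : ℤ) * f 1)
      ≤ 4 ^ (((2 * ((g : ℤ) * f 0) * ((g : ℤ) * f 1) *
      ((g : ℤ) * f 0 - (g : ℤ) * f 1)).natAbs.primeFactors.filter
        (fun q => ¬ q ∣ (∏ j, s j) * ∏ j, w j)).card + 2) *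
        NL ((∏ j, s j) * ∏ j, w j) (Lr g s w E) := hdesc.2
    _ ≤ 4 ^ ((z + 3 * (2 * K) + g.primeFactors.card) + 2) *
        (16 ^ g.primeFactors.card * (2 ^ (∑ j, (w j).primeFactors.card) * N)) := by
        apply Nat.mul_le_mul
        · exact Nat.pow_le_pow_right (by norm_num) (by omega)
        · refine hrel.trans (Nat.mul_le_mul_left _ (hsub.trans ?_))
          exact Nat.mul_le_mul_right _ (Nat.pow_le_pow_right (by norm_num) hω)
    _ = _ := by
        have e1 : (64 : ℕ) ^ g.primeFactors.card = 4 ^ g.primeFactors.card *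
            16 ^ g.primeFactors.card := by
          rw [← mul_pow]
          norm_num
        have e2 : ((4 : ℕ) ^ 6) ^ K = 4 ^ (3 * (2 * K)) := by
          rw [← pow_mul]
          congr 1
          ring
        rw [e1, e2, pow_add, pow_add, pow_add, pow_add]
        ring

end Pool.Agent.H514
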