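import Pool.Agent.H514.Defs
import Pool.Graph.R_seed8.W125.RK2.SUBB

/-!
# Growth of the Selmer count by the factor 2 for a prime with a direction
-/

set_option autoImplicit false

namespace Pool.Agent.H514

open Finset Pool.Agent.W262.RK Pool.Agent.W307.RT Pool.Agent.W125.RK2

lemma bool_dir : ∀ e1 e2 v w v' w' : Bool, ((v = false ∧ w = false) ∨ (v = e1 ∧ w = e2)) →
    ((v' = false ∧ w' = false) ∨ (v' = e1 ∧ w' = e2)) → (v || w) = (v' || w') →
    v = v' ∧ w = w' := by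
  decide

theorem sub2 (m e : ℕ) (L : ℕ → Bool → Bool → Bool → Bool → Prop) (hme : Squarefree (m * e))
    (hXC : ∀ p, p.Prime → p ∣ m → XC (L p))
    (hdir : ∀ p, p.Prime → p ∣ e → ∃ ε : Bool × Bool, ∀ v w h g, L p v w h g →
      (v = false ∧ w = false) ∨ (v = ε.1 ∧ w = ε.2)) :
    NL (m * e) L ≤ 2 ^ e.primeFactors.card * NL m L := by
  classical
  have he := hme.squarefree_of_dvd (Dvd.intro_left m rfl)
  have hm0 : m ≠ 0 := left_ne_zero_of_mul hme.ne_zero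
  have he0 : e ≠ 0 := right_ne_zero_of_mul hme.ne_zero
  unfold NL
  set A := ((m * e).divisors ×ˢ (m * e).divisors).filter (fun d : ℕ × ℕ =>
    ∀ p ∈ (m * e).primeFactors, L p (dv p d.1) (dv p d.2) (sgn p d.1) (sgn p d.2)) with hA
  set B := (m.divisors ×ˢ m.divisors).filter (fun d : ℕ × ℕ => ∀ p ∈ m.primeFactors,
    L p (dv p d.1) (dv p d.2) (sgn p d.1) (sgn p d.2)) with hB
  have hAm : ∀ d ∈ A, (d.1 ∣ m * e ∧ d.2 ∣ m * e) ∧ ∀ p, p.Prime → p ∣ m →
      L p (dv p d.1) (dv p d.2) (sgn p d.1) (sgn p d.2) := by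
    intro d hd
    rw [hA, mem_filter, mem_product, Nat.mem_divisors, Nat.mem_divisors] at hd
    exact ⟨⟨hd.1.1.1, hd.1.2.1⟩, fun p hp hpm => hd.2 p (Nat.mem_primeFactors.2
      ⟨hp, hpm.trans (Dvd.intro _ rfl), hme.ne_zero⟩)⟩
  have hAe : ∀ d ∈ A, ∀ p, p.Prime → p ∣ e →
      L p (dv p d.1) (dv p d.2) (sgn p d.1) (sgn p d.2) := by
    intro d hd p hp hpe
    rw [hA, mem_filter] at hd
    exact hd.2 p (Nat.mem_primeFactors.2 ⟨hp, hpe.trans (Dvd.intro_left _ rfl), hme.ne_zero⟩)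
  set f : ℕ × ℕ → ℕ × ℕ := fun d => (d.1.gcd e, d.2.gcd e) with hf
  have hfib : ∀ a ∈ A.image f, (A.filter (fun x => f x = a)).card ≤ B.card := by
    intro a ha
    obtain ⟨b, hb, rfl⟩ := mem_image.1 ha
    have hb' := hAm b hb
    have hb1 := hme.squarefree_of_dvd hb'.1.1
    have hb2 := hme.squarefree_of_dvd hb'.1.2
    apply Finset.card_le_card_of_injOn (fun d : ℕ × ℕ => (sig d.1 b.1, sig d.2 b.2))
    · intro d hd
      rw [mem_coe, mem_filter] at hd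
      have hd' := hAm d hd.1
      have hd1 := hme.squarefree_of_dvd hd'.1.1
      have hd2 := hme.squarefree_of_dvd hd'.1.2
      have e1 : d.1.gcd e = b.1.gcd e := congrArg Prod.fst hd.2
      have e2 : d.2.gcd e = b.2.gcd e := congrArg Prod.snd hd.2
      rw [mem_coe, hB, mem_filter, mem_product, Nat.mem_divisors, Nat.mem_divisors]
      refine ⟨⟨⟨sig_dvd hme hd'.1.1 hb'.1.1 e1, hm0⟩, ⟨sig_dvd hme hd'.1.2 hb'.1.2 e2, hm0⟩⟩, ?_⟩
      intro p hp
      have hpp := Nat.prime_of_mem_primeFactors hp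
      have hpm := Nat.dvd_of_mem_primeFactors hp
      show L p (dv p (sig d.1 b.1 : ℕ)) (dv p (sig d.2 b.2 : ℕ)) (sgn p (sig d.1 b.1 : ℕ))
        (sgn p (sig d.2 b.2 : ℕ))
      rw [dv_sig hd1 hb1 hpp, dv_sig hd2 hb2 hpp, sgn_sig hd1 hb1 hpp, sgn_sig hd2 hb2 hpp]
      exact (hXC p hpp hpm).2 _ _ _ _ _ _ _ _ (hd'.2 p hpp hpm) (hb'.2 p hpp hpm)
    · intro d hd d' hd' h
      rw [mem_coe, mem_filter] at hd hd'
      have g := hAm d hd.1
      have g' := hAm d' hd'.1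
      have h1 : sig d.1 b.1 = sig d'.1 b.1 := congrArg Prod.fst h
      have h2 : sig d.2 b.2 = sig d'.2 b.2 := congrArg Prod.snd h
      exact Prod.ext
        (sig_inj hme g.1.1 g'.1.1 hb'.1.1 (congrArg Prod.fst hd.2) (congrArg Prod.fst hd'.2) h1)
        (sig_inj hme g.1.2 g'.1.2 hb'.1.2 (congrArg Prod.snd hd.2) (congrArg Prod.snd hd'.2) h2)
  have h1 := Finset.card_le_mul_card_image A B.card hfib
  have h2 : (A.image f).card ≤ 2 ^ e.primeFactors.card := by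
    rw [← card_div he]
    apply card_le_card_of_injOn (fun x : ℕ × ℕ => x.1.lcm x.2)
    · intro x hx
      obtain ⟨b, hb, rfl⟩ := mem_image.1 (mem_coe.1 hx)
      rw [mem_coe, Nat.mem_divisors]
      exact ⟨Nat.lcm_dvd (Nat.gcd_dvd_right _ _) (Nat.gcd_dvd_right _ _), he0⟩
    · intro x hx x' hx' h
      obtain ⟨d, hd, rfl⟩ := mem_image.1 (mem_coe.1 hx)
      obtain ⟨d', hd', rfl⟩ := mem_image.1 (mem_coe.1 hx')
      have h3 : (d.1.gcd e).lcm (d.2.gcd e) = (d'.1.gcd e).lcm (d'.2.gcd e) := h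
      have hsq : ∀ n, Squarefree (Nat.gcd n e) := fun n =>
        he.squarefree_of_dvd (Nat.gcd_dvd_right _ _)
      have key : ∀ p : ℕ, p.Prime → p ∣ e → (p ∣ d.1 ↔ p ∣ d'.1) ∧ (p ∣ d.2 ↔ p ∣ d'.2) := by
        intro p hp hpe
        obtain ⟨ε, hε⟩ := hdir p hp hpe
        have a1 := hε _ _ _ _ (hAe d hd p hp hpe)
        have a2 := hε _ _ _ _ (hAe d' hd' p hp hpe)
        have a3 : (p ∣ d.1 ∨ p ∣ d.2) ↔ (p ∣ d'.1 ∨ p ∣ d'.2) := by
          have b1 : ∀ d1 d2 : ℕ, p ∣ (d1.gcd e).lcm (d2.gcd e) ↔ (p ∣ d1 ∨ p ∣ d2) := by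
            intro d1 d2
            rw [hp.dvd_lcm, Nat.dvd_gcd_iff, Nat.dvd_gcd_iff]
            tauto
          rw [← b1, ← b1, h3]
        rw [dv_eq, dv_eq] at a1 a2
        have a4 : (decide (p ∣ d.1) || decide (p ∣ d.2)) =
            (decide (p ∣ d'.1) || decide (p ∣ d'.2)) := by
          rw [← Bool.decide_or, ← Bool.decide_or]
          exact decide_eq_decide.2 a3
        have a5 := bool_dir _ _ _ _ _ _ a1 a2 a4
        exact ⟨decide_eq_decide.1 a5.1, decide_eq_decide.1 a5.2⟩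
      apply Prod.ext
      · rw [Nat.Squarefree.ext_iff (hsq _) (hsq _)]
        intro p hp
        rw [Nat.dvd_gcd_iff, Nat.dvd_gcd_iff]
        exact ⟨fun h => ⟨(key p hp h.2).1.1 h.1, h.2⟩, fun h => ⟨(key p hp h.2).1.2 h.1, h.2⟩⟩
      · rw [Nat.Squarefree.ext_iff (hsq _) (hsq _)]
        intro p hp
        rw [Nat.dvd_gcd_iff, Nat.dvd_gcd_iff]
        exact ⟨fun h => ⟨(key p hp h.2).2.1 h.1, h.2⟩, fun h => ⟨(key p hp h.2).2.2 h.1, h.2⟩⟩
  calc A.card ≤ B.card * (A.image f).card := h1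
    _ ≤ B.card * 2 ^ e.primeFactors.card := Nat.mul_le_mul_left _ h2
    _ = 2 ^ e.primeFactors.card * B.card := mul_comm _ _

end Pool.Agent.H514
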