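import Pool.Agent.H514.Sub2
import Pool.Graph.R_seed8.W262.RK.NT1

/-!
# Growth of the average over the signs
-/

set_option autoImplicit false

namespace Pool.Agent.H514

open Finset Pool.Agent.W262.RK Pool.Agent.W307.RT Pool.Agent.W125.RK2

lemma LO_xc_bool : ∀ (c : Fin 3) (n a b x d a' b' x' d' : Bool),
    (if c = 0 then decide (a = b ∧ xor x d = (a && n))
    else if c = 1 then decide (b = false ∧ d = (a && n)) else
      decide (a = false ∧ x = (b && n))) = true →
    (if c = 0 then decide (a' = b' ∧ xor x' d' = (a' && n))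
    else if c = 1 then decide (b' = false ∧ d' = (a' && n)) else
      decide (a' = false ∧ x' = (b' && n))) = true →
    (if c = 0 then decide (xor a a' = xor b b' ∧ xor (xor x x') (xor d d') = (xor a a' && n))
    else if c = 1 then decide (xor b b' = false ∧ xor d d' = (xor a a' && n)) else
      decide (xor a a' = false ∧ xor x x' = (xor b b' && n))) = true := by
  decide

lemma LO_iff_dec (c : Fin 3) (n a b x d : Bool) : LO c n a b x d ↔
    (if c = 0 then decide (a = b ∧ xor x d = (a && n))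
    else if c = 1 then decide (b = false ∧ d = (a && n)) else
      decide (a = false ∧ x = (b && n))) = true := by
  unfold LO
  split_ifs <;> simp

lemma LO_xc (c : Fin 3) (n : Bool) : XC (LO c n) := by
  refine ⟨?_, ?_⟩
  · unfold LO
    split_ifs <;> simp
  · intro a b x d a' b' x' d' h h'
    rw [LO_iff_dec] at h h' ⊢
    exact LO_xc_bool c n a b x d a' b' x' d' h h'

lemma LO_dir (c : Fin 3) (n v w h g : Bool) (H : LO c n v w h g) :
    (v = false ∧ w = false) ∨ (v = (e3 c).1 ∧ w = (e3 c).2) := by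
  unfold LO at H
  unfold e3
  split_ifs at H ⊢ with h0 h1
  · rw [H.1]
    cases w <;> simp
  · rw [H.1]
    cases v <;> simp
  · rw [H.1]
    cases w <;> simp

theorem subb2 (z y : ℕ) (s e : Fin 3 → ℕ) (hT : (fun j => s j * e j) ∈ Tup (Fin 3) z y) :
    NB2 (fun j => s j * e j) ≤ 4 ^ (∑ j, (e j).primeFactors.card) * NB2 s := by
  classical
  have hT' : (∀ j, s j * e j ∈ (PP z y).divisors) ∧
      ∀ i j, i ≠ j → (s i * e i).Coprime (s j * e j) := by
    have h := mem_Tup'.1 hT
    exact ⟨fun j => Nat.mem_divisors.2 ⟨h.1 j, PP_ne_zero z y⟩, h.2⟩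
  have hsqj : ∀ j, Squarefree (s j * e j) := fun j => dv_squarefree (hT'.1 j)
  have hsq : Squarefree (∏ j, (s j * e j)) := by
    apply Finset.squarefree_prod_of_pairwise_isCoprime
    · intro i _ j _ hij
      exact Nat.coprime_iff_isRelPrime.1 (hT'.2 i j hij)
    · intro j _
      exact hsqj j
  have hprod : ∏ j, (s j * e j) = (∏ j, s j) * ∏ j, e j := Finset.prod_mul_distrib
  have hme : Squarefree ((∏ j, s j) * ∏ j, e j) := by
    rw [← hprod]
    exact hsq
  have hs0 : ∀ j, s j ≠ 0 := fun j => left_ne_zero_of_mul (hsqj j).ne_zero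
  have he0 : ∀ j, e j ≠ 0 := fun j => right_ne_zero_of_mul (hsqj j).ne_zero
  set P := (∏ j, s j).primeFactors with hP
  set Q := (∏ j, e j).primeFactors with hQ
  have hPQ : Disjoint P Q := (Nat.coprime_of_squarefree_mul hme).disjoint_primeFactors
  have hPU : (∏ j, (s j * e j)).primeFactors = P ∪ Q := by
    rw [hprod]
    exact Nat.primeFactors_mul (prod_ne_zero_iff.2 fun j _ => hs0 j)
      (prod_ne_zero_iff.2 fun j _ => he0 j)
  have hiff : ∀ p : ℕ, p.Prime → p ∣ ∏ j, s j → ∀ j, p ∣ s j * e j ↔ p ∣ s j := by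
    intro p hp h j
    constructor
    · intro hj
      obtain ⟨j0, _, hj0⟩ := (hp.prime.dvd_finsetProd_iff _).1 h
      by_cases hjj : j = j0
      · rw [hjj]
        exact hj0
      · exfalso
        have h1 := hT'.2 j j0 hjj
        have h2 : p ∣ (s j * e j).gcd (s j0 * e j0) := Nat.dvd_gcd hj (hj0.trans (Dvd.intro _ rfl))
        rw [h1.gcd_eq_one] at h2
        exact hp.one_lt.ne' (Nat.dvd_one.1 h2)
    · intro hj
      exact hj.trans (Dvd.intro _ rfl)
  have hXC : ∀ E : Finset ℕ, ∀ p, p.Prime → p ∣ ∏ j, s j →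
      XC (LO2 (fun j => s j * e j) E p) := by
    intro E p hp h
    have h1 : ∀ j : Fin 3, XC (LO j (decide (p ∈ E))) := fun j => LO_xc j _
    constructor
    · intro j _
      exact (h1 j).1
    · intro a b c d a' b' c' d' g g' j hj
      exact (h1 j).2 _ _ _ _ _ _ _ _ (g j hj) (g' j hj)
  have hdir : ∀ E : Finset ℕ, ∀ p, p.Prime → p ∣ ∏ j, e j → ∃ ε : Bool × Bool, ∀ v w h g,
      LO2 (fun j => s j * e j) E p v w h g →
      (v = false ∧ w = false) ∨ (v = ε.1 ∧ w = ε.2) := by
    intro E p hp h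
    obtain ⟨j0, _, hj0⟩ := (hp.prime.dvd_finsetProd_iff _).1 h
    refine ⟨e3 j0, fun v w h g H => ?_⟩
    exact LO_dir j0 _ v w h g (H j0 (hj0.trans (Dvd.intro_left _ rfl)))
  have hNL : ∀ E : Finset ℕ, NL (∏ j, s j) (LO2 (fun j => s j * e j) E) =
      NL (∏ j, s j) (LO2 s (E ∩ P)) := by
    intro E
    apply NL_congr
    intro p hp
    have hpp := Nat.prime_of_mem_primeFactors hp
    have hpd := Nat.dvd_of_mem_primeFactors hp
    funext v w h g
    unfold LO2
    apply propext
    apply forall_congr'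
    intro j
    rw [hiff p hpp hpd j]
    apply imp_congr_right
    intro hj
    have : (p ∈ E ∩ P) ↔ p ∈ E := by
      rw [mem_inter]
      exact ⟨fun h => h.1, fun h => ⟨h, hp⟩⟩
    simp only [this]
  have hω : (∏ j, e j).primeFactors.card ≤ ∑ j, (e j).primeFactors.card := by
    have h1 : (∏ j, e j).primeFactors ⊆ univ.biUnion (fun j => (e j).primeFactors) := by
      intro p hp
      rw [mem_biUnion]
      have hpp := Nat.prime_of_mem_primeFactors hp
      obtain ⟨j, _, hj⟩ := (hpp.prime.dvd_finsetProd_iff _).1 (Nat.dvd_of_mem_primeFactors hp)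
      exact ⟨j, mem_univ _, Nat.mem_primeFactors.2 ⟨hpp, hj, he0 j⟩⟩
    exact (Finset.card_le_card h1).trans card_biUnion_le
  have hstep : ∀ E : Finset ℕ, (NL (∏ j, (s j * e j)) (LO2 (fun j => s j * e j) E) : ℝ) ^ 2 ≤
      4 ^ (∑ j, (e j).primeFactors.card) * (NL (∏ j, s j) (LO2 s (E ∩ P)) : ℝ) ^ 2 := by
    intro E
    have h1 := sub2 (∏ j, s j) (∏ j, e j) (LO2 (fun j => s j * e j) E) hme (hXC E) (hdir E)
    rw [hNL E] at h1
    rw [hprod]
    have h2 : (NL ((∏ j, s j) * ∏ j, e j) (LO2 (fun j => s j * e j) E) : ℝ) ≤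
        2 ^ (∏ j, e j).primeFactors.card * (NL (∏ j, s j) (LO2 s (E ∩ P)) : ℝ) := by
      exact_mod_cast h1
    have h3 := pow_le_pow_left₀ (Nat.cast_nonneg _) h2 2
    refine h3.trans ?_
    rw [mul_pow, ← pow_mul, mul_comm (∏ j, e j).primeFactors.card 2, pow_mul]
    apply mul_le_mul_of_nonneg_right _ (by positivity)
    rw [show (2 : ℝ) ^ 2 = 4 by norm_num]
    exact pow_le_pow_right₀ (by norm_num) hω
  unfold NB2
  rw [hPU, ← hP, card_union_of_disjoint hPQ]
  calc (1 / 2 : ℝ) ^ (P.card + Q.card) *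
      ∑ E ∈ (P ∪ Q).powerset, (NL (∏ j, (s j * e j)) (LO2 (fun j => s j * e j) E) : ℝ) ^ 2 ≤
      (1 / 2 : ℝ) ^ (P.card + Q.card) * ∑ E ∈ (P ∪ Q).powerset,
        4 ^ (∑ j, (e j).primeFactors.card) * (NL (∏ j, s j) (LO2 s (E ∩ P)) : ℝ) ^ 2 := by
        apply mul_le_mul_of_nonneg_left _ (by positivity)
        exact Finset.sum_le_sum fun E _ => hstep E
    _ = 4 ^ (∑ j, (e j).primeFactors.card) * ((1 / 2 : ℝ) ^ P.card *
        ∑ E ∈ P.powerset, (NL (∏ j, s j) (LO2 s E) : ℝ) ^ 2) := by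
        rw [← Finset.mul_sum, sum_inter P Q hPQ (fun E => (NL (∏ j, s j) (LO2 s E) : ℝ) ^ 2),
          pow_add]
        have h2 : (1 / 2 : ℝ) ^ Q.card * 2 ^ Q.card = 1 := by
          rw [← mul_pow]
          norm_num
        linear_combination (4 ^ (∑ j, (e j).primeFactors.card) * ((1 / 2 : ℝ) ^ P.card *
          ∑ E ∈ P.powerset, (NL (∏ j, s j) (LO2 s E) : ℝ) ^ 2)) * h2

end Pool.Agent.H514
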